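import Mathlib
import Pool.Agent.Y902.FB.Exp

/-!
# Exponents of coprime solutions of the Fermat-Catalan equation, symmetric form
-/

set_option autoImplicit false

namespace Pool.Agent.R477.FC

/-- a sign -/
def Sg (e : ℤ) : Prop := e = 1 ∨ e = -1

lemma Sg.mul {a b : ℤ} (ha : Sg a) (hb : Sg b) : Sg (a * b) := by
  rcases ha with rfl | rfl <;> rcases hb with rfl | rfl <;> simp [Sg]

lemma Sg.neg {a : ℤ} (ha : Sg a) : Sg (-a) := by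
  rcases ha with rfl | rfl <;> simp [Sg]

lemma Sg.sq {a : ℤ} (ha : Sg a) : a * a = 1 := by
  rcases ha with rfl | rfl <;> norm_num

lemma Sg.ne {a : ℤ} (ha : Sg a) : a ≠ 0 := by
  rcases ha with rfl | rfl <;> norm_num

/-- signed primitive solutions: `e₁ x ^ p + e₂ y ^ q + e₃ z ^ r = 0` -/
structure SSol (x y z p q r : ℕ) (e₁ e₂ e₃ : ℤ) : Prop where
  x0 : 0 < x
  y0 : 0 < y
  z0 : 0 < z
  xy : Nat.Coprime x y
  xz : Nat.Coprime x z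
  yz : Nat.Coprime y z
  p2 : 2 ≤ p
  q2 : 2 ≤ q
  r2 : 2 ≤ r
  s1 : Sg e₁
  s2 : Sg e₂
  s3 : Sg e₃
  eq : e₁ * (x : ℤ) ^ p + e₂ * (y : ℤ) ^ q + e₃ * (z : ℤ) ^ r = 0

lemma SSol.rot {x y z p q r : ℕ} {e₁ e₂ e₃ : ℤ} (h : SSol x y z p q r e₁ e₂ e₃) :
    SSol y z x q r p e₂ e₃ e₁ :=
  ⟨h.y0, h.z0, h.x0, h.yz, h.xy.symm, h.xz.symm, h.q2, h.r2, h.p2, h.s2, h.s3, h.s1, by
    have := h.eq; linarith⟩

lemma SSol.swap {x y z p q r : ℕ} {e₁ e₂ e₃ : ℤ} (h : SSol x y z p q r e₁ e₂ e₃) :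
    SSol x z y p r q e₁ e₃ e₂ :=
  ⟨h.x0, h.z0, h.y0, h.xz, h.xy, h.yz.symm, h.p2, h.r2, h.q2, h.s1, h.s3, h.s2, by
    have := h.eq; linarith⟩

lemma sgn_even {e : ℤ} (he : Sg e) {n : ℤ} : Even (e * n) ↔ Even n := by
  rcases he with rfl | rfl
  · simp
  · simp

/-- the exponents of the bases `≥ 2` are at most a power of the logarithm of the bases -/
theorem exps : ∃ C κ : ℕ, ∀ S : ℕ, 2 ≤ S → ∀ (x y z p q r : ℕ) (e₁ e₂ e₃ : ℤ),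
    SSol x y z p q r e₁ e₂ e₃ → x ≤ 2 ^ S → y ≤ 2 ^ S → z ≤ 2 ^ S →
      (2 ≤ x → p ≤ C * S ^ κ) ∧ (2 ≤ y → q ≤ C * S ^ κ) ∧ (2 ≤ z → r ≤ C * S ^ κ) := by
  obtain ⟨C, κ, hC⟩ := Pool.Agent.Y902.FB.exp_bound_even
  refine ⟨C, κ, fun S hS => ?_⟩
  have key : ∀ (x y z p q r : ℕ) (e₁ e₂ e₃ : ℤ), SSol x y z p q r e₁ e₂ e₃ → x ≤ 2 ^ S →
      y ≤ 2 ^ S → z ≤ 2 ^ S → 2 ∣ x →
      (2 ≤ x → p ≤ C * S ^ κ) ∧ (2 ≤ y → q ≤ C * S ^ κ) ∧ (2 ≤ z → r ≤ C * S ^ κ) := by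
    intro x y z p q r e₁ e₂ e₃ h hx hy hz h2
    have hy2 : ¬ 2 ∣ y := fun h3 => by
      have := Nat.dvd_gcd h2 h3
      rw [h.xy] at this
      omega
    have hz2 : ¬ 2 ∣ z := fun h3 => by
      have := Nat.dvd_gcd h2 h3
      rw [h.xz] at this
      omega
    have heq : (x : ℤ) ^ p + (e₁ * e₂) * (y : ℤ) ^ q = (-(e₁ * e₃)) * (z : ℤ) ^ r := by
      have h1 := h.eq
      have h2 := h.s1.sq
      linear_combination e₁ * h1 - (x : ℤ) ^ p * h2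
    have := hC S hS x y z p q r h.y0 h.z0 hx hy hz h.yz h2 hy2 hz2 h.p2
      (by have := h.q2; omega) (by have := h.r2; omega) _ _ (h.s1.mul h.s2)
      (h.s1.mul h.s3).neg heq h.x0.ne'
    exact ⟨fun _ => this.1, this.2.1, this.2.2⟩
  intro x y z p q r e₁ e₂ e₃ h hx hy hz
  by_cases h1 : 2 ∣ x
  · exact key x y z p q r e₁ e₂ e₃ h hx hy hz h1
  by_cases h2 : 2 ∣ y
  · obtain ⟨a1, a2, a3⟩ := key y z x q r p e₂ e₃ e₁ h.rot hy hz hx h2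
    exact ⟨a3, a1, a2⟩
  by_cases h3 : 2 ∣ z
  · obtain ⟨a1, a2, a3⟩ := key z x y r p q e₃ e₁ e₂ h.rot.rot hz hx hy h3
    exact ⟨a2, a3, a1⟩
  exfalso
  have ho : ∀ (n k : ℕ) (e : ℤ), Sg e → ¬ 2 ∣ n → Odd (e * (n : ℤ) ^ k) := by
    intro n k e he hn
    rw [← Int.not_even_iff_odd, sgn_even he, Int.not_even_iff_odd]
    apply Odd.pow
    rw [← Int.not_even_iff_odd, even_iff_two_dvd]
    exact_mod_cast hn
  have h4 := ((ho x p e₁ h.s1 h1).add_odd (ho y q e₂ h.s2 h2)).add_odd (ho z r e₃ h.s3 h3)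
  rw [h.eq] at h4
  exact absurd h4 (by decide)

/-- polylogarithmic bounds are smaller than small powers: for all `C`, `κ`, `K` and `n ≥ 1` we have
`(C (K log₂ B) ^ κ) ^ n < B` for large `B` -/
theorem polylog_lt (C κ n : ℕ) : ∃ S₀ : ℕ, ∀ S : ℕ, S₀ ≤ S → (C * S ^ κ) ^ n < 2 ^ S := by
  obtain ⟨L₀, hL₀⟩ := Pool.Agent.TH888.B1.growth (C ^ n) (κ * n)
  refine ⟨L₀ + 1, fun S hS => ?_⟩
  by_contra hcon
  push Not at hcon
  have := hL₀ S (by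
    calc 2 ^ S ≤ (C * S ^ κ) ^ n := hcon
      _ = C ^ n * S ^ (κ * n) := by rw [mul_pow, ← pow_mul])
  omega

end Pool.Agent.R477.FC
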