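import Mathlib

/-!
# Integer polynomials: root bound, size of values, divisibility of values and of polynomials
-/

set_option autoImplicit false

namespace Pool.Agent.R477.FC

open Polynomial

/-- the polynomial over `ℚ` -/
noncomputable abbrev toQ (f : ℤ[X]) : ℚ[X] := f.map (Int.castRingHom ℚ)

/-- an integral root divides the lowest coefficient -/
lemma root_bound (g : ℤ[X]) (hg : g ≠ 0) (L : ℤ) (hL : ∀ i, |g.coeff i| ≤ L) (n : ℤ)
    (hn : L < |n|) : g.eval n ≠ 0 := by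
  intro h0
  obtain ⟨g₁, hg₁⟩ := Polynomial.X_pow_dvd_iff.2 (fun d hd => coeff_eq_zero_of_lt_natTrailingDegree hd :
    ∀ d < g.natTrailingDegree, g.coeff d = 0)
  set k := g.natTrailingDegree with hk
  have hc : g₁.coeff 0 = g.coeff k := by
    conv_rhs => rw [hg₁]
    have := Polynomial.coeff_X_pow_mul g₁ k 0
    simpa using this.symm
  have hne : g.coeff k ≠ 0 := by
    have := trailingCoeff_nonzero_iff_nonzero.2 hg
    exact this
  have hL0 : 0 ≤ L := (abs_nonneg _).trans (hL 0)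
  have hn0 : n ≠ 0 := by
    rintro rfl
    simp at hn
    omega
  have h1 : g₁.eval n = 0 := by
    rw [hg₁, eval_mul, eval_pow, eval_X] at h0
    exact (mul_eq_zero.1 h0).resolve_left (pow_ne_zero _ hn0)
  have h2 : n ∣ g₁.coeff 0 := by
    have h3 := Polynomial.sub_dvd_eval_sub n 0 g₁
    rw [h1, ← coeff_zero_eq_eval_zero, sub_zero, zero_sub] at h3
    exact (dvd_neg.1 h3)
  have h3 : |n| ≤ |g.coeff k| := by
    rw [← hc]
    rw [← hc] at hne
    exact Int.le_of_dvd (abs_pos.2 hne) ((abs_dvd_abs _ _).2 h2)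
  have := hL k
  omega

lemma eval_le (R : ℤ[X]) (D : ℕ) (K : ℤ) (hD : R.natDegree < D) (hK : ∀ i, |R.coeff i| ≤ K)
    (n : ℤ) (hn : 1 ≤ |n|) : |R.eval n| ≤ K * D * |n| ^ (D - 1) := by
  rw [eval_eq_sum_range' hD]
  have hK0 : 0 ≤ K := (abs_nonneg _).trans (hK 0)
  calc |∑ i ∈ Finset.range D, R.coeff i * n ^ i| ≤ ∑ i ∈ Finset.range D, |R.coeff i * n ^ i| :=
        Finset.abs_sum_le_sum_abs _ _
    _ ≤ ∑ _i ∈ Finset.range D, K * |n| ^ (D - 1) := by
        apply Finset.sum_le_sum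
        intro i hi
        rw [abs_mul, abs_pow]
        apply mul_le_mul (hK i) _ (by positivity) hK0
        exact pow_le_pow_right₀ hn (by have := Finset.mem_range.1 hi; omega)
    _ = K * D * |n| ^ (D - 1) := by
        rw [Finset.sum_const, Finset.card_range, nsmul_eq_mul]
        ring

/-- a bound for the coefficients -/
lemma coeff_bd (g : ℤ[X]) : ∃ K : ℤ, 0 ≤ K ∧ ∀ i, |g.coeff i| ≤ K := by
  refine ⟨∑ i ∈ g.support, |g.coeff i|, Finset.sum_nonneg fun i _ => abs_nonneg _, fun i => ?_⟩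
  by_cases hi : i ∈ g.support
  · exact Finset.single_le_sum (f := fun i => |g.coeff i|) (fun i _ => abs_nonneg _) hi
  · rw [notMem_support_iff.1 hi, abs_zero]
    exact Finset.sum_nonneg fun i _ => abs_nonneg _

/-- `g(n) = a n ^ D + O(n ^ (D - 1))` -/
lemma eval_lead (g : ℤ[X]) : ∃ A : ℤ, 0 ≤ A ∧ ∀ n : ℤ, 1 ≤ |n| →
    |g.eval n - g.leadingCoeff * n ^ g.natDegree| ≤ A * |n| ^ (g.natDegree - 1) := by
  obtain ⟨K, hK0, hK⟩ := coeff_bd g
  refine ⟨K * (g.natDegree + 1), by positivity, fun n hn => ?_⟩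
  rcases Nat.eq_zero_or_pos g.natDegree with h0 | h0
  · obtain ⟨c, rfl⟩ := natDegree_eq_zero.1 h0
    have e1 : (C c : ℤ[X]).eval n - (C c : ℤ[X]).leadingCoeff * n ^ (C c : ℤ[X]).natDegree = 0 := by
      rw [leadingCoeff_C, natDegree_C, eval_C]
      ring
    rw [e1, abs_zero]
    positivity
  · have h1 : g.eval n - g.leadingCoeff * n ^ g.natDegree = g.eraseLead.eval n := by
      have := congrArg (eval n) g.eraseLead_add_C_mul_X_pow
      simp only [eval_add, eval_mul, eval_C, eval_pow, eval_X] at this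
      linarith
    rw [h1]
    have h2 : g.eraseLead.natDegree < g.natDegree := by
      apply eraseLead_natDegree_lt_or_eraseLead_eq_zero g |>.elim id
      intro h
      rw [h, natDegree_zero]
      exact h0
    have h3 : ∀ i, |g.eraseLead.coeff i| ≤ K := by
      intro i
      rw [eraseLead_coeff]
      split_ifs
      · simpa using hK0
      · exact hK i
    refine (eval_le g.eraseLead g.natDegree K h2 h3 n hn).trans ?_
    gcongr
    push_cast
    omega

/-- `|n| ^ D ≤ 2 |g(n)|` for large `n` -/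
lemma eval_lower (g : ℤ[X]) (hg : g ≠ 0) : ∃ N₀ : ℤ, ∀ n : ℤ, N₀ ≤ |n| →
    |n| ^ g.natDegree ≤ 2 * |g.eval n| := by
  obtain ⟨A, hA0, hA⟩ := eval_lead g
  refine ⟨2 * A + 1, fun n hn => ?_⟩
  have hn1 : 1 ≤ |n| := by omega
  have h1 := hA n hn1
  have hlc : 1 ≤ |g.leadingCoeff| := Int.one_le_abs (leadingCoeff_ne_zero.2 hg)
  have h2 : |g.leadingCoeff * n ^ g.natDegree| ≤ |g.eval n| + A * |n| ^ (g.natDegree - 1) := by
    have := abs_sub_abs_le_abs_sub (g.leadingCoeff * n ^ g.natDegree) (g.eval n)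
    rw [abs_sub_comm] at this
    linarith
  rw [abs_mul, abs_pow] at h2
  have h3 : |n| ^ g.natDegree ≤ |g.leadingCoeff| * |n| ^ g.natDegree :=
    le_mul_of_one_le_left (by positivity) hlc
  rcases Nat.eq_zero_or_pos g.natDegree with h0 | h0
  · obtain ⟨c, rfl⟩ := natDegree_eq_zero.1 h0
    have hc : c ≠ 0 := by rintro rfl; simp at hg
    have : 1 ≤ |c| := Int.one_le_abs hc
    simp only [eval_C, natDegree_C, pow_zero]
    omega
  · have h4 : 2 * (A * |n| ^ (g.natDegree - 1)) ≤ |n| ^ g.natDegree := by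
      obtain ⟨j, hj⟩ : ∃ j, g.natDegree = j + 1 := ⟨g.natDegree - 1, by omega⟩
      rw [hj, Nat.add_sub_cancel, pow_succ]
      have : 2 * A ≤ |n| := by omega
      nlinarith [pow_nonneg (abs_nonneg n) j]
    linarith

/-- upper bound for values -/
lemma eval_upper (g : ℤ[X]) : ∃ N₀ : ℤ, ∀ n : ℤ, N₀ ≤ |n| →
    |g.eval n| ≤ |n| ^ (g.natDegree + 1) := by
  obtain ⟨K, hK0, hK⟩ := coeff_bd g
  refine ⟨K * (g.natDegree + 1) + 1, fun n hn => ?_⟩
  have hn1 : 1 ≤ |n| := by
    have : 0 ≤ K * ((g.natDegree : ℤ) + 1) := by positivity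
    omega
  have h1 := eval_le g (g.natDegree + 1) K (by omega) hK n hn1
  rw [Nat.add_sub_cancel] at h1
  refine h1.trans ?_
  rw [pow_succ, mul_comm (|n| ^ _)]
  gcongr
  push_cast
  omega

lemma clear (p : ℚ[X]) : ∃ (b : ℤ) (P : ℤ[X]), b ≠ 0 ∧ toQ P = C (b : ℚ) * p := by
  obtain ⟨b, hb0, hb⟩ := IsLocalization.integerNormalization_spec (nonZeroDivisors ℤ) p
  refine ⟨b, IsLocalization.integerNormalization (nonZeroDivisors ℤ) p,
    nonZeroDivisors.ne_zero hb0, ?_⟩
  have h : toQ (IsLocalization.integerNormalization (nonZeroDivisors ℤ) p) = (b : ℤ) • p := hb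
  rw [h]
  ext i
  simp

lemma toQ_inj {f g : ℤ[X]} (h : toQ f = toQ g) : f = g :=
  Polynomial.map_injective _ (RingHom.injective_int _) h

/-- pseudo-division -/
lemma pdiv (δ : ℤ[X]) (hδ : 0 < δ.natDegree) (A : ℤ[X]) : ∃ (M : ℤ) (Q R : ℤ[X]), M ≠ 0 ∧
    C M * A = δ * Q + R ∧ R.natDegree < δ.natDegree := by
  have hδ' : (toQ δ).natDegree = δ.natDegree :=
    natDegree_map_eq_of_injective (RingHom.injective_int _) δ
  obtain ⟨b₁, Q, hb₁, hQ⟩ := clear (toQ A / toQ δ)
  obtain ⟨b₂, R, hb₂, hR⟩ := clear (toQ A % toQ δ)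
  refine ⟨b₁ * b₂, C b₂ * Q, C b₁ * R, mul_ne_zero hb₁ hb₂, ?_, ?_⟩
  · apply toQ_inj
    have h := EuclideanDomain.div_add_mod (toQ A) (toQ δ)
    simp only [toQ, Polynomial.map_mul, Polynomial.map_add, map_C] at hQ hR h ⊢
    rw [hQ, hR]
    conv_lhs => rw [← h]
    simp only [eq_intCast, map_mul]
    ring
  · have h1 : (toQ (C b₁ * R)).natDegree = (C b₁ * R).natDegree :=
      natDegree_map_eq_of_injective (RingHom.injective_int _) _
    rw [← h1, ← hδ']
    have h2 : toQ (C b₁ * R) = C ((b₁ : ℚ) * b₂) * (toQ A % toQ δ) := by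
      simp only [toQ, Polynomial.map_mul, map_C] at hR ⊢
      rw [hR]
      simp only [eq_intCast, map_mul]
      ring
    rw [h2]
    refine lt_of_le_of_lt (natDegree_C_mul_le _ _) ?_
    exact natDegree_mod_lt _ (by omega)

/-- If the value at a large integer `n` of a linear combination with small coefficients of given
polynomials is divisible by `δ(n)`, then the combination is divisible by `δ`. -/
lemma lin {ι : Type} [Fintype ι] [DecidableEq ι] (δ : ℤ[X]) (hδ : 0 < δ.natDegree)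
    (A : ι → ℤ[X]) :
    ∃ K : ℤ, 0 < K ∧ ∀ (c : ι → ℤ) (L n : ℤ), 0 ≤ L → (∀ i, |c i| ≤ L) → K * (L + 1) ≤ |n| →
      δ.eval n ∣ (∑ i, C (c i) * A i).eval n → toQ δ ∣ toQ (∑ i, C (c i) * A i) := by
  choose M' Q' R' hM' hE' hD' using pdiv δ hδ
  obtain ⟨N₀, hN₀⟩ := eval_lower δ (by rintro rfl; simp at hδ)
  set D := δ.natDegree with hD
  set M : ℤ := ∏ i, M' (A i) with hM
  set P : ι → ℤ := fun i => ∏ j ∈ Finset.univ.erase i, M' (A j) with hP
  have hMP : ∀ i, M = P i * M' (A i) := fun i =>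
    (Finset.prod_erase_mul _ _ (Finset.mem_univ i)).symm
  have hM0 : M ≠ 0 := Finset.prod_ne_zero_iff.2 fun i _ => hM' _
  set R : ι → ℤ[X] := fun i => C (P i) * R' (A i) with hR
  choose K₀ hK₀ hK₁ using coeff_bd
  set K₁ : ℤ := ∑ i, K₀ (R i) with hK1
  have hK₁0 : 0 ≤ K₁ := Finset.sum_nonneg fun i _ => hK₀ _
  refine ⟨2 * K₁ * D + K₁ + |N₀| + 1, by positivity, ?_⟩
  intro c L n hL hc hn hdvd
  have hE : C M * (∑ i, C (c i) * A i) = δ * (∑ i, C (c i * P i) * Q' (A i)) +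
      ∑ i, C (c i) * R i := by
    rw [Finset.mul_sum, Finset.mul_sum, ← Finset.sum_add_distrib]
    apply Finset.sum_congr rfl
    intro i _
    rw [hMP i, hR]
    have := hE' (A i)
    simp only [map_mul]
    linear_combination (C (c i) * C (P i)) * this
  set R₁ : ℤ[X] := ∑ i, C (c i) * R i with hR₁
  have hcoef : ∀ j, |R₁.coeff j| ≤ L * K₁ := by
    intro j
    rw [hR₁, finsetSum_coeff]
    refine (Finset.abs_sum_le_sum_abs _ _).trans ?_
    rw [hK1, Finset.mul_sum]
    apply Finset.sum_le_sum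
    intro i _
    rw [coeff_C_mul, abs_mul]
    exact mul_le_mul (hc i) (hK₁ _ _) (abs_nonneg _) hL
  have hdeg : R₁.natDegree < D := by
    apply lt_of_le_of_lt (natDegree_sum_le_of_forall_le (n := D - 1) _ _ ?_) (by omega)
    intro i _
    refine (natDegree_C_mul_le _ _).trans ?_
    refine (natDegree_C_mul_le _ _).trans ?_
    have := hD' (A i)
    omega
  have hbig : 2 * K₁ * D * (L + 1) + K₁ * (L + 1) + |N₀| * (L + 1) + (L + 1) ≤ |n| := by
    linarith
  have e1 : 0 ≤ 2 * K₁ * D * (L + 1) := by positivity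
  have e2 : 0 ≤ K₁ * (L + 1) := by positivity
  have e3 : |N₀| ≤ |N₀| * (L + 1) := le_mul_of_one_le_right (abs_nonneg _) (by omega)
  have hn1 : 1 ≤ |n| := by
    have := abs_nonneg N₀
    omega
  have hnN : N₀ ≤ |n| := by
    have := le_abs_self N₀
    omega
  have h1 := hN₀ n hnN
  have h2 := eval_le R₁ D (L * K₁) hdeg hcoef n hn1
  have h3 : |R₁.eval n| < |δ.eval n| := by
    obtain ⟨j, hj⟩ : ∃ j, D = j + 1 := ⟨D - 1, by omega⟩
    rw [hj, Nat.add_sub_cancel] at h2
    rw [hj, pow_succ] at h1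
    have h4 : 2 * (L * K₁ * ((j + 1 : ℕ) : ℤ)) < |n| := by
      rw [← hj]
      have : 2 * (L * K₁ * (D : ℤ)) ≤ 2 * K₁ * D * (L + 1) := by nlinarith [mul_nonneg hK₁0 (Nat.cast_nonneg (α := ℤ) D)]
      have := abs_nonneg N₀
      omega
    have h5 : (0 : ℤ) < |n| ^ j := by positivity
    nlinarith
  have h4 : R₁.eval n = 0 := by
    have h5 : δ.eval n ∣ R₁.eval n := by
      have h6 := congrArg (eval n) hE
      rw [eval_add, eval_mul, eval_mul, eval_C] at h6
      have h7 : R₁.eval n = M * (∑ i, C (c i) * A i).eval n -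
          δ.eval n * (∑ i, C (c i * P i) * Q' (A i)).eval n := by rw [h6]; ring
      rw [h7]
      exact dvd_sub (Dvd.dvd.mul_left hdvd _) (dvd_mul_right _ _)
    exact Int.eq_zero_of_abs_lt_dvd ((abs_dvd _ _).2 h5) h3
  have h5 : R₁ = 0 := by
    by_contra hne
    refine root_bound R₁ hne (L * K₁) hcoef n ?_ h4
    have : L * K₁ ≤ K₁ * (L + 1) := by nlinarith
    have := abs_nonneg N₀
    omega
  rw [h5, add_zero] at hE
  have h6 : toQ δ ∣ C (M : ℚ) * toQ (∑ i, C (c i) * A i) := by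
    have h7 := congrArg toQ hE
    refine ⟨toQ (∑ i, C (c i * P i) * Q' (A i)), ?_⟩
    rw [toQ, toQ, Polynomial.map_mul, Polynomial.map_mul, map_C, eq_intCast] at h7
    exact h7
  have hM1 : IsUnit (C (M : ℚ)) := isUnit_C.2 (isUnit_iff_ne_zero.2 (by exact_mod_cast hM0))
  exact (IsUnit.dvd_mul_left hM1).1 h6

end Pool.Agent.R477.FC
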