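import Mathlib
import Pool.Agent.R477.FC.PolyBasic

/-!
# Congruences between powers of values and of polynomials
-/

set_option autoImplicit false

namespace Pool.Agent.R477.FC

open Polynomial

/-- truncated binomial expansion -/
lemma trunc {R : Type*} [CommRing R] (d a : R) (h : d ∣ a) (k r : ℕ) :
    d ^ (k + 1) ∣ (1 + a) ^ r - ∑ j ∈ Finset.range (k + 1), (r.choose j : R) * a ^ j := by
  have h1 : (1 + a) ^ r = ∑ j ∈ Finset.range ((k + 1) + (r + 1)), (r.choose j : R) * a ^ j := by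
    rw [add_comm 1 a, add_pow]
    have h2 : ∑ j ∈ Finset.range ((k + 1) + (r + 1)), (r.choose j : R) * a ^ j =
        ∑ j ∈ Finset.range (r + 1), (r.choose j : R) * a ^ j := by
      rw [add_comm (k + 1), Finset.sum_range_add, add_eq_left]
      apply Finset.sum_eq_zero
      intro j _
      rw [Nat.choose_eq_zero_of_lt (by omega)]
      simp
    rw [h2]
    apply Finset.sum_congr rfl
    intro j _
    simp [mul_comm]
  rw [h1, Finset.sum_range_add, add_sub_cancel_left]
  apply Finset.dvd_sum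
  intro j _
  apply Dvd.dvd.mul_left
  calc d ^ (k + 1) ∣ a ^ (k + 1) := pow_dvd_pow_of_dvd h _
    _ ∣ a ^ (k + 1 + j) := pow_dvd_pow _ (by omega)

/-- A congruence modulo `d(n) ^ (k + 1)` between powers of `g(n)` and `h(n)` with exponents that are
small in comparison with `n` comes from a congruence of polynomials. -/
lemma cong_lift (d g h : ℤ[X]) (m k : ℕ) (hd : 0 < d.natDegree) (hg : d ∣ g ^ m - 1)
    (hh : d ∣ h ^ m - 1) :
    ∃ K : ℤ, 0 < K ∧ ∀ (L n : ℤ) (r q : ℕ), 1 ≤ L → (r : ℤ) ≤ L → (q : ℤ) ≤ L →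
      K * (L ^ k + 1) ≤ |n| → (d.eval n) ^ (k + 1) ∣ (h.eval n) ^ (m * r) - (g.eval n) ^ (m * q) →
      (toQ d) ^ (k + 1) ∣ toQ h ^ (m * r) - toQ g ^ (m * q) := by
  have hδ : 0 < (d ^ (k + 1)).natDegree := by
    rw [natDegree_pow]
    positivity
  set a := h ^ m - 1 with ha
  set b := g ^ m - 1 with hb
  obtain ⟨K, hK0, hK⟩ := lin (d ^ (k + 1)) hδ
    (Sum.elim (fun j : Fin (k + 1) => a ^ (j : ℕ)) (fun j : Fin (k + 1) => b ^ (j : ℕ)))
  refine ⟨K, hK0, fun L n r q hL hr hq hn hdvd => ?_⟩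
  set c : Fin (k + 1) ⊕ Fin (k + 1) → ℤ := Sum.elim (fun j => (r.choose j : ℤ))
    (fun j => -(q.choose j : ℤ)) with hc
  set T := ∑ i, C (c i) * (Sum.elim (fun j : Fin (k + 1) => a ^ (j : ℕ))
    (fun j : Fin (k + 1) => b ^ (j : ℕ))) i with hT
  have hT1 : T = ∑ j ∈ Finset.range (k + 1), (r.choose j : ℤ[X]) * a ^ j -
      ∑ j ∈ Finset.range (k + 1), (q.choose j : ℤ[X]) * b ^ j := by
    rw [hT, Fintype.sum_sum_type, hc]
    simp only [Sum.elim_inl, Sum.elim_inr]
    rw [Fin.sum_univ_eq_sum_range (fun j => C ((r.choose j : ℤ)) * a ^ j) (k + 1),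
      Fin.sum_univ_eq_sum_range (fun j => C (-(q.choose j : ℤ)) * b ^ j) (k + 1), sub_eq_add_neg,
      ← Finset.sum_neg_distrib]
    refine congrArg₂ (· + ·) rfl ?_
    apply Finset.sum_congr rfl
    intro j _
    simp
  have hE : d ^ (k + 1) ∣ (h ^ (m * r) - g ^ (m * q)) - T := by
    have h1 := trunc d a hh k r
    have h2 := trunc d b hg k q
    have e1 : (1 + a) ^ r = h ^ (m * r) := by rw [ha, pow_mul]; congr 1; ring
    have e2 : (1 + b) ^ q = g ^ (m * q) := by rw [hb, pow_mul]; congr 1; ring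
    rw [e1] at h1
    rw [e2] at h2
    rw [hT1]
    have := dvd_sub h1 h2
    convert this using 1
    ring
  have hTn : (d ^ (k + 1)).eval n ∣ T.eval n := by
    obtain ⟨e, he⟩ := hE
    have h1 := congrArg (eval n) he
    simp only [eval_sub, eval_mul, eval_pow] at h1
    rw [eval_pow]
    have h2 : T.eval n = (h.eval n) ^ (m * r) - (g.eval n) ^ (m * q) -
        (d.eval n) ^ (k + 1) * e.eval n := by linarith
    rw [h2]
    exact dvd_sub hdvd (dvd_mul_right _ _)
  have hcL : ∀ i, |c i| ≤ L ^ k := by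
    have key : ∀ (s : ℕ), (s : ℤ) ≤ L → ∀ j : Fin (k + 1), (s.choose j : ℤ) ≤ L ^ k := by
      intro s hs j
      have h1 : (s.choose j : ℤ) ≤ (s : ℤ) ^ (j : ℕ) := by
        exact_mod_cast Nat.choose_le_pow s j
      have h2 : (s : ℤ) ^ (j : ℕ) ≤ L ^ (j : ℕ) := pow_le_pow_left₀ (by positivity) hs _
      have h3 : L ^ (j : ℕ) ≤ L ^ k := pow_le_pow_right₀ hL (by omega)
      omega
    rintro (j | j)
    · rw [hc, Sum.elim_inl, abs_of_nonneg (by positivity)]
      exact key r hr j
    · rw [hc, Sum.elim_inr, abs_neg, abs_of_nonneg (by positivity)]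
      exact key q hq j
  have h1 := hK c (L ^ k) n (by positivity) hcL hn hTn
  have h2 : toQ (d ^ (k + 1)) ∣ toQ ((h ^ (m * r) - g ^ (m * q)) - T) :=
    Polynomial.map_dvd _ hE
  have h3 := dvd_add h2 h1
  have e3 : toQ ((h ^ (m * r) - g ^ (m * q)) - T) + toQ T = toQ h ^ (m * r) - toQ g ^ (m * q) := by
    simp only [toQ, Polynomial.map_sub, Polynomial.map_pow]
    ring
  have e4 : toQ (d ^ (k + 1)) = toQ d ^ (k + 1) := by simp [toQ]
  rw [← e3, ← e4]
  exact h3

/-- the logarithmic derivative of a congruence -/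
lemma wron (d g h : ℚ[X]) (hcg : IsCoprime d g) (r q m k : ℕ) (hm : 0 < m)
    (hr : 0 < r) (hq : 0 < q) (H : d ^ (k + 1) ∣ h ^ (m * r) - g ^ (m * q)) :
    d ^ k ∣ C (r : ℚ) * derivative h * g - C (q : ℚ) * derivative g * h := by
  have h1 := pow_sub_one_dvd_derivative_of_pow_dvd H
  rw [Nat.add_sub_cancel, derivative_sub, derivative_pow, derivative_pow] at h1
  obtain ⟨e, he⟩ := H
  have hr' : h ^ (m * r - 1) * h = h ^ (m * r) := by
    rw [← pow_succ]
    congr 1
    have : 0 < m * r := by positivity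
    omega
  have hq' : g ^ (m * q - 1) * g = g ^ (m * q) := by
    rw [← pow_succ]
    congr 1
    have : 0 < m * q := by positivity
    omega
  have h2 : d ^ k ∣ g ^ (m * q) * (C ((m : ℚ)) *
      (C (r : ℚ) * derivative h * g - C (q : ℚ) * derivative g * h)) := by
    have h3 := Dvd.dvd.mul_right h1 (g * h)
    have h4 : d ^ k ∣ d ^ (k + 1) * e * (C ((m : ℚ) * r) * derivative h * g) :=
      Dvd.dvd.mul_right (Dvd.dvd.mul_right (pow_dvd_pow _ (Nat.le_succ k)) _) _
    have h5 := dvd_sub h3 h4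
    rw [← he] at h5
    convert h5 using 1
    rw [← hr', ← hq']
    push_cast
    simp only [map_mul, map_natCast]
    ring
  have h6 : IsCoprime (d ^ k) (g ^ (m * q)) := hcg.pow
  have h7 := h6.dvd_of_dvd_mul_left h2
  have hu : IsUnit (C (m : ℚ)) := isUnit_C.2 (isUnit_iff_ne_zero.2 (by positivity))
  exact (IsUnit.dvd_mul_left hu).1 h7

/-- the Wronskian is not zero -/
lemma wron_ne (g h : ℚ[X]) (hc : IsCoprime g h) (hg : 0 < g.natDegree) (r q : ℕ)
    (hq : 0 < q) :
    C (r : ℚ) * derivative h * g - C (q : ℚ) * derivative g * h ≠ 0 := by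
  intro h0
  have h1 : C (r : ℚ) * derivative h * g = C (q : ℚ) * derivative g * h := sub_eq_zero.1 h0
  have h2 : g ∣ h * (C (q : ℚ) * derivative g) := ⟨C (r : ℚ) * derivative h, by rw [mul_comm g, h1]; ring⟩
  have h3 := hc.dvd_of_dvd_mul_left h2
  have hu : IsUnit (C (q : ℚ)) := isUnit_C.2 (isUnit_iff_ne_zero.2 (by positivity))
  have h4 := (IsUnit.dvd_mul_left hu).1 h3
  have h5 : derivative g ≠ 0 := by
    intro h6
    have := derivative_eq_zero.1 h6
    omega
  have h6 := natDegree_le_of_dvd h4 h5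
  have h7 := natDegree_derivative_lt (p := g) (by omega)
  omega

lemma wron_natDegree_lt (g h : ℚ[X]) (hg : 0 < g.natDegree) (hh : 0 < h.natDegree) (r q : ℚ) :
    (C r * derivative h * g - C q * derivative g * h).natDegree < g.natDegree + h.natDegree := by
  have h1 : (C r * derivative h * g).natDegree < g.natDegree + h.natDegree := by
    refine lt_of_le_of_lt natDegree_mul_le ?_
    have h2 := natDegree_C_mul_le r (derivative h)
    have h3 := natDegree_derivative_lt (p := h) (by omega)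
    omega
  have h2 : (C q * derivative g * h).natDegree < g.natDegree + h.natDegree := by
    refine lt_of_le_of_lt natDegree_mul_le ?_
    have h2 := natDegree_C_mul_le q (derivative g)
    have h3 := natDegree_derivative_lt (p := g) (by omega)
    omega
  exact lt_of_le_of_lt (natDegree_sub_le _ _) (max_lt h1 h2)

end Pool.Agent.R477.FC
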