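import Mathlib
import Pool.Agent.R477.FC.Exp
import Pool.Agent.R477.FC.Wron

/-!
# Bases in polynomial families: common lemmas
-/

set_option autoImplicit false

namespace Pool.Agent.R477.FC

open Polynomial

/-- hyperbolic exponents -/
def Hyp (p q r : ℕ) : Prop := q * r + r * p + p * q < p * q * r

lemma toQ_mul (u v : ℤ[X]) : toQ (u * v) = toQ u * toQ v := Polynomial.map_mul _

/-- if two polynomials are not coprime, then their values at large integers are not coprime -/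
lemma cop_of_vals (f g : ℤ[X]) (hf : f ≠ 0) (h : ¬ IsCoprime (toQ f) (toQ g)) :
    ∃ N₀ : ℤ, ∀ n : ℤ, N₀ ≤ |n| → ¬ IsCoprime (f.eval n) (g.eval n) := by
  classical
  have hf' : toQ f ≠ 0 := fun h0 => hf (toQ_inj (by rw [h0]; simp [toQ]))
  set e := EuclideanDomain.gcd (toQ f) (toQ g) with he
  have he0 : e ≠ 0 := by
    intro h0
    exact hf' (EuclideanDomain.gcd_eq_zero_iff.1 h0).1
  have heu : ¬ IsUnit e := fun hu => h (EuclideanDomain.gcd_isUnit_iff.1 hu)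
  have hed : 0 < e.natDegree := by
    rw [Nat.pos_iff_ne_zero]
    intro h0
    obtain ⟨c, hc⟩ := natDegree_eq_zero.1 h0
    apply heu
    rw [← hc, isUnit_C, isUnit_iff_ne_zero]
    rintro rfl
    rw [map_zero] at hc
    exact he0 hc.symm
  obtain ⟨s, hs⟩ := EuclideanDomain.gcd_dvd_left (toQ f) (toQ g)
  obtain ⟨t, ht⟩ := EuclideanDomain.gcd_dvd_right (toQ f) (toQ g)
  rw [← he] at hs ht
  obtain ⟨b, E, hb, hE⟩ := clear e
  obtain ⟨b₁, S, hb₁, hS⟩ := clear s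
  obtain ⟨b₂, T, hb₂, hT⟩ := clear t
  have h1 : C (b * b₁) * f = E * S := by
    apply toQ_inj
    have : toQ (C (b * b₁) * f) = C ((b : ℚ) * b₁) * toQ f := by
      rw [toQ, Polynomial.map_mul, map_C]
      simp
    rw [this, toQ_mul, hE, hS, hs, map_mul]
    ring
  have h2 : C (b * b₂) * g = E * T := by
    apply toQ_inj
    have : toQ (C (b * b₂) * g) = C ((b : ℚ) * b₂) * toQ g := by
      rw [toQ, Polynomial.map_mul, map_C]
      simp
    rw [this, toQ_mul, hE, hT, ht, map_mul]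
    ring
  have hEd : E.natDegree = e.natDegree := by
    have h3 : (toQ E).natDegree = E.natDegree :=
      natDegree_map_eq_of_injective (RingHom.injective_int _) E
    rw [← h3, hE]
    exact natDegree_C_mul (by exact_mod_cast hb)
  obtain ⟨N₀, hN₀⟩ := eval_lower E (by rintro rfl; simp at hEd; omega)
  refine ⟨|N₀| + 2 * |b * b₁ * (b * b₂)| + 1, fun n hn hcop => ?_⟩
  have hn1 : 1 ≤ |n| := by
    have := abs_nonneg N₀
    have := abs_nonneg (b * b₁ * (b * b₂))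
    omega
  have hlow := hN₀ n (by
    have := le_abs_self N₀
    have := abs_nonneg (b * b₁ * (b * b₂))
    omega)
  obtain ⟨u, v, huv⟩ := hcop
  have h1' := congrArg (eval n) h1
  have h2' := congrArg (eval n) h2
  simp only [eval_mul, eval_C] at h1' h2'
  have h3 : E.eval n ∣ b * b₁ * (b * b₂) := by
    refine ⟨u * S.eval n * (b * b₂) + v * T.eval n * (b * b₁), ?_⟩
    linear_combination (u * (b * b₂)) * h1' + (v * (b * b₁)) * h2' - (b * b₁ * (b * b₂)) * huv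
  have hne : b * b₁ * (b * b₂) ≠ 0 := by
    simp [hb, hb₁, hb₂]
  have h4 : |E.eval n| ≤ |b * b₁ * (b * b₂)| :=
    Int.le_of_dvd (abs_pos.2 hne) ((abs_dvd_abs _ _).2 h3)
  have h5 : |n| ≤ |n| ^ E.natDegree := le_self_pow₀ hn1 (by omega)
  have := abs_nonneg N₀
  omega

/-- value triples from bounded bases -/
lemma vals_fin (B : ℕ) : ∃ V : ℕ, ∀ (x y z p q r : ℕ) (e₁ e₂ e₃ : ℤ),
    SSol x y z p q r e₁ e₂ e₃ → x ≤ B → y ≤ B → z ≤ B → x ^ p ≤ V ∧ y ^ q ≤ V ∧ z ^ r ≤ V := by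
  obtain ⟨C, κ, hC⟩ := exps
  set M := C * (B + 2) ^ κ with hM
  refine ⟨(B + 1) ^ M, fun x y z p q r e₁ e₂ e₃ h hx hy hz => ?_⟩
  have hB : B ≤ 2 ^ (B + 2) := (Nat.lt_two_pow_self.le).trans (Nat.pow_le_pow_right (by norm_num) (by omega))
  obtain ⟨h1, h2, h3⟩ := hC (B + 2) (by omega) x y z p q r e₁ e₂ e₃ h (hx.trans hB) (hy.trans hB)
    (hz.trans hB)
  have key : ∀ w s : ℕ, 0 < w → w ≤ B → (2 ≤ w → s ≤ M) → w ^ s ≤ (B + 1) ^ M := by
    intro w s hw hwB hs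
    rcases Nat.lt_or_ge w 2 with h4 | h4
    · have : w = 1 := by omega
      rw [this, one_pow]
      exact Nat.one_le_pow _ _ (by omega)
    · calc w ^ s ≤ (B + 1) ^ s := Nat.pow_le_pow_left (by omega) _
        _ ≤ (B + 1) ^ M := Nat.pow_le_pow_right (by omega) (hs h4)
  exact ⟨key x p h.x0 hx h1, key y q h.y0 hy h2, key z r h.z0 hz h3⟩

/-- bounded exponents: only finitely many `n` -/
lemma fin_exp (f g h : ℤ[X]) (hf : 0 < f.natDegree) (hfg : IsCoprime (toQ f) (toQ g))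
    (hg : g ≠ 0) (hh : h ≠ 0) (M : ℕ) :
    {n : ℤ | ∃ (p q r : ℕ) (e₁ e₂ e₃ : ℤ), p ≤ M ∧ q ≤ M ∧ r ≤ M ∧ Hyp p q r ∧
      SSol (f.eval n).natAbs (g.eval n).natAbs (h.eval n).natAbs p q r e₁ e₂ e₃}.Finite := by
  set P : ℕ × ℕ × ℕ × ℤ × ℤ × ℤ → ℤ[X] := fun t =>
    C t.2.2.2.1 * f ^ t.1 + C t.2.2.2.2.1 * g ^ t.2.1 + C t.2.2.2.2.2 * h ^ t.2.2.1 with hP
  set I : Set (ℕ × ℕ × ℕ × ℤ × ℤ × ℤ) := {t | t.1 ≤ M ∧ t.2.1 ≤ M ∧ t.2.2.1 ≤ M ∧
    |t.2.2.2.1| ≤ 1 ∧ |t.2.2.2.2.1| ≤ 1 ∧ |t.2.2.2.2.2| ≤ 1} with hI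
  have hIfin : I.Finite := by
    have : I ⊆ (Set.Iic M) ×ˢ (Set.Iic M) ×ˢ (Set.Iic M) ×ˢ (Set.Icc (-1) 1) ×ˢ
        (Set.Icc (-1) 1) ×ˢ (Set.Icc (-1) 1) := by
      rintro ⟨p, q, r, a, b, c⟩ ⟨h1, h2, h3, h4, h5, h6⟩
      simp only at h1 h2 h3 h4 h5 h6
      simp only [Set.mem_prod, Set.mem_Iic, Set.mem_Icc]
      exact ⟨h1, h2, h3, abs_le.1 h4, abs_le.1 h5, abs_le.1 h6⟩
    exact ((Set.finite_Iic M).prod ((Set.finite_Iic M).prod ((Set.finite_Iic M).prod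
      ((Set.finite_Icc _ _).prod ((Set.finite_Icc _ _).prod (Set.finite_Icc _ _)))))).subset this
  refine (Set.Finite.biUnion (s := {t ∈ I | P t ≠ 0}) (hIfin.subset (fun t ht => ht.1))
    (t := fun t => {n : ℤ | (P t).IsRoot n}) (fun t ht => Polynomial.finite_setOfPred_isRoot ht.2)).subset ?_
  rintro n ⟨p, q, r, e₁, e₂, e₃, hp, hq, hr, hyp, hs⟩
  have key : ∀ (e a : ℤ) (k : ℕ), Sg e → ∃ e' : ℤ, Sg e' ∧ e * ((a.natAbs : ℕ) : ℤ) ^ k = e' * a ^ k := by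
    intro e a k he
    rcases Int.natAbs_eq a with h1 | h1
    · exact ⟨e, he, by rw [← h1]⟩
    · refine ⟨e * (-1) ^ k, he.mul ?_, ?_⟩
      · rcases neg_one_pow_eq_or ℤ k with h2 | h2 <;> rw [h2] <;> simp [Sg]
      · conv_rhs => rw [h1]
        rw [mul_assoc, ← mul_pow]
        simp
  obtain ⟨a₁, ha₁, h1⟩ := key e₁ (f.eval n) p hs.s1
  obtain ⟨a₂, ha₂, h2⟩ := key e₂ (g.eval n) q hs.s2
  obtain ⟨a₃, ha₃, h3⟩ := key e₃ (h.eval n) r hs.s3
  have heq := hs.eq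
  rw [h1, h2, h3] at heq
  have habs : ∀ {a : ℤ}, Sg a → |a| ≤ 1 := by
    rintro a (rfl | rfl) <;> simp
  simp only [Set.mem_iUnion]
  refine ⟨(p, q, r, a₁, a₂, a₃), ⟨⟨hp, hq, hr, habs ha₁, habs ha₂, habs ha₃⟩, ?_⟩, ?_⟩
  · intro h0
    have h4 : C (a₁ : ℚ) * (toQ f) ^ p + C (a₂ : ℚ) * (toQ g) ^ q + C (a₃ : ℚ) * (toQ h) ^ r = 0 := by
      have := congrArg toQ h0
      simp only [hP, toQ, Polynomial.map_add, Polynomial.map_mul, Polynomial.map_pow, map_C,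
        Polynomial.map_zero] at this
      exact this
    have hne : ∀ {u : ℤ[X]}, u ≠ 0 → toQ u ≠ 0 := fun {u} hu h0 =>
      hu (toQ_inj (by rw [h0]; simp [toQ]))
    have hp2 := hs.p2
    have hq2 := hs.q2
    have hr2 := hs.r2
    have hcast : ∀ {a : ℤ}, Sg a → (a : ℚ) ≠ 0 := fun {a} ha => by exact_mod_cast ha.ne
    have h5 := Polynomial.flt_catalan (k := ℚ) (p := p) (q := q) (r := r) (by omega) (by omega)
      (by omega) hyp.le (by exact_mod_cast (by omega : p ≠ 0)) (by exact_mod_cast (by omega : q ≠ 0))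
      (by exact_mod_cast (by omega : r ≠ 0)) (a := toQ f) (b := toQ g) (c := toQ h)
      (hne (by rintro rfl; simp at hf)) (hne hg) (hne hh) hfg (hcast ha₁) (hcast ha₂) (hcast ha₃) h4
    have h6 : (toQ f).natDegree = f.natDegree :=
      natDegree_map_eq_of_injective (RingHom.injective_int _) f
    omega
  · change (P (p, q, r, a₁, a₂, a₃)).eval n = 0
    simp only [hP, eval_add, eval_mul, eval_C, eval_pow]
    exact heq

end Pool.Agent.R477.FC
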