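import Mathlib
import Pool.Agent.R477.FC.Exp

/-!
# Elementary inequalities
-/

set_option autoImplicit false

namespace Pool.Agent.R477.FC

lemma pow_gap {A B t : ℕ} (h : B < A) (ht : 0 < t) : A ^ (t - 1) + B ^ t ≤ A ^ t := by
  obtain ⟨s, rfl⟩ : ∃ s, t = s + 1 := ⟨t - 1, by omega⟩
  rw [Nat.add_sub_cancel, pow_succ, pow_succ]
  have h1 : B ^ s ≤ A ^ s := Nat.pow_le_pow_left h.le s
  have h2 : B ^ s * B ≤ A ^ s * B := Nat.mul_le_mul_right _ h1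
  have h3 : A ^ s * (B + 1) ≤ A ^ s * A := Nat.mul_le_mul_left _ h
  nlinarith

lemma bern1 {N A r : ℕ} (hN : 0 < N) (hA : A ≤ N) (h : 2 * r * A ≤ N) :
    N ^ r ≤ 2 * (N - A) ^ r := by
  have hN' : (0 : ℝ) < N := by exact_mod_cast hN
  have h1 : (1 : ℝ) + (r : ℝ) * (-(A / N : ℝ)) ≤ (1 + (-(A / N : ℝ))) ^ r := by
    apply one_add_mul_le_pow
    have : (A : ℝ) / N ≤ 1 := by
      rw [div_le_one hN']
      exact_mod_cast hA
    linarith
  have h2 : (r : ℝ) * (A / N : ℝ) ≤ 1 / 2 := by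
    rw [← mul_div_assoc, div_le_iff₀ hN']
    have : (2 : ℝ) * r * A ≤ N := by exact_mod_cast h
    linarith
  have h3 : (1 : ℝ) / 2 ≤ (1 + (-(A / N : ℝ))) ^ r := by linarith
  have h4 : (N : ℝ) ^ r * (1 + (-(A / N : ℝ))) ^ r = ((N - A : ℕ) : ℝ) ^ r := by
    rw [← mul_pow, Nat.cast_sub hA]
    congr 1
    field_simp
    ring
  have h5 : (N : ℝ) ^ r ≤ 2 * ((N - A : ℕ) : ℝ) ^ r := by
    rw [← h4]
    nlinarith [pow_pos hN' r]
  exact_mod_cast h5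

lemma bern2 {N A r : ℕ} (hN : 0 < N) (hA : A ≤ N) (h : 2 * r * A ≤ N) :
    (N + A) ^ r ≤ 2 * N ^ r := by
  have h1 := bern1 hN hA h
  have h2 : (N + A) ^ r * (N - A) ^ r ≤ N ^ r * N ^ r := by
    rw [← mul_pow, ← mul_pow]
    apply Nat.pow_le_pow_left
    obtain ⟨k, rfl⟩ := Nat.exists_eq_add_of_le hA
    rw [Nat.add_sub_cancel_left]
    nlinarith
  have h3 : (N + A) ^ r * N ^ r ≤ (2 * N ^ r) * N ^ r := by
    calc (N + A) ^ r * N ^ r ≤ (N + A) ^ r * (2 * (N - A) ^ r) := Nat.mul_le_mul_left _ h1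
      _ = 2 * ((N + A) ^ r * (N - A) ^ r) := by ring
      _ ≤ 2 * (N ^ r * N ^ r) := Nat.mul_le_mul_left _ h2
      _ = _ := by ring
  exact Nat.le_of_mul_le_mul_right h3 (by positivity)

/-- the triangle inequalities in a signed solution -/
lemma SSol.tri {x y z p q r : ℕ} {e₁ e₂ e₃ : ℤ} (h : SSol x y z p q r e₁ e₂ e₃) :
    x ^ p ≤ y ^ q + z ^ r ∧ y ^ q ≤ x ^ p + z ^ r ∧ z ^ r ≤ x ^ p + y ^ q := by
  have h0 := h.eq
  have key : (x : ℤ) ^ p ≤ (y : ℤ) ^ q + (z : ℤ) ^ r ∧ (y : ℤ) ^ q ≤ (x : ℤ) ^ p + (z : ℤ) ^ r ∧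
      (z : ℤ) ^ r ≤ (x : ℤ) ^ p + (y : ℤ) ^ q := by
    have hx : (0 : ℤ) ≤ (x : ℤ) ^ p := by positivity
    have hy : (0 : ℤ) ≤ (y : ℤ) ^ q := by positivity
    have hz : (0 : ℤ) ≤ (z : ℤ) ^ r := by positivity
    rcases h.s1 with h1 | h1 <;> rcases h.s2 with h2 | h2 <;> rcases h.s3 with h3 | h3 <;>
      rw [h1, h2, h3] at h0 <;> refine ⟨?_, ?_, ?_⟩ <;> linarith
  exact_mod_cast key

lemma sq_ge {N A : ℕ} (hN : 4 ≤ N) (h : N ≤ 2 * A) : N ≤ A ^ 2 := by nlinarith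

lemma exp_le_of_pow {N A t c : ℕ} (hN : 4 ≤ N) (h : N ≤ 2 * A) (h1 : A ^ t ≤ N ^ c) :
    t ≤ 2 * c := by
  have h2 : N ^ t ≤ N ^ (2 * c) := by
    calc N ^ t ≤ (A ^ 2) ^ t := Nat.pow_le_pow_left (sq_ge hN h) t
      _ = (A ^ t) ^ 2 := by rw [← pow_mul, ← pow_mul, mul_comm]
      _ ≤ (N ^ c) ^ 2 := Nat.pow_le_pow_left h1 2
      _ = N ^ (2 * c) := by rw [← pow_mul, mul_comm]
  exact (Nat.pow_le_pow_iff_right (by omega)).1 h2

/-- if the third term is at most `N ^ c` and the exponents of the two other terms have a given ratio,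
then these exponents are bounded -/
lemma ratio_bd {F V U N c p q r r₁ q₁ : ℕ} {e₁ e₂ e₃ : ℤ} (hs : SSol F V U p q r e₁ e₂ e₃)
    (hN : 4 ≤ N) (hU : N ≤ 2 * U) (hV : N ≤ 2 * V) (hF : F ^ p ≤ N ^ c)
    (h : r * q₁ = q * r₁) (hr₁ : 0 < r₁) (hq₁ : 0 < q₁) :
    q ≤ (2 * c + 1) * q₁ ∧ r ≤ (2 * c + 1) * r₁ := by
  have hr := hs.r2
  have hq := hs.q2
  have hg : 0 < Nat.gcd r q := Nat.gcd_pos_of_pos_left _ (by omega)
  obtain ⟨r', q', hcop, hr', hq'⟩ := Nat.exists_coprime r q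
  set t := Nat.gcd r q with ht
  have hr'0 : 0 < r' := Nat.pos_of_ne_zero (by rintro rfl; simp at hr'; omega)
  have hq'0 : 0 < q' := Nat.pos_of_ne_zero (by rintro rfl; simp at hq'; omega)
  have h1 : r' * q₁ = q' * r₁ := by
    rw [hr', hq'] at h
    have : t * (r' * q₁) = t * (q' * r₁) := by linarith
    exact Nat.eq_of_mul_eq_mul_left hg this
  have h2 : r' ∣ r₁ := hcop.dvd_of_dvd_mul_left ⟨q₁, h1.symm⟩
  have h3 : q' ∣ q₁ := hcop.symm.dvd_of_dvd_mul_left ⟨r₁, h1⟩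
  have h4 := Nat.le_of_dvd hr₁ h2
  have h5 := Nat.le_of_dvd hq₁ h3
  have hA : (U ^ r') ^ t = U ^ r := by rw [← pow_mul, ← hr']
  have hB : (V ^ q') ^ t = V ^ q := by rw [← pow_mul, ← hq']
  have hU2 : 2 ≤ U := by omega
  have hV2 : 2 ≤ V := by omega
  have hUA : U ≤ U ^ r' := Nat.le_self_pow (by omega) U
  have hVB : V ≤ V ^ q' := Nat.le_self_pow (by omega) V
  have hne : U ^ r' ≠ V ^ q' := by
    intro h6
    have h7 : Nat.Coprime (V ^ q') (U ^ r') := (hs.yz.pow_left _).pow_right _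
    rw [← h6, Nat.coprime_self] at h7
    omega
  obtain ⟨-, t2, t3⟩ := hs.tri
  have ht2 : t - 1 ≤ 2 * c := by
    rcases lt_or_gt_of_ne hne with h6 | h6
    · have h7 := pow_gap h6 hg
      rw [hA, hB] at h7
      exact exp_le_of_pow hN (hV.trans (by omega)) (A := V ^ q') (by omega)
    · have h7 := pow_gap h6 hg
      rw [hA, hB] at h7
      exact exp_le_of_pow hN (hU.trans (by omega)) (A := U ^ r') (by omega)
  have ht3 : t ≤ 2 * c + 1 := by omega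
  constructor
  · rw [hq', mul_comm]
    exact Nat.mul_le_mul ht3 h5
  · rw [hr', mul_comm]
    exact Nat.mul_le_mul ht3 h4

/-- powers of numbers near `N ^ a` and `N ^ b` -/
lemma near_pow {U V N A a b c r q : ℕ} (hN : 8 ≤ N) (ha : 0 < a) (hb : 0 < b) (hA : A ≤ N)
    (hU : N ^ a ≤ U + A * N ^ (a - 1)) (hV : V ≤ N ^ b + A * N ^ (b - 1))
    (hr : 2 * r * A ≤ N) (hq : 2 * q * A ≤ N) (h : U ^ r ≤ V ^ q + N ^ c)
    (hab : q * b < r * a) : r * a ≤ c + 1 := by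
  have h1 : N ^ (a - 1) * (N - A) ≤ U := by
    obtain ⟨j, rfl⟩ : ∃ j, a = j + 1 := ⟨a - 1, by omega⟩
    rw [Nat.add_sub_cancel] at hU ⊢
    rw [pow_succ] at hU
    rw [Nat.mul_sub]
    have : A * N ^ j = N ^ j * A := mul_comm _ _
    omega
  have h2 : V ≤ N ^ (b - 1) * (N + A) := by
    obtain ⟨j, rfl⟩ : ∃ j, b = j + 1 := ⟨b - 1, by omega⟩
    rw [Nat.add_sub_cancel] at hV ⊢
    rw [pow_succ] at hV
    nlinarith
  have h3 : N ^ (r * a) ≤ 2 * U ^ r := by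
    calc N ^ (r * a) = (N ^ (a - 1)) ^ r * N ^ r := by
          rw [← pow_mul, ← pow_add]
          congr 1
          obtain ⟨j, rfl⟩ : ∃ j, a = j + 1 := ⟨a - 1, by omega⟩
          rw [Nat.add_sub_cancel]
          ring
      _ ≤ (N ^ (a - 1)) ^ r * (2 * (N - A) ^ r) :=
          Nat.mul_le_mul_left _ (bern1 (by omega) hA hr)
      _ = 2 * (N ^ (a - 1) * (N - A)) ^ r := by rw [mul_pow]; ring
      _ ≤ 2 * U ^ r := Nat.mul_le_mul_left _ (Nat.pow_le_pow_left h1 r)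
  have h4 : V ^ q ≤ 2 * N ^ (q * b) := by
    calc V ^ q ≤ (N ^ (b - 1) * (N + A)) ^ q := Nat.pow_le_pow_left h2 q
      _ = (N ^ (b - 1)) ^ q * (N + A) ^ q := mul_pow _ _ _
      _ ≤ (N ^ (b - 1)) ^ q * (2 * N ^ q) := Nat.mul_le_mul_left _ (bern2 (by omega) hA hq)
      _ = 2 * N ^ (q * b) := by
          have : N ^ (q * b) = (N ^ (b - 1)) ^ q * N ^ q := by
            rw [← pow_mul, ← pow_add]
            congr 1
            obtain ⟨j, rfl⟩ : ∃ j, b = j + 1 := ⟨b - 1, by omega⟩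
            rw [Nat.add_sub_cancel]
            ring
          rw [this]
          ring
  have h5 : N ^ (q * b) * 8 ≤ N ^ (r * a) := by
    calc N ^ (q * b) * 8 ≤ N ^ (q * b) * N := Nat.mul_le_mul_left _ hN
      _ = N ^ (q * b + 1) := (pow_succ _ _).symm
      _ ≤ N ^ (r * a) := Nat.pow_le_pow_right (by omega) hab
  have h6 : N ^ (r * a) ≤ 4 * N ^ c := by omega
  have h7 : N ^ (r * a) ≤ N ^ (c + 1) := by
    rw [pow_succ]
    calc N ^ (r * a) ≤ 4 * N ^ c := h6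
      _ ≤ N ^ c * N := by rw [mul_comm]; exact Nat.mul_le_mul_left _ (by omega)
  exact (Nat.pow_le_pow_iff_right (by omega)).1 h7

end Pool.Agent.R477.FC
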