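import Mathlib
import Pool.Agent.R477.FC.Fam
import Pool.Agent.R477.FC.Num

/-!
# Bounds for the exponents of solutions with bases in a polynomial family
-/

set_option autoImplicit false

namespace Pool.Agent.R477.FC

open Polynomial

lemma natAbs_cast_abs (a : ℤ) : ((a.natAbs : ℕ) : ℤ) = |a| := (Int.abs_eq_natAbs a).symm

/-- size of the values, natural number form -/
lemma val_size (f : ℤ[X]) (hf : 0 < f.natDegree) : ∃ N₀ : ℕ, ∀ n : ℤ, N₀ ≤ n.natAbs →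
    n.natAbs ≤ 2 * (f.eval n).natAbs ∧ (f.eval n).natAbs ≤ n.natAbs ^ (f.natDegree + 1) := by
  obtain ⟨N₁, h1⟩ := eval_lower f (by rintro rfl; simp at hf)
  obtain ⟨N₂, h2⟩ := eval_upper f
  refine ⟨N₁.natAbs + N₂.natAbs + 1, fun n hn => ?_⟩
  have hab : |n| = (n.natAbs : ℤ) := Int.abs_eq_natAbs n
  have hn1 : N₁ ≤ |n| := by omega
  have hn2 : N₂ ≤ |n| := by omega
  have h3 := h1 n hn1
  have h4 := h2 n hn2
  have h5 : |n| ≤ |n| ^ f.natDegree := le_self_pow₀ (by omega) (by omega)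
  constructor
  · zify
    omega
  · zify
    exact h4

/-- the exponents are small in comparison with `n` -/
lemma exps_n (f g h : ℤ[X]) (hf : 0 < f.natDegree) (hg : 0 < g.natDegree) (hh : 0 < h.natDegree)
    (K k : ℕ) : ∃ N₀ : ℕ, ∀ n : ℤ, N₀ ≤ n.natAbs → ∀ (p q r : ℕ) (e₁ e₂ e₃ : ℤ),
      SSol (f.eval n).natAbs (g.eval n).natAbs (h.eval n).natAbs p q r e₁ e₂ e₃ →
      ∃ L : ℕ, 1 ≤ L ∧ p ≤ L ∧ q ≤ L ∧ r ≤ L ∧ K * (L ^ k + 1) ≤ n.natAbs := by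
  obtain ⟨C, κ, hC⟩ := exps
  obtain ⟨N₁, h1⟩ := val_size f hf
  obtain ⟨N₂, h2⟩ := val_size g hg
  obtain ⟨N₃, h3⟩ := val_size h hh
  set D := f.natDegree + g.natDegree + h.natDegree + 1 with hD
  set C' := C * D ^ κ + 1 with hC'
  set K' := K + 1 with hK'
  obtain ⟨S₀, hS₀⟩ := polylog_lt (4 * K' * C') κ (k + 1)
  refine ⟨N₁ + N₂ + N₃ + 2 ^ S₀ + 4, fun n hn p q r e₁ e₂ e₃ hs => ?_⟩
  set N := n.natAbs with hN
  have h2S : 0 < 2 ^ S₀ := by positivity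
  obtain ⟨a1, a2⟩ := h1 n (by omega)
  obtain ⟨b1, b2⟩ := h2 n (by omega)
  obtain ⟨c1, c2⟩ := h3 n (by omega)
  rw [← hN] at a1 a2 b1 b2 c1 c2
  set s := Nat.log 2 N + 1 with hs'
  have hNs : N < 2 ^ s := Nat.lt_pow_succ_log_self (by norm_num) N
  have hsN : 2 ^ s ≤ 2 * N := by
    rw [hs', pow_succ, mul_comm]
    exact Nat.mul_le_mul_left _ (Nat.pow_log_le_self 2 (by omega))
  have hsS : S₀ ≤ s := by
    by_contra hcon
    have h4 : 2 ^ s ≤ 2 ^ S₀ := Nat.pow_le_pow_right (by norm_num) (by omega)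
    omega
  have hs2 : 2 ≤ s := by
    by_contra hcon
    have h4 : 2 ^ s ≤ 2 ^ 1 := Nat.pow_le_pow_right (by norm_num) (by omega)
    rw [pow_one] at h4
    omega
  have hup : ∀ {u e : ℕ}, u ≤ N ^ (e + 1) → e + 1 ≤ D → u ≤ 2 ^ (D * s) := by
    intro u e hu he
    calc u ≤ N ^ (e + 1) := hu
      _ ≤ N ^ D := Nat.pow_le_pow_right (by omega) he
      _ ≤ (2 ^ s) ^ D := Nat.pow_le_pow_left hNs.le D
      _ = 2 ^ (D * s) := by rw [← pow_mul, mul_comm]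
  have hDs : 2 ≤ D * s := by
    calc 2 ≤ 1 * s := by omega
      _ ≤ D * s := Nat.mul_le_mul_right _ (by omega)
  obtain ⟨d1, d2, d3⟩ := hC (D * s) hDs _ _ _ p q r e₁ e₂ e₃ hs (hup a2 (by omega))
    (hup b2 (by omega)) (hup c2 (by omega))
  have hL : C * (D * s) ^ κ ≤ C' * s ^ κ := by
    rw [mul_pow, hC']
    have : C * (D ^ κ * s ^ κ) = (C * D ^ κ) * s ^ κ := by ring
    rw [this]
    exact Nat.mul_le_mul_right _ (by omega)
  have hs1 : 1 ≤ s ^ κ := Nat.one_le_pow _ _ (by omega)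
  refine ⟨C' * s ^ κ, ?_, (d1 (by omega)).trans hL, (d2 (by omega)).trans hL,
    (d3 (by omega)).trans hL, ?_⟩
  · calc 1 = 1 * 1 := rfl
      _ ≤ C' * s ^ κ := Nat.mul_le_mul (by omega) hs1
  · have h4 := hS₀ s hsS
    set L := C' * s ^ κ with hL'
    have hL1 : 1 ≤ L := by
      calc 1 = 1 * 1 := rfl
        _ ≤ C' * s ^ κ := Nat.mul_le_mul (by omega) hs1
    have h5 : 4 * K' * L ^ k ≤ (4 * K' * C' * s ^ κ) ^ (k + 1) := by
      have h6 : 4 * K' * C' * s ^ κ = 4 * K' * L := by rw [hL']; ring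
      rw [h6, pow_succ]
      calc 4 * K' * L ^ k = L ^ k * (4 * K') := by ring
        _ ≤ (4 * K' * L) ^ k * (4 * K' * L) := by
            apply Nat.mul_le_mul
            · exact Nat.pow_le_pow_left (Nat.le_mul_of_pos_left _ (by omega)) k
            · exact Nat.le_mul_of_pos_right _ hL1
    have h6 : 1 ≤ L ^ k := Nat.one_le_pow _ _ hL1
    have h7 : K * (L ^ k + 1) ≤ 2 * K' * L ^ k := by nlinarith
    nlinarith

lemma dvd_of_sol {a b c : ℤ} {p q r : ℕ} {e₁ e₂ e₃ : ℤ}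
    (h : SSol a.natAbs b.natAbs c.natAbs p q r e₁ e₂ e₃) (m : ℕ) :
    a ^ p ∣ c ^ (2 * m * r) - b ^ (2 * m * q) := by
  have h1 := h.eq
  have ha : a ^ p ∣ ((a.natAbs : ℕ) : ℤ) ^ p := pow_dvd_pow_of_dvd (Int.dvd_natAbs.2 dvd_rfl) p
  have h2 : a ^ p ∣ (e₃ * ((c.natAbs : ℕ) : ℤ) ^ r) ^ 2 - (e₂ * ((b.natAbs : ℕ) : ℤ) ^ q) ^ 2 := by
    have h3 : (e₃ * ((c.natAbs : ℕ) : ℤ) ^ r) ^ 2 - (e₂ * ((b.natAbs : ℕ) : ℤ) ^ q) ^ 2 =
        ((a.natAbs : ℕ) : ℤ) ^ p * (-e₁ * (e₃ * ((c.natAbs : ℕ) : ℤ) ^ r - e₂ * ((b.natAbs : ℕ) : ℤ) ^ q)) := by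
      linear_combination (e₃ * ((c.natAbs : ℕ) : ℤ) ^ r - e₂ * ((b.natAbs : ℕ) : ℤ) ^ q) * h1
    rw [h3]
    exact Dvd.dvd.mul_right ha _
  have hc : ∀ (x : ℤ) (k : ℕ) (e : ℤ), Sg e → (e * ((x.natAbs : ℕ) : ℤ) ^ k) ^ 2 = x ^ (2 * k) := by
    intro x k e he
    have h4 : e ^ 2 = 1 := by rw [sq]; exact he.sq
    rw [mul_pow, h4, one_mul, ← pow_mul, mul_comm k 2, pow_mul, Int.natAbs_sq, ← pow_mul]
  rw [hc c r e₃ h.s3, hc b q e₂ h.s2] at h2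
  have h5 := sub_dvd_pow_sub_pow (c ^ (2 * r)) (b ^ (2 * q)) m
  have h6 := h2.trans h5
  rw [← pow_mul, ← pow_mul] at h6
  have e1 : 2 * r * m = 2 * m * r := by ring
  have e2 : 2 * q * m = 2 * m * q := by ring
  rwa [e1, e2] at h6

/-- hypotheses on the polynomials: `d ∣ f` and `g`, `h` are roots of unity modulo `d` -/
structure Fam (d f g h : ℤ[X]) (m : ℕ) : Prop where
  d0 : 0 < d.natDegree
  f0 : 0 < f.natDegree
  g0 : 0 < g.natDegree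
  h0 : 0 < h.natDegree
  m0 : 0 < m
  df : d ∣ f
  dg : d ∣ g ^ m - 1
  dh : d ∣ h ^ m - 1
  gh : IsCoprime (toQ g) (toQ h)

lemma toQ_natDegree (f : ℤ[X]) : (toQ f).natDegree = f.natDegree :=
  natDegree_map_eq_of_injective (RingHom.injective_int _) f

lemma toQ_derivative (f : ℤ[X]) : derivative (toQ f) = toQ (derivative f) := by
  rw [toQ, toQ, derivative_map]

lemma cop_of_unit {d g : ℤ[X]} {m : ℕ} (hm : 0 < m) (h : d ∣ g ^ m - 1) :
    IsCoprime (toQ d) (toQ g) := by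
  obtain ⟨s, hs⟩ := h
  refine ⟨-toQ s, (toQ g) ^ (m - 1), ?_⟩
  have h1 : toQ g ^ (m - 1) * toQ g = toQ (g ^ m) := by
    rw [← pow_succ, Nat.sub_add_cancel hm, toQ, toQ, Polynomial.map_pow]
  have h2 : g ^ m = 1 + d * s := by rw [← hs]; ring
  rw [h1, h2, toQ, toQ, toQ, Polynomial.map_add, Polynomial.map_mul, Polynomial.map_one]
  ring

/-- the congruence of polynomials which follows from a solution -/
lemma Fam.cong {d f g h : ℤ[X]} {m : ℕ} (H : Fam d f g h m) (k : ℕ) :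
    ∃ N₀ : ℕ, ∀ n : ℤ, N₀ ≤ n.natAbs → ∀ (p q r : ℕ) (e₁ e₂ e₃ : ℤ),
      SSol (f.eval n).natAbs (g.eval n).natAbs (h.eval n).natAbs p q r e₁ e₂ e₃ → k + 1 ≤ p →
      (toQ d) ^ k ∣ C (r : ℚ) * derivative (toQ h) * toQ g - C (q : ℚ) * derivative (toQ g) * toQ h := by
  have hdg : d ∣ g ^ (2 * m) - 1 := by
    refine H.dg.trans ⟨g ^ m + 1, ?_⟩
    ring
  have hdh : d ∣ h ^ (2 * m) - 1 := by
    refine H.dh.trans ⟨h ^ m + 1, ?_⟩
    ring
  obtain ⟨K, hK0, hK⟩ := cong_lift d g h (2 * m) k H.d0 hdg hdh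
  obtain ⟨N₀, hN₀⟩ := exps_n f g h H.f0 H.g0 H.h0 K.natAbs k
  refine ⟨N₀, fun n hn p q r e₁ e₂ e₃ hs hp => ?_⟩
  obtain ⟨L, hL1, hpL, hqL, hrL, hLn⟩ := hN₀ n hn p q r e₁ e₂ e₃ hs
  have h1 : (d.eval n) ^ (k + 1) ∣ (h.eval n) ^ (2 * m * r) - (g.eval n) ^ (2 * m * q) := by
    refine dvd_trans ?_ (dvd_of_sol hs m)
    have h2 : d.eval n ∣ f.eval n := eval_dvd H.df
    exact (pow_dvd_pow_of_dvd h2 _).trans (pow_dvd_pow _ hp)
  have h2 := hK L n r q (by exact_mod_cast hL1) (by exact_mod_cast hrL) (by exact_mod_cast hqL)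
    (by
      rw [← natAbs_cast_abs]
      have : K = (K.natAbs : ℤ) := by omega
      rw [this]
      exact_mod_cast hLn) h1
  exact wron _ _ _ (cop_of_unit H.m0 H.dg) r q (2 * m) k (by have := H.m0; omega)
    (by have := hs.r2; omega) (by have := hs.q2; omega) h2

/-- the exponent of `f(n)` is bounded -/
lemma Fam.p_le {d f g h : ℤ[X]} {m : ℕ} (H : Fam d f g h m) :
    ∃ N₀ : ℕ, ∀ n : ℤ, N₀ ≤ n.natAbs → ∀ (p q r : ℕ) (e₁ e₂ e₃ : ℤ),
      SSol (f.eval n).natAbs (g.eval n).natAbs (h.eval n).natAbs p q r e₁ e₂ e₃ →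
      p ≤ g.natDegree + h.natDegree := by
  obtain ⟨N₀, hN₀⟩ := H.cong (g.natDegree + h.natDegree)
  refine ⟨N₀, fun n hn p q r e₁ e₂ e₃ hs => ?_⟩
  by_contra hcon
  have h1 := hN₀ n hn p q r e₁ e₂ e₃ hs (by omega)
  have h2 := wron_ne (toQ g) (toQ h) H.gh (by rw [toQ_natDegree]; exact H.g0) r q
    (by have := hs.q2; omega)
  have h3 := natDegree_le_of_dvd h1 h2
  have h4 := wron_natDegree_lt (toQ g) (toQ h) (by rw [toQ_natDegree]; exact H.g0)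
    (by rw [toQ_natDegree]; exact H.h0) r q
  rw [natDegree_pow, toQ_natDegree] at h3
  rw [toQ_natDegree, toQ_natDegree] at h4
  have h5 : (g.natDegree + h.natDegree) * 1 ≤ (g.natDegree + h.natDegree) * d.natDegree :=
    Nat.mul_le_mul_left _ H.d0
  omega

/-- If `d ^ k` does not divide both `g'` and `h'`, then the ratio of the exponents of `g(n)` and `h(n)` is
determined in the solutions with `p > k`. -/
lemma Fam.ratio {d f g h : ℤ[X]} {m : ℕ} (H : Fam d f g h m) (k : ℕ)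
    (hd : ¬ (toQ d ^ k ∣ toQ (derivative g) ∧ toQ d ^ k ∣ toQ (derivative h))) :
    ∃ N₀ r₁ q₁ : ℕ, 0 < r₁ ∧ 0 < q₁ ∧ ∀ n : ℤ, N₀ ≤ n.natAbs → ∀ (p q r : ℕ) (e₁ e₂ e₃ : ℤ),
      SSol (f.eval n).natAbs (g.eval n).natAbs (h.eval n).natAbs p q r e₁ e₂ e₃ → k + 1 ≤ p →
      r * q₁ = q * r₁ := by
  obtain ⟨N₀, hN₀⟩ := H.cong k
  by_cases hex : ∃ r₁ q₁ : ℕ, 0 < r₁ ∧ 0 < q₁ ∧
      toQ d ^ k ∣ C (r₁ : ℚ) * derivative (toQ h) * toQ g - C (q₁ : ℚ) * derivative (toQ g) * toQ h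
  · obtain ⟨r₁, q₁, hr₁, hq₁, h1⟩ := hex
    refine ⟨N₀, r₁, q₁, hr₁, hq₁, fun n hn p q r e₁ e₂ e₃ hs hkp => ?_⟩
    have h2 := hN₀ n hn p q r e₁ e₂ e₃ hs hkp
    by_contra hne
    have hne' : ((r : ℚ) * q₁ - q * r₁) ≠ 0 := by
      intro h3
      apply hne
      have : (r : ℚ) * q₁ = q * r₁ := by linarith
      exact_mod_cast this
    have hu : IsUnit (C ((r : ℚ) * q₁ - q * r₁)) := isUnit_C.2 (isUnit_iff_ne_zero.2 hne')
    have hcg : IsCoprime (toQ d ^ k) (toQ g) := (cop_of_unit H.m0 H.dg).pow_left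
    have hch : IsCoprime (toQ d ^ k) (toQ h) := (cop_of_unit H.m0 H.dh).pow_left
    apply hd
    constructor
    · have h3 : toQ d ^ k ∣ C ((r : ℚ) * q₁ - q * r₁) * (toQ h * derivative (toQ g)) := by
        have h4 := dvd_sub (Dvd.dvd.mul_left h1 (C (r : ℚ))) (Dvd.dvd.mul_left h2 (C (r₁ : ℚ)))
        have h5 := (dvd_neg (α := ℚ[X])).2 h4
        convert h5 using 1
        simp only [map_sub, map_mul]
        ring
      have h4 := (IsUnit.dvd_mul_left hu).1 h3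
      rw [← toQ_derivative]
      exact hch.dvd_of_dvd_mul_left h4
    · have h3 : toQ d ^ k ∣ C ((r : ℚ) * q₁ - q * r₁) * (toQ g * derivative (toQ h)) := by
        have h4 := dvd_sub (Dvd.dvd.mul_left h2 (C (q₁ : ℚ))) (Dvd.dvd.mul_left h1 (C (q : ℚ)))
        convert h4 using 1
        simp only [map_sub, map_mul]
        ring
      have h4 := (IsUnit.dvd_mul_left hu).1 h3
      rw [← toQ_derivative]
      exact hcg.dvd_of_dvd_mul_left h4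
  · refine ⟨N₀, 1, 1, one_pos, one_pos, fun n hn p q r e₁ e₂ e₃ hs hkp => ?_⟩
    exfalso
    apply hex
    have h2 := hN₀ n hn p q r e₁ e₂ e₃ hs hkp
    exact ⟨r, q, by have := hs.r2; omega, by have := hs.q2; omega, h2⟩

/-- polynomials with leading coefficients `± 1` -/
lemma lc_near (g : ℤ[X]) (hg : |g.leadingCoeff| = 1) : ∃ A : ℕ, ∀ n : ℤ, 1 ≤ n.natAbs →
    n.natAbs ^ g.natDegree ≤ (g.eval n).natAbs + A * n.natAbs ^ (g.natDegree - 1) ∧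
    (g.eval n).natAbs ≤ n.natAbs ^ g.natDegree + A * n.natAbs ^ (g.natDegree - 1) := by
  obtain ⟨A, hA0, hA⟩ := eval_lead g
  refine ⟨A.natAbs, fun n hn => ?_⟩
  have h1 := hA n (by rw [Int.abs_eq_natAbs]; exact_mod_cast hn)
  have h2 := abs_sub_abs_le_abs_sub (g.eval n) (g.leadingCoeff * n ^ g.natDegree)
  have h3 := abs_sub_abs_le_abs_sub (g.leadingCoeff * n ^ g.natDegree) (g.eval n)
  rw [abs_sub_comm] at h3
  have h4 : |g.leadingCoeff * n ^ g.natDegree| = |n| ^ g.natDegree := by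
    rw [abs_mul, hg, one_mul, abs_pow]
  rw [h4] at h2 h3
  have hAA : (A.natAbs : ℤ) = A := by omega
  constructor
  · zify
    rw [abs_of_nonneg hA0]
    linarith
  · zify
    rw [abs_of_nonneg hA0]
    linarith

end Pool.Agent.R477.FC
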