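import Mathlib
import Pool.Agent.R477.FC.Bound

/-!
# Finiteness for polynomial families with unit specialisation
-/

set_option autoImplicit false

namespace Pool.Agent.R477.FC

open Polynomial

/-- all exponents are bounded -/
theorem Fam.bounded {d f g h : ℤ[X]} {m : ℕ} (H : Fam d f g h m) :
    ∃ N₀ M : ℕ, ∀ n : ℤ, N₀ ≤ n.natAbs → ∀ (p q r : ℕ) (e₁ e₂ e₃ : ℤ),
      SSol (f.eval n).natAbs (g.eval n).natAbs (h.eval n).natAbs p q r e₁ e₂ e₃ →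
      (e₂ = e₃ ∨ ¬ (toQ d ^ (p - 1) ∣ toQ (derivative g) ∧ toQ d ^ (p - 1) ∣ toQ (derivative h)) ∨
        (|g.leadingCoeff| = 1 ∧ |h.leadingCoeff| = 1)) →
      p ≤ M ∧ q ≤ M ∧ r ≤ M := by
  obtain ⟨N₁, hN₁⟩ := H.p_le
  obtain ⟨N₂, hN₂⟩ := val_size f H.f0
  obtain ⟨N₃, hN₃⟩ := val_size g H.g0
  obtain ⟨N₄, hN₄⟩ := val_size h H.h0
  set P₀ := g.natDegree + h.natDegree with hP₀
  set c := (f.natDegree + 1) * P₀ with hc
  have hfc : ∀ n : ℤ, N₁ + N₂ + N₃ + N₄ + 8 ≤ n.natAbs → ∀ (p q r : ℕ) (e₁ e₂ e₃ : ℤ),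
      SSol (f.eval n).natAbs (g.eval n).natAbs (h.eval n).natAbs p q r e₁ e₂ e₃ →
      (f.eval n).natAbs ^ p ≤ n.natAbs ^ c := by
    intro n hn p q r e₁ e₂ e₃ hs
    have hp := hN₁ n (by omega) p q r e₁ e₂ e₃ hs
    obtain ⟨h1, h2⟩ := hN₂ n (by omega)
    calc (f.eval n).natAbs ^ p ≤ (n.natAbs ^ (f.natDegree + 1)) ^ p := Nat.pow_le_pow_left h2 p
      _ = n.natAbs ^ ((f.natDegree + 1) * p) := by rw [← pow_mul]
      _ ≤ n.natAbs ^ c := Nat.pow_le_pow_right (by omega) (Nat.mul_le_mul_left _ hp)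
  -- the four cases
  have hb : ∃ M₂ : ℕ, ∀ n : ℤ, N₁ + N₂ + N₃ + N₄ + 8 ≤ n.natAbs → ∀ (p q r : ℕ) (e₁ e₂ e₃ : ℤ),
      SSol (f.eval n).natAbs (g.eval n).natAbs (h.eval n).natAbs p q r e₁ e₂ e₃ → e₂ = e₃ →
      q ≤ M₂ ∧ r ≤ M₂ := by
    refine ⟨2 * c, fun n hn p q r e₁ e₂ e₃ hs he => ?_⟩
    have h1 := hfc n hn p q r e₁ e₂ e₃ hs
    obtain ⟨g1, g2⟩ := hN₃ n (by omega)
    obtain ⟨k1, k2⟩ := hN₄ n (by omega)
    have h2 : (g.eval n).natAbs ^ q + (h.eval n).natAbs ^ r ≤ (f.eval n).natAbs ^ p := by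
      have h3 := hs.eq
      subst he
      have key : (((g.eval n).natAbs : ℕ) : ℤ) ^ q + (((h.eval n).natAbs : ℕ) : ℤ) ^ r ≤
          (((f.eval n).natAbs : ℕ) : ℤ) ^ p := by
        have hx : (0 : ℤ) ≤ (((f.eval n).natAbs : ℕ) : ℤ) ^ p := by positivity
        have hy : (0 : ℤ) ≤ (((g.eval n).natAbs : ℕ) : ℤ) ^ q := by positivity
        have hz : (0 : ℤ) ≤ (((h.eval n).natAbs : ℕ) : ℤ) ^ r := by positivity
        rcases hs.s1 with h1 | h1 <;> rcases hs.s2 with h2 | h2 <;> rw [h1, h2] at h3 <;> linarith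
      exact_mod_cast key
    exact ⟨exp_le_of_pow (by omega) g1 (by omega), exp_le_of_pow (by omega) k1 (by omega)⟩
  have hr : ∀ k : ℕ, ∃ N₅ M₃ : ℕ, ∀ n : ℤ, N₅ ≤ n.natAbs → ∀ (p q r : ℕ) (e₁ e₂ e₃ : ℤ),
      SSol (f.eval n).natAbs (g.eval n).natAbs (h.eval n).natAbs p q r e₁ e₂ e₃ → p - 1 = k →
      ¬ (toQ d ^ k ∣ toQ (derivative g) ∧ toQ d ^ k ∣ toQ (derivative h)) →
      q ≤ M₃ ∧ r ≤ M₃ := by
    intro k
    by_cases hd : toQ d ^ k ∣ toQ (derivative g) ∧ toQ d ^ k ∣ toQ (derivative h)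
    · exact ⟨0, 0, fun n _ p q r e₁ e₂ e₃ _ _ h => absurd hd h⟩
    obtain ⟨N₅, r₁, q₁, hr₁, hq₁, h1⟩ := H.ratio k hd
    refine ⟨N₁ + N₂ + N₃ + N₄ + 8 + N₅, (2 * c + 1) * q₁ + (2 * c + 1) * r₁,
      fun n hn p q r e₁ e₂ e₃ hs hpk _ => ?_⟩
    have h2 := h1 n (by omega) p q r e₁ e₂ e₃ hs (by have := hs.p2; omega)
    have h3 := hfc n (by omega) p q r e₁ e₂ e₃ hs
    obtain ⟨g1, g2⟩ := hN₃ n (by omega)
    obtain ⟨k1, k2⟩ := hN₄ n (by omega)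
    have h4 := ratio_bd hs (by omega) k1 g1 h3 h2 hr₁ hq₁
    omega
  have hl : |g.leadingCoeff| = 1 ∧ |h.leadingCoeff| = 1 →
      ∃ N₅ M₃ : ℕ, ∀ n : ℤ, N₅ ≤ n.natAbs → ∀ (p q r : ℕ) (e₁ e₂ e₃ : ℤ),
      SSol (f.eval n).natAbs (g.eval n).natAbs (h.eval n).natAbs p q r e₁ e₂ e₃ →
      q ≤ M₃ ∧ r ≤ M₃ := by
    rintro ⟨lg, lh⟩
    obtain ⟨A, hA⟩ := lc_near g lg
    obtain ⟨A', hA'⟩ := lc_near h lh
    obtain ⟨N₅, hN₅⟩ := exps_n f g h H.f0 H.g0 H.h0 (2 * (A + A')) 1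
    refine ⟨N₁ + N₂ + N₃ + N₄ + 8 + N₅,
      (2 * c + 1) * g.natDegree + (2 * c + 1) * h.natDegree + (c + 1),
      fun n hn p q r e₁ e₂ e₃ hs => ?_⟩
    have h3 := hfc n (by omega) p q r e₁ e₂ e₃ hs
    obtain ⟨g1, g2⟩ := hN₃ n (by omega)
    obtain ⟨k1, k2⟩ := hN₄ n (by omega)
    obtain ⟨a1, a2⟩ := hA n (by omega)
    obtain ⟨b1, b2⟩ := hA' n (by omega)
    obtain ⟨L, hL1, hpL, hqL, hrL, hLn⟩ := hN₅ n (by omega) p q r e₁ e₂ e₃ hs
    rw [pow_one] at hLn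
    obtain ⟨-, t2, t3⟩ := hs.tri
    have hg0 := H.g0
    have hh0 := H.h0
    have hAn : A + A' ≤ n.natAbs := by
      calc A + A' ≤ 2 * (A + A') * (L + 1) := by
            rw [mul_assoc]
            calc A + A' = 1 * ((A + A') * 1) := by ring
              _ ≤ 2 * ((A + A') * (L + 1)) := by
                apply Nat.mul_le_mul (by omega)
                apply Nat.mul_le_mul_left
                omega
        _ ≤ n.natAbs := hLn
    have hsz : ∀ s : ℕ, s ≤ L → 2 * s * (A + A') ≤ n.natAbs := by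
      intro s hsL
      calc 2 * s * (A + A') = 2 * (A + A') * s := by ring
        _ ≤ 2 * (A + A') * (L + 1) := Nat.mul_le_mul_left _ (by omega)
        _ ≤ n.natAbs := hLn
    have s1 := hsz r hrL
    have s2 := hsz q hqL
    rcases lt_trichotomy (q * g.natDegree) (r * h.natDegree) with h5 | h5 | h5
    · have h6 : r * h.natDegree ≤ c + 1 := by
        refine near_pow (U := (h.eval n).natAbs) (V := (g.eval n).natAbs) (A := A + A')
          (by omega) hh0 hg0 hAn ?_ ?_ s1 s2 (t3.trans (by omega)) h5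
        · calc n.natAbs ^ h.natDegree ≤ _ := b1
            _ ≤ _ := Nat.add_le_add_left (Nat.mul_le_mul_right _ (by omega)) _
        · calc (g.eval n).natAbs ≤ _ := a2
            _ ≤ _ := Nat.add_le_add_left (Nat.mul_le_mul_right _ (by omega)) _
      have e1 : r * 1 ≤ r * h.natDegree := Nat.mul_le_mul_left _ hh0
      have e2 : q * 1 ≤ q * g.natDegree := Nat.mul_le_mul_left _ hg0
      omega
    · have h6 := ratio_bd hs (by omega) k1 g1 h3 h5.symm hg0 hh0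
      omega
    · have h6 : q * g.natDegree ≤ c + 1 := by
        refine near_pow (U := (g.eval n).natAbs) (V := (h.eval n).natAbs) (A := A + A')
          (by omega) hg0 hh0 hAn ?_ ?_ s2 s1 (t2.trans (by omega)) h5
        · calc n.natAbs ^ g.natDegree ≤ _ := a1
            _ ≤ _ := Nat.add_le_add_left (Nat.mul_le_mul_right _ (by omega)) _
        · calc (h.eval n).natAbs ≤ _ := b2
            _ ≤ _ := Nat.add_le_add_left (Nat.mul_le_mul_right _ (by omega)) _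
      have e1 : r * 1 ≤ r * h.natDegree := Nat.mul_le_mul_left _ hh0
      have e2 : q * 1 ≤ q * g.natDegree := Nat.mul_le_mul_left _ hg0
      omega
  obtain ⟨M₂, hM₂⟩ := hb
  choose N₆ M₃ hM₃ using hr
  obtain ⟨N₇, M₄, hM₄⟩ : ∃ N₆ M₃ : ℕ, ∀ n : ℤ, N₆ ≤ n.natAbs → ∀ (p q r : ℕ) (e₁ e₂ e₃ : ℤ),
      SSol (f.eval n).natAbs (g.eval n).natAbs (h.eval n).natAbs p q r e₁ e₂ e₃ →
      (|g.leadingCoeff| = 1 ∧ |h.leadingCoeff| = 1) → q ≤ M₃ ∧ r ≤ M₃ := by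
    by_cases hd : (|g.leadingCoeff| = 1 ∧ |h.leadingCoeff| = 1)
    · obtain ⟨N, M, h1⟩ := hl hd
      exact ⟨N, M, fun n hn p q r e₁ e₂ e₃ hs _ => h1 n hn p q r e₁ e₂ e₃ hs⟩
    · exact ⟨0, 0, fun n _ p q r e₁ e₂ e₃ _ h => absurd h hd⟩
  refine ⟨N₁ + N₂ + N₃ + N₄ + 8 + (∑ k ∈ Finset.range P₀, N₆ k) + N₇,
    P₀ + M₂ + (∑ k ∈ Finset.range P₀, M₃ k) + M₄, fun n hn p q r e₁ e₂ e₃ hs hcond => ?_⟩
  have hp := hN₁ n (by omega) p q r e₁ e₂ e₃ hs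
  rcases hcond with h1 | h1 | h1
  · have := hM₂ n (by omega) p q r e₁ e₂ e₃ hs h1
    omega
  · have hp2 := hs.p2
    have hmem : p - 1 ∈ Finset.range P₀ := Finset.mem_range.2 (by omega)
    have e1 : N₆ (p - 1) ≤ ∑ k ∈ Finset.range P₀, N₆ k :=
      Finset.single_le_sum (f := N₆) (fun _ _ => Nat.zero_le _) hmem
    have e2 : M₃ (p - 1) ≤ ∑ k ∈ Finset.range P₀, M₃ k :=
      Finset.single_le_sum (f := M₃) (fun _ _ => Nat.zero_le _) hmem
    have := hM₃ (p - 1) n (by omega) p q r e₁ e₂ e₃ hs rfl h1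
    omega
  · have := hM₄ n (by omega) p q r e₁ e₂ e₃ hs h1
    omega

/-- the three terms of a solution of the Fermat-Catalan equation: coprime positive bases `x`, `y`, `z`
with exponents `p`, `q`, `r`, `1/p + 1/q + 1/r < 1`; one of the powers is the sum of the others -/
def Terms (x y z p q r : ℕ) : Prop :=
  0 < x ∧ 0 < y ∧ 0 < z ∧ Nat.Coprime x y ∧ Nat.Coprime x z ∧ Nat.Coprime y z ∧
    0 < p ∧ 0 < q ∧ 0 < r ∧ (1 : ℚ) / p + 1 / q + 1 / r < 1 ∧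
    (x ^ p + y ^ q = z ^ r ∨ x ^ p + z ^ r = y ^ q ∨ y ^ q + z ^ r = x ^ p)

lemma hyp_of {p q r : ℕ} (hp : 0 < p) (hq : 0 < q) (hr : 0 < r)
    (h : (1 : ℚ) / p + 1 / q + 1 / r < 1) : Hyp p q r ∧ 2 ≤ p ∧ 2 ≤ q ∧ 2 ≤ r := by
  have hp' : (0 : ℚ) < p := by exact_mod_cast hp
  have hq' : (0 : ℚ) < q := by exact_mod_cast hq
  have hr' : (0 : ℚ) < r := by exact_mod_cast hr
  have h1 : (q : ℚ) * r + r * p + p * q < p * q * r := by
    have h2 : ((q : ℚ) * r + r * p + p * q) = (1 / p + 1 / q + 1 / r) * (p * q * r) := by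
      field_simp
    rw [h2]
    have h3 : (0 : ℚ) < p * q * r := by positivity
    nlinarith
  have h2 : Hyp p q r := by
    unfold Hyp
    exact_mod_cast h1
  refine ⟨h2, ?_, ?_, ?_⟩
  · by_contra hcon
    have : p = 1 := by omega
    subst this
    unfold Hyp at h2
    nlinarith
  · by_contra hcon
    have : q = 1 := by omega
    subst this
    unfold Hyp at h2
    nlinarith
  · by_contra hcon
    have : r = 1 := by omega
    subst this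
    unfold Hyp at h2
    nlinarith

/-- a solution in signed form; `e₂ = e₃` if `x ^ p` is the sum of the two others -/
lemma Terms.ssol {x y z p q r : ℕ} (h : Terms x y z p q r) :
    Hyp p q r ∧ ∃ e₁ e₂ e₃ : ℤ, SSol x y z p q r e₁ e₂ e₃ ∧ (y ^ q + z ^ r = x ^ p → e₂ = e₃) := by
  obtain ⟨hx, hy, hz, hxy, hxz, hyz, hp, hq, hr, hlt, heq⟩ := h
  obtain ⟨hyp, hp2, hq2, hr2⟩ := hyp_of hp hq hr hlt
  refine ⟨hyp, ?_⟩
  have px : 0 < x ^ p := by positivity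
  have py : 0 < y ^ q := by positivity
  have pz : 0 < z ^ r := by positivity
  rcases heq with h1 | h1 | h1
  · refine ⟨1, 1, -1, ⟨hx, hy, hz, hxy, hxz, hyz, hp2, hq2, hr2, Or.inl rfl, Or.inl rfl,
      Or.inr rfl, ?_⟩, fun h2 => ?_⟩
    · have : (x : ℤ) ^ p + (y : ℤ) ^ q = (z : ℤ) ^ r := by exact_mod_cast h1
      linarith
    · omega
  · refine ⟨1, -1, 1, ⟨hx, hy, hz, hxy, hxz, hyz, hp2, hq2, hr2, Or.inl rfl, Or.inr rfl,
      Or.inl rfl, ?_⟩, fun h2 => ?_⟩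
    · have : (x : ℤ) ^ p + (z : ℤ) ^ r = (y : ℤ) ^ q := by exact_mod_cast h1
      linarith
    · omega
  · refine ⟨-1, 1, 1, ⟨hx, hy, hz, hxy, hxz, hyz, hp2, hq2, hr2, Or.inr rfl, Or.inl rfl,
      Or.inl rfl, ?_⟩, fun _ => rfl⟩
    have : (y : ℤ) ^ q + (z : ℤ) ^ r = (x : ℤ) ^ p := by exact_mod_cast h1
    linarith

/-- from finitely many `n` to finitely many value triples -/
lemma triples_fin (f g h : ℤ[X]) (I : Set ℤ) (hI : I.Finite) :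
    {v : ℕ × ℕ × ℕ | ∃ n ∈ I, ∃ p q r : ℕ,
      Terms (f.eval n).natAbs (g.eval n).natAbs (h.eval n).natAbs p q r ∧
      ({v.1, v.2.1, v.2.2} : Multiset ℕ) = {(f.eval n).natAbs ^ p, (g.eval n).natAbs ^ q,
        (h.eval n).natAbs ^ r}}.Finite := by
  have hbd : ∀ u : ℤ[X], ∃ B : ℕ, ∀ n ∈ I, (u.eval n).natAbs ≤ B := by
    intro u
    obtain ⟨B, hB⟩ := (hI.image (fun n => (u.eval n).natAbs)).bddAbove
    exact ⟨B, fun n hn => hB ⟨n, hn, rfl⟩⟩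
  obtain ⟨B₁, h1⟩ := hbd f
  obtain ⟨B₂, h2⟩ := hbd g
  obtain ⟨B₃, h3⟩ := hbd h
  obtain ⟨V, hV⟩ := vals_fin (B₁ + B₂ + B₃)
  refine ((Set.finite_Iic V).prod ((Set.finite_Iic V).prod (Set.finite_Iic V))).subset ?_
  rintro ⟨A, B, C⟩ ⟨n, hn, p, q, r, ht, hv⟩
  obtain ⟨-, e₁, e₂, e₃, hs, -⟩ := ht.ssol
  have k1 := h1 n hn
  have k2 := h2 n hn
  have k3 := h3 n hn
  obtain ⟨v1, v2, v3⟩ := hV _ _ _ p q r e₁ e₂ e₃ hs (by omega) (by omega) (by omega)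
  have key : ∀ w ∈ ({A, B, C} : Multiset ℕ), w ≤ V := by
    intro w hw
    simp only at hv
    rw [hv] at hw
    simp only [Multiset.insert_eq_cons, Multiset.mem_cons, Multiset.mem_singleton] at hw
    rcases hw with rfl | rfl | rfl <;> assumption
  simp only [Set.mem_prod, Set.mem_Iic]
  exact ⟨key A (by simp), key B (by simp), key C (by simp)⟩

theorem fam_main (d f g h : ℤ[X]) (m : ℕ) (hd : 0 < d.natDegree) (hg : 0 < g.natDegree)
    (hh : 0 < h.natDegree) (hm : 0 < m) (df : d ∣ f) (dg : d ∣ g ^ m - 1) (dh : d ∣ h ^ m - 1) :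
    {v : ℕ × ℕ × ℕ | v.1 + v.2.1 = v.2.2 ∧ ∃ (n : ℤ) (p q r : ℕ),
      Terms (f.eval n).natAbs (g.eval n).natAbs (h.eval n).natAbs p q r ∧
      ({v.1, v.2.1, v.2.2} : Multiset ℕ) = {(f.eval n).natAbs ^ p, (g.eval n).natAbs ^ q,
        (h.eval n).natAbs ^ r} ∧
      ((g.eval n).natAbs ^ q + (h.eval n).natAbs ^ r = (f.eval n).natAbs ^ p ∨
        ¬ (toQ d ^ (p - 1) ∣ toQ (derivative g) ∧ toQ d ^ (p - 1) ∣ toQ (derivative h)) ∨
        (|g.leadingCoeff| = 1 ∧ |h.leadingCoeff| = 1))}.Finite := by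
  rcases eq_or_ne f 0 with rfl | hf0
  · convert Set.finite_empty (α := ℕ × ℕ × ℕ)
    ext v
    simp only [Set.mem_ofPred_eq, Set.mem_empty_iff_false, iff_false]
    rintro ⟨-, n, p, q, r, ⟨h1, -⟩, -⟩
    simp at h1
  have hf : 0 < f.natDegree := hd.trans_le (natDegree_le_of_dvd df hf0)
  have hg0 : g ≠ 0 := by rintro rfl; simp at hg
  have hh0 : h ≠ 0 := by rintro rfl; simp at hh
  have hcop : ∀ {u v : ℤ}, Nat.Coprime u.natAbs v.natAbs → IsCoprime u v := fun {u v} h => by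
    rw [Int.isCoprime_iff_gcd_eq_one]
    exact h
  -- the indices
  suffices hI : {n : ℤ | ∃ (p q r : ℕ),
      Terms (f.eval n).natAbs (g.eval n).natAbs (h.eval n).natAbs p q r ∧
      ((g.eval n).natAbs ^ q + (h.eval n).natAbs ^ r = (f.eval n).natAbs ^ p ∨
        ¬ (toQ d ^ (p - 1) ∣ toQ (derivative g) ∧ toQ d ^ (p - 1) ∣ toQ (derivative h)) ∨
        (|g.leadingCoeff| = 1 ∧ |h.leadingCoeff| = 1))}.Finite by
    refine (triples_fin f g h _ hI).subset ?_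
    rintro v ⟨-, n, p, q, r, h1, h2, h3⟩
    exact ⟨n, ⟨p, q, r, h1, h3⟩, p, q, r, h1, h2⟩
  have hball : ∀ N : ℕ, {n : ℤ | n.natAbs < N}.Finite := by
    intro N
    refine (Set.finite_Icc (-(N : ℤ)) N).subset ?_
    intro n hn
    have : n.natAbs < N := hn
    rw [Set.mem_Icc]
    omega
  by_cases hgh : IsCoprime (toQ g) (toQ h)
  swap
  · obtain ⟨N₀, hN₀⟩ := cop_of_vals g h hg0 hgh
    refine (hball (N₀.natAbs + 1)).subset ?_
    rintro n ⟨p, q, r, ht, -⟩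
    by_contra hcon
    have hcon' : ¬ n.natAbs < N₀.natAbs + 1 := hcon
    refine hN₀ n ?_ (hcop ht.2.2.2.2.2.1)
    rw [Int.abs_eq_natAbs]
    omega
  by_cases hfg : IsCoprime (toQ f) (toQ g)
  swap
  · obtain ⟨N₀, hN₀⟩ := cop_of_vals f g hf0 hfg
    refine (hball (N₀.natAbs + 1)).subset ?_
    rintro n ⟨p, q, r, ht, -⟩
    by_contra hcon
    have hcon' : ¬ n.natAbs < N₀.natAbs + 1 := hcon
    refine hN₀ n ?_ (hcop ht.2.2.2.1)
    rw [Int.abs_eq_natAbs]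
    omega
  have H : Fam d f g h m := ⟨hd, hf, hg, hh, hm, df, dg, dh, hgh⟩
  obtain ⟨N₀, M, hM⟩ := H.bounded
  refine ((hball N₀).union (fin_exp f g h hf hfg hg0 hh0 M)).subset ?_
  rintro n ⟨p, q, r, ht, hc⟩
  rcases Nat.lt_or_ge n.natAbs N₀ with h1 | h1
  · exact Or.inl h1
  · right
    obtain ⟨hyp, e₁, e₂, e₃, hs, he⟩ := ht.ssol
    obtain ⟨b1, b2, b3⟩ := hM n h1 p q r e₁ e₂ e₃ hs (by
      rcases hc with h2 | h2 | h2
      · exact Or.inl (he h2)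
      · exact Or.inr (Or.inl h2)
      · exact Or.inr (Or.inr h2))
    exact ⟨p, q, r, e₁, e₂, e₃, b1, b2, b3, hyp, hs⟩

end Pool.Agent.R477.FC
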