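import Mathlib
import Pool.Agent.R477.FC.FamMain

/-!
# Two bases congruent to roots of unity modulo the third one
-/

set_option autoImplicit false

namespace Pool.Agent.R477.FC

/-- the Padé combination is divisible by `x ^ 3` -/
lemma pade_dvd {x s t : ℤ} {R Q : ℕ} (hs : x ∣ s) (ht : x ∣ t)
    (h : x ^ 3 ∣ (1 + s) ^ R - (1 + t) ^ Q) :
    x ^ 3 ∣ (R : ℤ) * (2 * R * s - 2 * Q * t + ((R : ℤ) - Q) * (s * t)) := by
  have h1 := trunc x s hs 2 R
  have h2 := trunc x t ht 2 Q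
  have h3 := trunc x s hs 1 R
  have h4 := trunc x t ht 1 Q
  simp only [Finset.sum_range_succ, Finset.sum_range_zero, zero_add, Nat.choose_zero_right,
    Nat.choose_one_right, pow_zero, pow_one, Nat.cast_one, one_mul, mul_one] at h1 h2 h3 h4
  norm_num at h1 h2 h3 h4
  have hR : 2 * (R.choose 2 : ℤ) = R * (R - 1) := by
    rcases Nat.eq_zero_or_pos R with rfl | hR
    · simp
    have := Nat.choose_two_right R
    have h5 : 2 * R.choose 2 = R * (R - 1) := by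
      rw [this]
      exact Nat.mul_div_cancel' (Nat.even_mul_pred_self R).two_dvd
    have h6 : ((R - 1 : ℕ) : ℤ) = (R : ℤ) - 1 := by omega
    rw [← h6]
    exact_mod_cast h5
  have hQ : 2 * (Q.choose 2 : ℤ) = Q * (Q - 1) := by
    rcases Nat.eq_zero_or_pos Q with rfl | hQ
    · simp
    have := Nat.choose_two_right Q
    have h5 : 2 * Q.choose 2 = Q * (Q - 1) := by
      rw [this]
      exact Nat.mul_div_cancel' (Nat.even_mul_pred_self Q).two_dvd
    have h6 : ((Q - 1 : ℕ) : ℤ) = (Q : ℤ) - 1 := by omega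
    rw [← h6]
    exact_mod_cast h5
  have hE : x ^ 3 ∣ 2 * R * s + R * (R - 1) * s ^ 2 - 2 * Q * t - Q * (Q - 1) * t ^ 2 := by
    have h5 := dvd_sub (dvd_add h h2) h1
    have h6 := Dvd.dvd.mul_left h5 2
    have h7 : 2 * R * s + R * (R - 1) * s ^ 2 - 2 * Q * t - Q * (Q - 1) * t ^ 2 =
        2 * ((1 + s) ^ R - (1 + t) ^ Q + ((1 + t) ^ Q - (1 + Q * t + Q.choose 2 * t ^ 2)) -
        ((1 + s) ^ R - (1 + R * s + R.choose 2 * s ^ 2))) := by
      rw [← hR, ← hQ]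
      ring
    rw [h7]
    exact h6
  have hD : x ^ 2 ∣ R * s - Q * t := by
    have h5 := dvd_sub (dvd_add ((pow_dvd_pow x (by norm_num : 2 ≤ 3)).trans h) h4) h3
    have h7 : (R : ℤ) * s - Q * t = (1 + s) ^ R - (1 + t) ^ Q + ((1 + t) ^ Q - (1 + Q * t)) -
        ((1 + s) ^ R - (1 + R * s)) := by ring
    rw [h7]
    exact h5
  obtain ⟨k, hk⟩ := hD
  obtain ⟨t', ht'⟩ := ht
  obtain ⟨E, hE⟩ := hE
  refine ⟨R * E - (R - 1) * (2 * Q * t' * k + x * k ^ 2) + (R - Q) * k * t', ?_⟩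
  have h7 : (R : ℤ) * (2 * R * s - 2 * Q * t + ((R : ℤ) - Q) * (s * t)) =
      R * (2 * R * s + R * (R - 1) * s ^ 2 - 2 * Q * t - Q * (Q - 1) * t ^ 2) -
      (R - 1) * (2 * Q * t * (R * s - Q * t) + (R * s - Q * t) ^ 2) +
      (R - Q) * (R * s - Q * t) * t := by ring
  rw [h7, hE, hk, ht']
  ring

/-- if the Padé combination vanishes, then `s = t` -/
lemma pade_zero {x s t : ℤ} {R Q : ℕ} (hR : 0 < R) (hQ : 0 < Q) (hs : x ∣ s) (ht : x ∣ t)
    (hx : 2 * ((R : ℤ) + Q) < x)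
    (h : 2 * R * s - 2 * Q * t + ((R : ℤ) - Q) * (s * t) = 0) : s = t := by
  have hR' : (0 : ℤ) < R := by exact_mod_cast hR
  have hQ' : (0 : ℤ) < Q := by exact_mod_cast hQ
  rcases eq_or_ne s 0 with h0 | h0
  · subst h0
    have : 2 * (Q : ℤ) * t = 0 := by linarith
    have h1 : t = 0 := by
      rcases mul_eq_zero.1 this with h2 | h2
      · omega
      · exact h2
    rw [h1]
  rcases eq_or_ne t 0 with h1 | h1
  · subst h1
    have : 2 * (R : ℤ) * s = 0 := by linarith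
    rcases mul_eq_zero.1 this with h2 | h2
    · omega
    · exact absurd h2 h0
  by_cases hRQ : (R : ℤ) = Q
  · rw [hRQ] at h
    have h2 : 2 * (Q : ℤ) * (s - t) = 0 := by linarith
    rcases mul_eq_zero.1 h2 with h3 | h3
    · omega
    · linarith
  exfalso
  have hx0 : 0 < x := by linarith
  have hsx : x ≤ |s| := Int.le_of_dvd (abs_pos.2 h0) ((dvd_abs _ _).2 hs)
  have htx : x ≤ |t| := Int.le_of_dvd (abs_pos.2 h1) ((dvd_abs _ _).2 ht)
  have h2 : |(R : ℤ) - Q| * (|s| * |t|) ≤ 2 * Q * |t| + 2 * R * |s| := by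
    have h3 : ((R : ℤ) - Q) * (s * t) = 2 * Q * t - 2 * R * s := by linarith
    have h4 : |(R : ℤ) - Q| * (|s| * |t|) = |2 * Q * t - 2 * R * s| := by
      rw [← h3, abs_mul, abs_mul]
    rw [h4]
    refine (abs_sub _ _).trans (le_of_eq ?_)
    rw [abs_mul, abs_mul, abs_mul, abs_mul, abs_of_pos hR', abs_of_pos hQ']
    norm_num
  have h5 : 1 ≤ |(R : ℤ) - Q| := Int.one_le_abs (sub_ne_zero.2 hRQ)
  have h6 : |s| * |t| ≤ 2 * Q * |t| + 2 * R * |s| := by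
    have : 0 ≤ |s| * |t| := by positivity
    nlinarith
  have h7 : x * |t| ≤ |s| * |t| := mul_le_mul_of_nonneg_right hsx (abs_nonneg _)
  have h8 : x * |s| ≤ |s| * |t| := by
    rw [mul_comm |s|]
    exact mul_le_mul_of_nonneg_right htx (abs_nonneg _)
  have h9 : 0 < |s| := by linarith
  have h10 : 0 < |t| := by linarith
  -- (2 Q) |t| < x |t| · (Q / (R + Q)) ... add the two inequalities
  have e1 : 2 * ((R : ℤ) + Q) * (2 * Q * |t|) ≤ x * (2 * Q * |t|) :=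
    mul_le_mul_of_nonneg_right hx.le (by positivity)
  have e2 : 2 * ((R : ℤ) + Q) * (2 * R * |s|) < x * (2 * R * |s|) :=
    mul_lt_mul_of_pos_right hx (by positivity)
  have e3 : x * (2 * Q * |t|) ≤ 2 * Q * (|s| * |t|) := by nlinarith
  have e4 : x * (2 * R * |s|) ≤ 2 * R * (|s| * |t|) := by nlinarith
  have e5 : 2 * ((R : ℤ) + Q) * (|s| * |t|) ≤ 2 * ((R : ℤ) + Q) * (2 * Q * |t| + 2 * R * |s|) :=
    mul_le_mul_of_nonneg_left h6 (by positivity)
  nlinarith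

/-- the congruence for the powers -/
lemma cong_pow {x y z p q r : ℕ} {e₁ e₂ e₃ : ℤ} (h : SSol x y z p q r e₁ e₂ e₃) (d e : ℕ)
    {a b : ℤ} (ha : Sg a) (hb : Sg b) :
    (x : ℤ) ^ p ∣ (b * (z : ℤ) ^ e) ^ (2 * d * r) - (a * (y : ℤ) ^ d) ^ (2 * e * q) := by
  have h1 := dvd_of_sol (a := (x : ℤ)) (b := (y : ℤ)) (c := (z : ℤ)) (p := p) (q := q) (r := r)
    (e₁ := e₁) (e₂ := e₂) (e₃ := e₃) (by simpa using h) (d * e)
  have key : ∀ (u : ℤ) (k l : ℕ), Sg u → ∀ v : ℤ, (u * v ^ k) ^ (2 * l) = v ^ (2 * (k * l)) := by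
    intro u k l hu v
    have h2 : u ^ 2 = 1 := by rw [sq]; exact hu.sq
    rw [mul_pow, pow_mul, h2, one_pow, one_mul, ← pow_mul]
    congr 1
    ring
  have e1 := key b e (d * r) hb z
  have e2 := key a d (e * q) ha y
  have e3 : 2 * (d * r) = 2 * d * r := by ring
  have e4 : 2 * (e * q) = 2 * e * q := by ring
  rw [e3] at e1
  rw [e4] at e2
  rw [e1, e2]
  convert h1 using 2
  · congr 1; ring
  · congr 1; ring

lemma not_both_one {x y z p q r : ℕ} {e₁ e₂ e₃ : ℤ} (h : SSol x y z p q r e₁ e₂ e₃) :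
    ¬ (y = 1 ∧ z = 1) := by
  rintro ⟨rfl, rfl⟩
  have h0 := h.eq
  have hx0 := h.x0
  rw [Nat.cast_one, one_pow, one_pow, mul_one, mul_one] at h0
  have h1 : x ^ p ≠ 2 := by
    intro h2
    rcases Nat.lt_or_ge x 2 with h3 | h3
    · have : x ^ p ≤ 1 ^ p := Nat.pow_le_pow_left (by omega) p
      rw [one_pow] at this
      omega
    · have h4 : 2 ^ 2 ≤ x ^ p :=
        (Nat.pow_le_pow_right (by norm_num) h.p2).trans (Nat.pow_le_pow_left h3 p)
      omega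
  have h2 : 0 < x ^ p := by positivity
  have h3 : (x : ℤ) ^ p ≠ 2 := by exact_mod_cast h1
  have h4 : (0 : ℤ) < (x : ℤ) ^ p := by exact_mod_cast h2
  rcases h.s1 with a | a <;> rcases h.s2 with b | b <;> rcases h.s3 with c | c <;>
    rw [a, b, c] at h0 <;> omega

/-- `a y ^ d ≠ b z ^ e` for coprime `y`, `z`, not both `1` -/
lemma ne_of_cop {x y z p q r : ℕ} {e₁ e₂ e₃ : ℤ} (h : SSol x y z p q r e₁ e₂ e₃) {d e : ℕ}
    (hd : 0 < d) (he : 0 < e) {a b : ℤ} (ha : Sg a) (hb : Sg b) :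
    b * (z : ℤ) ^ e ≠ a * (y : ℤ) ^ d := by
  intro h1
  have h2 : z ^ e = y ^ d := by
    have h3 := congrArg Int.natAbs h1
    rw [Int.natAbs_mul, Int.natAbs_mul, Int.natAbs_pow, Int.natAbs_pow] at h3
    have ha' : a.natAbs = 1 := by rcases ha with rfl | rfl <;> rfl
    have hb' : b.natAbs = 1 := by rcases hb with rfl | rfl <;> rfl
    simpa [ha', hb'] using h3
  have h3 : Nat.Coprime (y ^ d) (z ^ e) := (h.yz.pow_left _).pow_right _
  rw [h2, Nat.coprime_self] at h3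
  apply not_both_one h
  constructor
  · exact (Nat.pow_eq_one.1 h3).resolve_right (by omega)
  · rw [h3] at h2
    exact (Nat.pow_eq_one.1 h2).resolve_right (by omega)

/-- the case `p ≥ 3` -/
lemma case3 {x y z p q r d e B : ℕ} {e₁ e₂ e₃ a b : ℤ} (h : SSol x y z p q r e₁ e₂ e₃)
    (hp : 3 ≤ p) (hd : 0 < d) (he : 0 < e) (ha : Sg a) (hb : Sg b)
    (hy : (x : ℤ) ∣ (y : ℤ) ^ d - a) (hz : (x : ℤ) ∣ (z : ℤ) ^ e - b)
    (hR : 2 * d * r ≤ B) (hQ : 2 * e * q ≤ B) (hB : 12 * B ^ 2 * (y ^ d * z ^ e) < x ^ 3)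
    (hxB : 4 * B < x) : False := by
  have hd' := hd
  set t : ℤ := a * (y : ℤ) ^ d - 1 with ht
  set s : ℤ := b * (z : ℤ) ^ e - 1 with hs
  have hxt : (x : ℤ) ∣ t := by
    have : t = a * ((y : ℤ) ^ d - a) := by
      rw [ht, mul_sub, ha.sq]
    rw [this]
    exact Dvd.dvd.mul_left hy _
  have hxs : (x : ℤ) ∣ s := by
    have : s = b * ((z : ℤ) ^ e - b) := by
      rw [hs, mul_sub, hb.sq]
    rw [this]
    exact Dvd.dvd.mul_left hz _
  have hr2 := h.r2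
  have hq2 := h.q2
  set R := 2 * d * r with hRdef
  set Q := 2 * e * q with hQdef
  have hR0 : 0 < R := by positivity
  have hQ0 : 0 < Q := by positivity
  have h1 : (x : ℤ) ^ 3 ∣ (1 + s) ^ R - (1 + t) ^ Q := by
    have h2 := cong_pow h d e ha hb
    have e1 : 1 + s = b * (z : ℤ) ^ e := by rw [hs]; ring
    have e2 : 1 + t = a * (y : ℤ) ^ d := by rw [ht]; ring
    rw [e1, e2]
    exact (pow_dvd_pow _ hp).trans h2
  have h2 := pade_dvd hxs hxt h1
  -- size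
  have hy0 := h.y0
  have hz0 := h.z0
  have hY1 : (1 : ℤ) ≤ (y : ℤ) ^ d := by exact_mod_cast Nat.one_le_pow _ _ h.y0
  have hZ1 : (1 : ℤ) ≤ (z : ℤ) ^ e := by exact_mod_cast Nat.one_le_pow _ _ h.z0
  have htb : |t| ≤ 2 * (y : ℤ) ^ d := by
    rw [ht]
    rcases ha with rfl | rfl <;> rw [abs_le] <;> constructor <;> linarith
  have hsb : |s| ≤ 2 * (z : ℤ) ^ e := by
    rw [hs]
    rcases hb with rfl | rfl <;> rw [abs_le] <;> constructor <;> linarith
  have hRB : (R : ℤ) ≤ B := by exact_mod_cast hR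
  have hQB : (Q : ℤ) ≤ B := by exact_mod_cast hQ
  have hRQ : |(R : ℤ) - Q| ≤ B := by
    rw [abs_le]
    constructor <;> linarith [(by positivity : (0 : ℤ) ≤ R), (by positivity : (0 : ℤ) ≤ Q)]
  have hB0 : (0 : ℤ) ≤ B := by positivity
  have h3 : |(R : ℤ) * (2 * R * s - 2 * Q * t + ((R : ℤ) - Q) * (s * t))| ≤
      12 * (B : ℤ) ^ 2 * ((y : ℤ) ^ d * (z : ℤ) ^ e) := by
    rw [abs_mul, abs_of_nonneg (by positivity : (0 : ℤ) ≤ R)]
    have h4 : |2 * R * s - 2 * Q * t + ((R : ℤ) - Q) * (s * t)| ≤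
        12 * B * ((y : ℤ) ^ d * (z : ℤ) ^ e) := by
      have a1 : |2 * (R : ℤ) * s| ≤ 4 * B * ((y : ℤ) ^ d * (z : ℤ) ^ e) := by
        rw [abs_mul, abs_of_nonneg (by positivity : (0 : ℤ) ≤ 2 * R)]
        calc 2 * (R : ℤ) * |s| ≤ 2 * B * (2 * (z : ℤ) ^ e) := by gcongr
          _ = 4 * B * (1 * (z : ℤ) ^ e) := by ring
          _ ≤ 4 * B * ((y : ℤ) ^ d * (z : ℤ) ^ e) := by gcongr
      have a2 : |2 * (Q : ℤ) * t| ≤ 4 * B * ((y : ℤ) ^ d * (z : ℤ) ^ e) := by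
        rw [abs_mul, abs_of_nonneg (by positivity : (0 : ℤ) ≤ 2 * Q)]
        calc 2 * (Q : ℤ) * |t| ≤ 2 * B * (2 * (y : ℤ) ^ d) := by gcongr
          _ = 4 * B * ((y : ℤ) ^ d * 1) := by ring
          _ ≤ 4 * B * ((y : ℤ) ^ d * (z : ℤ) ^ e) := by gcongr
      have a3 : |((R : ℤ) - Q) * (s * t)| ≤ 4 * B * ((y : ℤ) ^ d * (z : ℤ) ^ e) := by
        rw [abs_mul, abs_mul]
        calc |(R : ℤ) - Q| * (|s| * |t|) ≤ B * ((2 * (z : ℤ) ^ e) * (2 * (y : ℤ) ^ d)) := by gcongr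
          _ = _ := by ring
      calc |2 * R * s - 2 * Q * t + ((R : ℤ) - Q) * (s * t)| ≤
            |2 * R * s - 2 * Q * t| + |((R : ℤ) - Q) * (s * t)| := abs_add_le _ _
        _ ≤ (|2 * (R : ℤ) * s| + |2 * (Q : ℤ) * t|) + |((R : ℤ) - Q) * (s * t)| := by
            gcongr
            exact abs_sub _ _
        _ ≤ _ := by linarith
    calc (R : ℤ) * |2 * R * s - 2 * Q * t + ((R : ℤ) - Q) * (s * t)| ≤
          B * (12 * B * ((y : ℤ) ^ d * (z : ℤ) ^ e)) := by gcongr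
      _ = _ := by ring
  have h4 : 12 * (B : ℤ) ^ 2 * ((y : ℤ) ^ d * (z : ℤ) ^ e) < (x : ℤ) ^ 3 := by exact_mod_cast hB
  have h5 := Int.eq_zero_of_abs_lt_dvd h2 (lt_of_le_of_lt h3 h4)
  have h6 : 2 * R * s - 2 * Q * t + ((R : ℤ) - Q) * (s * t) = 0 := by
    rcases mul_eq_zero.1 h5 with h7 | h7
    · exfalso
      have : (0 : ℤ) < R := by exact_mod_cast hR0
      omega
    · exact h7
  have hx4 : 4 * (B : ℤ) < x := by exact_mod_cast hxB
  have h7 := pade_zero hR0 hQ0 hxs hxt (by linarith) h6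
  apply ne_of_cop h hd he ha hb
  linarith

end Pool.Agent.R477.FC
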