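import Mathlib
import Pool.Agent.R477.FC.Cong

/-!
# Two bases congruent to roots of unity modulo the third one: the theorem
-/

set_option autoImplicit false

namespace Pool.Agent.R477.FC

lemma pow_ratio {q r : ℕ} (hr : 0 < r) (h : r < q) : q ^ r ≤ r ^ r * 3 ^ (q - r) := by
  have hr' : (0 : ℝ) < r := by exact_mod_cast hr
  have h1 : (q : ℝ) / r ≤ Real.exp (((q : ℝ) - r) / r) := by
    have := Real.add_one_le_exp (((q : ℝ) - r) / r)
    have h2 : ((q : ℝ) - r) / r + 1 = q / r := by field_simp; ring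
    linarith
  have h2 : ((q : ℝ) / r) ^ r ≤ 3 ^ (q - r) := by
    calc ((q : ℝ) / r) ^ r ≤ (Real.exp (((q : ℝ) - r) / r)) ^ r :=
          pow_le_pow_left₀ (by positivity) h1 r
      _ = Real.exp ((q - r : ℕ) : ℝ) := by
          rw [← Real.exp_nat_mul, Nat.cast_sub h.le]
          congr 1
          field_simp
      _ = (Real.exp 1) ^ (q - r) := by rw [← Real.exp_nat_mul, mul_one]
      _ ≤ 3 ^ (q - r) := pow_le_pow_left₀ (Real.exp_pos 1).le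
          (by have := Real.exp_one_lt_d9; linarith) _
  rw [div_pow, div_le_iff₀ (by positivity)] at h2
  have h3 : (q : ℝ) ^ r ≤ (r : ℝ) ^ r * 3 ^ (q - r) := by linarith
  exact_mod_cast h3

lemma case2_core {x y z q r : ℕ} {s t : ℤ} (hr3 : 3 ≤ r) (hrq : r < q)
    (hz : (z : ℤ) ≤ |s| + 1) (ht : |t| ≤ (y : ℤ) + 1) (hst : (r : ℤ) * |s| = q * |t|)
    (hxt : (x : ℤ) ≤ |t|) (hx : 4 * (2 * q) < x) (hx40 : 40 < x) (h : y ^ q ≤ z ^ r + x ^ 2) :
    False := by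
  have hyx : x ≤ y + 1 := by
    have : (x : ℤ) ≤ (y : ℤ) + 1 := hxt.trans ht
    exact_mod_cast this
  have h1 : r * z ≤ q * (y + 2) := by
    have : (r : ℤ) * z ≤ q * (y + 2) := by
      have e1 : (r : ℤ) * z ≤ r * (|s| + 1) := mul_le_mul_of_nonneg_left hz (by positivity)
      have e2 : (q : ℤ) * |t| ≤ q * (y + 1) := mul_le_mul_of_nonneg_left ht (by positivity)
      have e3 : (r : ℤ) ≤ q := by exact_mod_cast hrq.le
      linarith
    exact_mod_cast this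
  have h2 : z ^ r ≤ 3 ^ (q - r) * (y + 2) ^ r := by
    have e1 : (r * z) ^ r ≤ (q * (y + 2)) ^ r := Nat.pow_le_pow_left h1 r
    rw [mul_pow, mul_pow] at e1
    have e2 : q ^ r * (y + 2) ^ r ≤ (r ^ r * 3 ^ (q - r)) * (y + 2) ^ r :=
      Nat.mul_le_mul_right _ (pow_ratio (by omega) hrq)
    have e3 : r ^ r * z ^ r ≤ r ^ r * (3 ^ (q - r) * (y + 2) ^ r) := by
      calc r ^ r * z ^ r ≤ _ := e1
        _ ≤ _ := e2
        _ = _ := by ring
    exact Nat.le_of_mul_le_mul_left e3 (by positivity)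
  have h3 : (y + 2) ^ r ≤ 2 * y ^ r := bern2 (by omega) (by omega) (by omega)
  have h4 : 3 ^ (q - r) * 8 ≤ y ^ (q - r) := by
    obtain ⟨k, hk⟩ : ∃ k, q - r = k + 1 := ⟨q - r - 1, by omega⟩
    rw [hk, pow_succ, pow_succ]
    have e1 : 3 ^ k ≤ y ^ k := Nat.pow_le_pow_left (by omega) k
    calc 3 ^ k * 3 * 8 = 3 ^ k * 24 := by ring
      _ ≤ y ^ k * y := Nat.mul_le_mul e1 (by omega)
  have h5 : 4 * z ^ r ≤ y ^ q := by
    have e1 : y ^ q = y ^ (q - r) * y ^ r := by rw [← pow_add]; congr 1; omega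
    calc 4 * z ^ r ≤ 4 * (3 ^ (q - r) * (2 * y ^ r)) :=
          Nat.mul_le_mul_left _ (h2.trans (Nat.mul_le_mul_left _ h3))
      _ = (3 ^ (q - r) * 8) * y ^ r := by ring
      _ ≤ y ^ (q - r) * y ^ r := Nat.mul_le_mul_right _ h4
      _ = y ^ q := e1.symm
  have h6 : 4 * x ^ 2 ≤ y ^ q := by
    have e1 : y ^ 3 ≤ y ^ q := Nat.pow_le_pow_right (by omega) (by omega)
    have e2 : 4 * x ^ 2 ≤ y ^ 3 := by
      calc 4 * x ^ 2 ≤ 4 * (y + 1) ^ 2 := by gcongr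
        _ ≤ 4 * (2 * y) ^ 2 := by gcongr; omega
        _ = 16 * y ^ 2 := by ring
        _ ≤ y * y ^ 2 := Nat.mul_le_mul_right _ (by omega)
        _ = y ^ 3 := by ring
    exact e2.trans e1
  have h7 : 0 < y ^ q := by
    have : 0 < y := by omega
    positivity
  omega

/-- the case `p = 2` -/
lemma case2 {x y z q r B : ℕ} {e₁ e₂ e₃ a b : ℤ} (h : SSol x y z 2 q r e₁ e₂ e₃)
    (hq3 : 3 ≤ q) (hr3 : 3 ≤ r) (ha : Sg a) (hb : Sg b)
    (hy : (x : ℤ) ∣ (y : ℤ) - a) (hz : (x : ℤ) ∣ (z : ℤ) - b)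
    (hR : 2 * r ≤ B) (hQ : 2 * q ≤ B) (hBy : 4 * B * y < x ^ 2) (hBz : 4 * B * z < x ^ 2)
    (hxB : 4 * B < x) (hx40 : 40 < x) : False := by
  set t : ℤ := a * (y : ℤ) - 1 with ht
  set s : ℤ := b * (z : ℤ) - 1 with hs
  have hxt : (x : ℤ) ∣ t := by
    have : t = a * ((y : ℤ) - a) := by
      rw [ht, mul_sub, ha.sq]
    rw [this]
    exact Dvd.dvd.mul_left hy _
  have hxs : (x : ℤ) ∣ s := by
    have : s = b * ((z : ℤ) - b) := by
      rw [hs, mul_sub, hb.sq]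
    rw [this]
    exact Dvd.dvd.mul_left hz _
  have h1 : (x : ℤ) ^ 2 ∣ (1 + s) ^ (2 * r) - (1 + t) ^ (2 * q) := by
    have h2 := cong_pow h 1 1 ha hb
    have e1 : 1 + s = b * (z : ℤ) ^ 1 := by rw [hs]; ring
    have e2 : 1 + t = a * (y : ℤ) ^ 1 := by rw [ht]; ring
    rw [e1, e2]
    simpa using h2
  have h3 := trunc (x : ℤ) s hxs 1 (2 * r)
  have h4 := trunc (x : ℤ) t hxt 1 (2 * q)
  simp only [Finset.sum_range_succ, Finset.sum_range_zero, zero_add, Nat.choose_zero_right,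
    Nat.choose_one_right, pow_zero, pow_one, Nat.cast_one, mul_one] at h3 h4
  norm_num at h3 h4
  have hD : (x : ℤ) ^ 2 ∣ 2 * r * s - 2 * q * t := by
    have h5 := dvd_sub (dvd_add h1 h4) h3
    have h7 : (2 : ℤ) * r * s - 2 * q * t = (1 + s) ^ (2 * r) - (1 + t) ^ (2 * q) +
        ((1 + t) ^ (2 * q) - (1 + 2 * q * t)) - ((1 + s) ^ (2 * r) - (1 + 2 * r * s)) := by ring
    rw [h7]
    exact h5
  have hy0 := h.y0
  have hz0 := h.z0
  have htb : |t| ≤ (y : ℤ) + 1 := by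
    rw [ht]
    rcases ha with rfl | rfl <;> rw [abs_le] <;> constructor <;> omega
  have hsb : |s| ≤ (z : ℤ) + 1 := by
    rw [hs]
    rcases hb with rfl | rfl <;> rw [abs_le] <;> constructor <;> omega
  have htl : (y : ℤ) ≤ |t| + 1 := by
    rw [ht]
    rcases ha with rfl | rfl
    · have := le_abs_self (1 * (y : ℤ) - 1)
      linarith
    · have := neg_abs_le (-1 * (y : ℤ) - 1)
      linarith
  have hsl : (z : ℤ) ≤ |s| + 1 := by
    rw [hs]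
    rcases hb with rfl | rfl
    · have := le_abs_self (1 * (z : ℤ) - 1)
      linarith
    · have := neg_abs_le (-1 * (z : ℤ) - 1)
      linarith
  have hzero : 2 * (r : ℤ) * s - 2 * q * t = 0 := by
    apply Int.eq_zero_of_abs_lt_dvd hD
    have hRB : 2 * (r : ℤ) ≤ B := by exact_mod_cast hR
    have hQB : 2 * (q : ℤ) ≤ B := by exact_mod_cast hQ
    have hy1 : (y : ℤ) + 1 ≤ 2 * y := by omega
    have hz1 : (z : ℤ) + 1 ≤ 2 * z := by omega
    have hBy' : 4 * (B : ℤ) * y < (x : ℤ) ^ 2 := by exact_mod_cast hBy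
    have hBz' : 4 * (B : ℤ) * z < (x : ℤ) ^ 2 := by exact_mod_cast hBz
    calc |2 * (r : ℤ) * s - 2 * q * t| ≤ |2 * (r : ℤ) * s| + |2 * (q : ℤ) * t| := abs_sub _ _
      _ = 2 * r * |s| + 2 * q * |t| := by
          rw [abs_mul, abs_mul (2 * (q : ℤ)), abs_of_nonneg (by positivity : (0 : ℤ) ≤ 2 * r),
            abs_of_nonneg (by positivity : (0 : ℤ) ≤ 2 * q)]
      _ ≤ B * (2 * z) + B * (2 * y) := by
          have e1 : |s| ≤ 2 * z := hsb.trans hz1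
          have e2 : |t| ≤ 2 * y := htb.trans hy1
          gcongr
      _ < (x : ℤ) ^ 2 := by linarith
  have hst : (r : ℤ) * s = q * t := by linarith
  have hne : s ≠ t := by
    intro h5
    have h6 := ne_of_cop h (d := 1) (e := 1) one_pos one_pos ha hb
    rw [pow_one, pow_one] at h6
    apply h6
    linarith
  have hr0 : (0 : ℤ) < r := by exact_mod_cast (by omega : 0 < r)
  have hq0 : (0 : ℤ) < q := by exact_mod_cast (by omega : 0 < q)
  have ht0 : t ≠ 0 := by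
    intro h5
    rw [h5, mul_zero] at hst
    rcases mul_eq_zero.1 hst with h6 | h6
    · omega
    · exact hne (by rw [h5, h6])
  have hs0 : s ≠ 0 := by
    intro h5
    rw [h5, mul_zero] at hst
    rcases mul_eq_zero.1 hst.symm with h6 | h6
    · omega
    · exact hne (by rw [h5, h6])
  have habs : (r : ℤ) * |s| = q * |t| := by
    have := congrArg abs hst
    rwa [abs_mul, abs_mul, abs_of_pos hr0, abs_of_pos hq0] at this
  have hsx : (x : ℤ) ≤ |s| := Int.le_of_dvd (abs_pos.2 hs0) ((dvd_abs _ _).2 hxs)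
  have htx : (x : ℤ) ≤ |t| := Int.le_of_dvd (abs_pos.2 ht0) ((dvd_abs _ _).2 hxt)
  obtain ⟨-, t2, t3⟩ := h.tri
  rcases lt_trichotomy r q with h5 | h5 | h5
  · exact case2_core hr3 h5 hsl htb habs htx (by omega) hx40 (by omega)
  · apply hne
    rw [h5] at hst
    exact mul_left_cancel₀ (by omega) hst
  · exact case2_core hq3 h5 htl hsb habs.symm hsx (by omega) hx40 (by omega)

lemma log_growth (K : ℝ) (k : ℕ) {δ : ℝ} (hδ : 0 < δ) : ∃ x₀ : ℕ, ∀ x : ℕ, x₀ ≤ x →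
    K * (Real.log x) ^ k < (x : ℝ) ^ δ := by
  have h1 := isLittleO_log_rpow_rpow_atTop (k : ℝ) hδ
  have hc : (0 : ℝ) < 1 / (2 * (|K| + 1)) := by positivity
  have h2 := h1.bound hc
  have h3 := tendsto_natCast_atTop_atTop (R := ℝ) |>.eventually h2
  obtain ⟨x₁, hx₁⟩ := Filter.eventually_atTop.1 h3
  refine ⟨x₁ + 1, fun x hx => ?_⟩
  have h4 := hx₁ x (by omega)
  have hx0 : (0 : ℝ) < x := by exact_mod_cast (by omega : 0 < x)
  have hl : 0 ≤ Real.log x := Real.log_nonneg (by exact_mod_cast (by omega : 1 ≤ x))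
  rw [Real.rpow_natCast, Real.norm_of_nonneg (by positivity), Real.norm_of_nonneg (by positivity)] at h4
  have h5 : 0 < (x : ℝ) ^ δ := by positivity
  calc K * (Real.log x) ^ k ≤ |K| * (Real.log x) ^ k := by
        apply mul_le_mul_of_nonneg_right (le_abs_self K) (by positivity)
    _ ≤ (|K| + 1) * (1 / (2 * (|K| + 1)) * (x : ℝ) ^ δ) := by
        apply mul_le_mul (by linarith) h4 (by positivity) (by positivity)
    _ = (x : ℝ) ^ δ / 2 := by field_simp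
    _ < (x : ℝ) ^ δ := by linarith

lemma log_size {x : ℕ} (hx : 2 ≤ x) : ((Nat.log 2 x + 1 : ℕ) : ℝ) ≤ 3 * Real.log x := by
  have hl2 : Real.log 2 ≤ Real.log x := Real.log_le_log (by norm_num) (by exact_mod_cast hx)
  have h5 : (Nat.log 2 x : ℝ) * Real.log 2 ≤ Real.log x := by
    rw [← Real.log_pow]
    apply Real.log_le_log (by positivity)
    exact_mod_cast Nat.pow_log_le_self 2 (by omega : x ≠ 0)
  have h6 : (0.6931471803 : ℝ) < Real.log 2 := Real.log_two_gt_d9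
  push_cast
  nlinarith [Nat.cast_nonneg (α := ℝ) (Nat.log 2 x)]

/-- the condition on the bases -/
def CongCond (δ : ℝ) (x y z p : ℕ) : Prop :=
  ∃ d e : ℕ, 0 < d ∧ 0 < e ∧ ((x : ℤ) ∣ (y : ℤ) ^ d - 1 ∨ (x : ℤ) ∣ (y : ℤ) ^ d + 1) ∧
    ((x : ℤ) ∣ (z : ℤ) ^ e - 1 ∨ (x : ℤ) ∣ (z : ℤ) ^ e + 1) ∧
    ((y ^ d * z ^ e : ℕ) : ℝ) ≤ (x : ℝ) ^ (3 - δ) ∧
    (3 ≤ p ∨ (d = 1 ∧ e = 1 ∧ (y : ℝ) ≤ (x : ℝ) ^ (2 - δ) ∧ (z : ℝ) ≤ (x : ℝ) ^ (2 - δ)))

/-- replace the exponent of a base `1` -/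
lemma SSol.replY {x y z p q r : ℕ} {e₁ e₂ e₃ : ℤ} (h : SSol x y z p q r e₁ e₂ e₃) (hy : y = 1) :
    SSol x y z p 3 r e₁ e₂ e₃ := by
  subst hy
  refine ⟨h.x0, h.y0, h.z0, h.xy, h.xz, h.yz, h.p2, by norm_num, h.r2, h.s1, h.s2, h.s3, ?_⟩
  have := h.eq
  simpa using this

lemma SSol.replZ {x y z p q r : ℕ} {e₁ e₂ e₃ : ℤ} (h : SSol x y z p q r e₁ e₂ e₃) (hz : z = 1) :
    SSol x y z p q 3 e₁ e₂ e₃ := by
  subst hz
  refine ⟨h.x0, h.y0, h.z0, h.xy, h.xz, h.yz, h.p2, h.q2, by norm_num, h.s1, h.s2, h.s3, ?_⟩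
  have := h.eq
  simpa using this

theorem cong_bound (δ : ℝ) (hδ : 0 < δ) : ∃ X₀ : ℕ, ∀ (x y z p q r : ℕ) (e₁ e₂ e₃ : ℤ),
    SSol x y z p q r e₁ e₂ e₃ → Hyp p q r → CongCond δ x y z p → x < X₀ := by
  obtain ⟨C₀, κ, hC₀⟩ := exps
  set δ' := min δ 1 with hδ'
  have hδ'0 : 0 < δ' := lt_min hδ one_pos
  set K : ℕ := 768 * (C₀ * 3 ^ κ + 3) ^ 2 with hK
  obtain ⟨x₀, hx₀⟩ := log_growth ((K : ℝ) * 3 ^ (2 * κ + 2)) (2 * κ + 2) hδ'0
  refine ⟨x₀ + 41, fun x y z p q r e₁ e₂ e₃ hs hyp hc => ?_⟩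
  by_contra hcon
  push Not at hcon
  obtain ⟨d, e, hd, he, hyd, hze, hprod, hp⟩ := hc
  have hx1 : (1 : ℝ) ≤ x := by exact_mod_cast (by omega : 1 ≤ x)
  -- signs
  obtain ⟨a, ha, hya⟩ : ∃ a : ℤ, Sg a ∧ (x : ℤ) ∣ (y : ℤ) ^ d - a := by
    rcases hyd with h1 | h1
    · exact ⟨1, Or.inl rfl, h1⟩
    · exact ⟨-1, Or.inr rfl, by rw [sub_neg_eq_add]; exact h1⟩
  obtain ⟨b, hb, hzb⟩ : ∃ b : ℤ, Sg b ∧ (x : ℤ) ∣ (z : ℤ) ^ e - b := by
    rcases hze with h1 | h1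
    · exact ⟨1, Or.inl rfl, h1⟩
    · exact ⟨-1, Or.inr rfl, by rw [sub_neg_eq_add]; exact h1⟩
  -- size of the logarithm
  set s := Nat.log 2 x + 1 with hs'
  have hxs : x < 2 ^ s := Nat.lt_pow_succ_log_self (by norm_num) x
  have hs1 : 1 ≤ s := by omega
  have hs3 : (s : ℝ) ≤ 3 * Real.log x := log_size (by omega)
  -- size of `y ^ d z ^ e`
  have hY1 : 1 ≤ y ^ d := Nat.one_le_pow _ _ hs.y0
  have hZ1 : 1 ≤ z ^ e := Nat.one_le_pow _ _ hs.z0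
  have hprod3 : y ^ d * z ^ e ≤ x ^ 3 := by
    have h1 : (x : ℝ) ^ (3 - δ) ≤ (x : ℝ) ^ (3 : ℝ) :=
      Real.rpow_le_rpow_of_exponent_le hx1 (by linarith)
    have h2 := hprod.trans h1
    have h3 : (x : ℝ) ^ (3 : ℝ) = (x : ℝ) ^ 3 := by
      rw [← Real.rpow_natCast]
      norm_num
    rw [h3] at h2
    exact_mod_cast h2
  have hx3 : x ^ 3 ≤ 2 ^ (3 * s) := by
    calc x ^ 3 ≤ (2 ^ s) ^ 3 := Nat.pow_le_pow_left hxs.le 3
      _ = 2 ^ (3 * s) := by rw [← pow_mul, mul_comm]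
  have hYd : y ^ d ≤ 2 ^ (3 * s) := (Nat.le_mul_of_pos_right _ hZ1).trans (hprod3.trans hx3)
  have hZe : z ^ e ≤ 2 ^ (3 * s) := (Nat.le_mul_of_pos_left _ hY1).trans (hprod3.trans hx3)
  have hy : y ≤ 2 ^ (3 * s) := (Nat.le_self_pow (by omega) y).trans hYd
  have hz : z ≤ 2 ^ (3 * s) := (Nat.le_self_pow (by omega) z).trans hZe
  have hx : x ≤ 2 ^ (3 * s) := hxs.le.trans (Nat.pow_le_pow_right (by norm_num) (by omega))
  obtain ⟨d1, d2, d3⟩ := hC₀ (3 * s) (by omega) x y z p q r e₁ e₂ e₃ hs hx hy hz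
  set L := C₀ * (3 * s) ^ κ + 3 with hL
  -- normalisation of a base `1`
  obtain ⟨q', d', hq', hd', hq'2, hsol1, hdiv1, hsz1, hd1, hpr1, hq3⟩ : ∃ q' d' : ℕ, q' ≤ L ∧
      d' ≤ 3 * s ∧ 0 < d' ∧ SSol x y z p q' r e₁ e₂ e₃ ∧ (∃ a : ℤ, Sg a ∧ (x : ℤ) ∣ (y : ℤ) ^ d' - a) ∧
      y ^ d' = y ^ d ∧ (d = 1 → d' = 1) ∧ True ∧ (q' = q ∨ q' = 3) := by
    rcases Nat.lt_or_ge y 2 with h1 | h1
    · have hy1 : y = 1 := by have := hs.y0; omega
      refine ⟨3, 1, by omega, by omega, one_pos, hs.replY hy1, ⟨1, Or.inl rfl, ?_⟩, ?_, fun _ => rfl,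
        trivial, Or.inr rfl⟩
      · rw [hy1]; simp
      · rw [hy1]; simp
    · refine ⟨q, d, by have := d2 h1; omega, ?_, hd, hs, ⟨a, ha, hya⟩, rfl, fun h => h, trivial,
        Or.inl rfl⟩
      have h2 : 2 ^ d ≤ 2 ^ (3 * s) := (Nat.pow_le_pow_left h1 d).trans hYd
      exact (Nat.pow_le_pow_iff_right (by norm_num)).1 h2
  obtain ⟨r', e', hr', he', he'2, hsol2, hdiv2, hsz2, he1, -, hr3⟩ : ∃ r' e' : ℕ, r' ≤ L ∧
      e' ≤ 3 * s ∧ 0 < e' ∧ SSol x y z p q' r' e₁ e₂ e₃ ∧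
      (∃ b : ℤ, Sg b ∧ (x : ℤ) ∣ (z : ℤ) ^ e' - b) ∧
      z ^ e' = z ^ e ∧ (e = 1 → e' = 1) ∧ True ∧ (r' = r ∨ r' = 3) := by
    rcases Nat.lt_or_ge z 2 with h1 | h1
    · have hz1 : z = 1 := by have := hs.z0; omega
      refine ⟨3, 1, by omega, by omega, one_pos, hsol1.replZ hz1, ⟨1, Or.inl rfl, ?_⟩, ?_,
        fun _ => rfl, trivial, Or.inr rfl⟩
      · rw [hz1]; simp
      · rw [hz1]; simp
    · refine ⟨r, e, by have := d3 h1; omega, ?_, he, hsol1, ⟨b, hb, hzb⟩, rfl, fun h => h, trivial,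
        Or.inl rfl⟩
      have h2 : 2 ^ e ≤ 2 ^ (3 * s) := (Nat.pow_le_pow_left h1 e).trans hZe
      exact (Nat.pow_le_pow_iff_right (by norm_num)).1 h2
  obtain ⟨a', ha', hya'⟩ := hdiv1
  obtain ⟨b', hb', hzb'⟩ := hdiv2
  -- the bound `B`
  set B := 2 * (3 * s) * L with hB
  have hLs : L ≤ (C₀ * 3 ^ κ + 3) * s ^ κ := by
    have h5 : C₀ * (3 * s) ^ κ = C₀ * 3 ^ κ * s ^ κ := by rw [mul_pow]; ring
    have h6 : 1 ≤ s ^ κ := Nat.one_le_pow _ _ hs1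
    rw [hL, h5, add_mul]
    omega
  have hBK : 12 * B ^ 2 ≤ K * s ^ (2 * κ + 2) := by
    calc 12 * B ^ 2 ≤ 12 * (2 * (3 * s) * ((C₀ * 3 ^ κ + 3) * s ^ κ)) ^ 2 := by
          rw [hB]
          gcongr
      _ = 432 * (C₀ * 3 ^ κ + 3) ^ 2 * s ^ (2 * κ + 2) := by ring
      _ ≤ K * s ^ (2 * κ + 2) := by
          rw [hK]
          gcongr
          norm_num
  have hBx : ((12 * B ^ 2 : ℕ) : ℝ) < (x : ℝ) ^ δ' := by
    calc ((12 * B ^ 2 : ℕ) : ℝ) ≤ ((K * s ^ (2 * κ + 2) : ℕ) : ℝ) := by exact_mod_cast hBK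
      _ = (K : ℝ) * (s : ℝ) ^ (2 * κ + 2) := by push_cast; ring
      _ ≤ (K : ℝ) * (3 * Real.log x) ^ (2 * κ + 2) := by gcongr
      _ = (K : ℝ) * 3 ^ (2 * κ + 2) * Real.log x ^ (2 * κ + 2) := by rw [mul_pow]; ring
      _ < (x : ℝ) ^ δ' := hx₀ x (by omega)
  have hL3 : 3 ≤ L := by omega
  have hB1 : 1 ≤ B := by
    rw [hB]
    have : 0 < 2 * (3 * s) * L := by positivity
    exact this
  have hB4 : 4 * B ≤ 12 * B ^ 2 := by
    rw [sq]
    exact Nat.mul_le_mul (by norm_num) (Nat.le_mul_of_pos_left _ hB1)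
  have hBx1 : 4 * B < x := by
    have h1 : (x : ℝ) ^ δ' ≤ x := by
      calc (x : ℝ) ^ δ' ≤ (x : ℝ) ^ (1 : ℝ) :=
            Real.rpow_le_rpow_of_exponent_le hx1 (min_le_right _ _)
        _ = x := Real.rpow_one _
    have h2 : ((4 * B : ℕ) : ℝ) < x := by
      calc ((4 * B : ℕ) : ℝ) ≤ ((12 * B ^ 2 : ℕ) : ℝ) := by exact_mod_cast hB4
        _ < (x : ℝ) ^ δ' := hBx
        _ ≤ x := h1
    exact_mod_cast h2
  have hx0 : (0 : ℝ) < x := by linarith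
  have hmul : ∀ (m : ℕ) (Y : ℕ), (Y : ℝ) ≤ (x : ℝ) ^ ((m : ℝ) - δ) →
      12 * B ^ 2 * Y < x ^ m := by
    intro m Y hY
    have h0 : (Y : ℝ) ≤ (x : ℝ) ^ ((m : ℝ) - δ') := hY.trans
      (Real.rpow_le_rpow_of_exponent_le hx1 (by linarith [min_le_left δ 1]))
    have h1 : ((12 * B ^ 2 * Y : ℕ) : ℝ) < (x : ℝ) ^ (m : ℝ) := by
      rcases Nat.eq_zero_or_pos Y with h2 | h2
      · rw [h2]
        simp only [mul_zero, Nat.cast_zero]
        positivity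
      · calc ((12 * B ^ 2 * Y : ℕ) : ℝ) = ((12 * B ^ 2 : ℕ) : ℝ) * (Y : ℝ) := by push_cast; ring
          _ < (x : ℝ) ^ δ' * (Y : ℝ) := mul_lt_mul_of_pos_right hBx (by exact_mod_cast h2)
          _ ≤ (x : ℝ) ^ δ' * (x : ℝ) ^ ((m : ℝ) - δ') :=
              mul_le_mul_of_nonneg_left h0 (by positivity)
          _ = (x : ℝ) ^ (m : ℝ) := by rw [← Real.rpow_add hx0]; congr 1; ring
    rw [Real.rpow_natCast] at h1
    exact_mod_cast h1
  have hRB : 2 * d' * r' ≤ B := by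
    rw [hB]
    exact Nat.mul_le_mul (Nat.mul_le_mul_left _ hd') hr'
  have hQB : 2 * e' * q' ≤ B := by
    rw [hB]
    exact Nat.mul_le_mul (Nat.mul_le_mul_left _ he') hq'
  rcases Nat.lt_or_ge p 3 with hp3 | hp3
  · have hp2 : p = 2 := by have := hs.p2; omega
    subst hp2
    rcases hp with h1 | ⟨rfl, rfl, hy2, hz2⟩
    · omega
    have hd'1 := hd1 rfl
    have he'1 := he1 rfl
    subst hd'1
    subst he'1
    have hq3' : 3 ≤ q' := by
      rcases hq3 with h1 | h1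
      · subst h1
        by_contra h2
        have h3 : q' = 2 := by have := hsol2.q2; omega
        subst h3
        unfold Hyp at hyp
        omega
      · omega
    have hr3' : 3 ≤ r' := by
      rcases hr3 with h1 | h1
      · subst h1
        by_contra h2
        have h3 : r' = 2 := by have := hsol2.r2; omega
        subst h3
        unfold Hyp at hyp
        omega
      · omega
    rw [pow_one] at hya' hzb'
    have h5 := hmul 2 y (by exact_mod_cast hy2)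
    have h6 := hmul 2 z (by exact_mod_cast hz2)
    refine case2 hsol2 hq3' hr3' ha' hb' hya' hzb' (by omega) (by omega)
      (lt_of_le_of_lt (Nat.mul_le_mul_right _ hB4) h5)
      (lt_of_le_of_lt (Nat.mul_le_mul_right _ hB4) h6) hBx1 (by omega)
  · have h5 := hmul 3 (y ^ d * z ^ e) (by exact_mod_cast hprod)
    refine case3 hsol2 hp3 hq'2 he'2 ha' hb' hya' hzb' hRB hQB ?_ hBx1
    rw [hsz1, hsz2]
    exact h5

theorem cong_main (δ : ℝ) (hδ : 0 < δ) :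
    {v : ℕ × ℕ × ℕ | v.1 + v.2.1 = v.2.2 ∧ ∃ x y z p q r : ℕ, Terms x y z p q r ∧
      ({v.1, v.2.1, v.2.2} : Multiset ℕ) = {x ^ p, y ^ q, z ^ r} ∧ CongCond δ x y z p}.Finite := by
  obtain ⟨X₀, hX₀⟩ := cong_bound δ hδ
  obtain ⟨V, hV⟩ := vals_fin (X₀ ^ 3 + X₀)
  refine ((Set.finite_Iic V).prod ((Set.finite_Iic V).prod (Set.finite_Iic V))).subset ?_
  rintro ⟨A, B, C⟩ ⟨-, x, y, z, p, q, r, ht, hv, hc⟩
  obtain ⟨hyp, e₁, e₂, e₃, hs, -⟩ := ht.ssol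
  have hx := hX₀ x y z p q r e₁ e₂ e₃ hs hyp hc
  obtain ⟨d, e, hd, he, -, -, hprod, -⟩ := hc
  have hx1 : (1 : ℝ) ≤ x := by exact_mod_cast hs.x0
  have hprod3 : y ^ d * z ^ e ≤ x ^ 3 := by
    have h1 : (x : ℝ) ^ (3 - δ) ≤ (x : ℝ) ^ (3 : ℝ) :=
      Real.rpow_le_rpow_of_exponent_le hx1 (by linarith)
    have h2 := hprod.trans h1
    have h3 : (x : ℝ) ^ (3 : ℝ) = (x : ℝ) ^ 3 := by
      rw [← Real.rpow_natCast]
      norm_num
    rw [h3] at h2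
    exact_mod_cast h2
  have hY1 : 1 ≤ y ^ d := Nat.one_le_pow _ _ hs.y0
  have hZ1 : 1 ≤ z ^ e := Nat.one_le_pow _ _ hs.z0
  have hxX : x ^ 3 ≤ X₀ ^ 3 := Nat.pow_le_pow_left hx.le 3
  have hy : y ≤ X₀ ^ 3 := (Nat.le_self_pow (by omega) y).trans
    ((Nat.le_mul_of_pos_right _ hZ1).trans (hprod3.trans hxX))
  have hz : z ≤ X₀ ^ 3 := (Nat.le_self_pow (by omega) z).trans
    ((Nat.le_mul_of_pos_left _ hY1).trans (hprod3.trans hxX))
  obtain ⟨v1, v2, v3⟩ := hV x y z p q r e₁ e₂ e₃ hs (by omega) (by omega) (by omega)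
  have key : ∀ w ∈ ({A, B, C} : Multiset ℕ), w ≤ V := by
    intro w hw
    simp only at hv
    rw [hv] at hw
    simp only [Multiset.insert_eq_cons, Multiset.mem_cons, Multiset.mem_singleton] at hw
    rcases hw with rfl | rfl | rfl <;> assumption
  simp only [Set.mem_prod, Set.mem_Iic]
  exact ⟨key A (by simp), key B (by simp), key C (by simp)⟩

end Pool.Agent.R477.FC
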