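import Mathlib
import Pool.Agent.R477.FC.FamMain

/-!
# Arbitrary polynomial families: at most a power of `log N` solutions up to `N`
-/

set_option autoImplicit false

namespace Pool.Agent.R477.FC

open Polynomial

lemma SSol.one {x y z p q r : ℕ} {e₁ e₂ e₃ : ℤ} (h : SSol x y z p q r e₁ e₂ e₃) (hx : x = 1) :
    2 ≤ y ∧ 2 ≤ z := by
  have h0 := h.eq
  have hy0 := h.y0
  have hz0 := h.z0
  have key : ∀ w s : ℕ, 2 ≤ s → w ^ s ≠ 2 := by
    intro w s hs h2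
    rcases Nat.lt_or_ge w 2 with h3 | h3
    · have : w ^ s ≤ 1 ^ s := Nat.pow_le_pow_left (by omega) s
      rw [one_pow] at this
      omega
    · have h4 : 2 ^ 2 ≤ w ^ s :=
        (Nat.pow_le_pow_right (by norm_num) hs).trans (Nat.pow_le_pow_left h3 s)
      omega
  subst hx
  rw [Nat.cast_one, one_pow, mul_one] at h0
  constructor
  · by_contra hcon
    have hy : y = 1 := by omega
    subst hy
    rw [Nat.cast_one, one_pow, mul_one] at h0
    have h1 := key z r h.r2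
    have h2 : 0 < z ^ r := by positivity
    have h3 : (z : ℤ) ^ r ≠ 2 := by exact_mod_cast h1
    have h4 : (0 : ℤ) < (z : ℤ) ^ r := by exact_mod_cast h2
    rcases h.s1 with a | a <;> rcases h.s2 with b | b <;> rcases h.s3 with c | c <;>
      rw [a, b, c] at h0 <;> omega
  · by_contra hcon
    have hz : z = 1 := by omega
    subst hz
    rw [Nat.cast_one, one_pow, mul_one] at h0
    have h1 := key y q h.q2
    have h2 : 0 < y ^ q := by positivity
    have h3 : (y : ℤ) ^ q ≠ 2 := by exact_mod_cast h1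
    have h4 : (0 : ℤ) < (y : ℤ) ^ q := by exact_mod_cast h2
    rcases h.s1 with a | a <;> rcases h.s2 with b | b <;> rcases h.s3 with c | c <;>
      rw [a, b, c] at h0 <;> omega

lemma hyp7 {p q r : ℕ} (hq : 2 ≤ q) (hr : 2 ≤ r) (h : Hyp p q r) : Hyp 7 q r := by
  unfold Hyp at *
  rcases Nat.lt_or_ge 2 q with h1 | h1
  · rcases Nat.lt_or_ge 2 r with h2 | h2
    · nlinarith
    · have : r = 2 := by omega
      subst this
      omega
  · have : q = 2 := by omega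
    subst this
    rcases Nat.lt_or_ge 2 r with h2 | h2
    · omega
    · have : r = 2 := by omega
      subst this
      omega

lemma Hyp.rot {p q r : ℕ} (h : Hyp p q r) : Hyp q r p := by
  unfold Hyp at *
  have : q * r * p = p * q * r := by ring
  rw [this]
  omega

/-- the exponent of a base `1` may be taken to be `7` -/
lemma normalise {x y z p q r : ℕ} {e₁ e₂ e₃ : ℤ} (h : SSol x y z p q r e₁ e₂ e₃)
    (hyp : Hyp p q r) : ∃ p' q' r' : ℕ, SSol x y z p' q' r' e₁ e₂ e₃ ∧ Hyp p' q' r' ∧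
      x ^ p' = x ^ p ∧ y ^ q' = y ^ q ∧ z ^ r' = z ^ r ∧
      (p' = 7 ∨ (2 ≤ x ∧ p' = p)) ∧ (q' = 7 ∨ (2 ≤ y ∧ q' = q)) ∧ (r' = 7 ∨ (2 ≤ z ∧ r' = r)) := by
  have hp2 := h.p2
  have hq2 := h.q2
  have hr2 := h.r2
  have hx0 := h.x0
  have hy0 := h.y0
  have hz0 := h.z0
  by_cases hx : x = 1
  · obtain ⟨h1, h2⟩ := h.one hx
    subst hx
    refine ⟨7, q, r, ⟨h.x0, h.y0, h.z0, h.xy, h.xz, h.yz, by omega, h.q2, h.r2, h.s1, h.s2, h.s3, ?_⟩,
      hyp7 hq2 hr2 hyp, by simp, rfl, rfl, Or.inl rfl, Or.inr ⟨h1, rfl⟩, Or.inr ⟨h2, rfl⟩⟩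
    have := h.eq
    simpa using this
  by_cases hy : y = 1
  · obtain ⟨h1, h2⟩ := h.rot.one hy
    subst hy
    have h3 := (hyp7 hr2 hp2 hyp.rot).rot.rot
    refine ⟨p, 7, r, ⟨h.x0, h.y0, h.z0, h.xy, h.xz, h.yz, h.p2, by omega, h.r2, h.s1, h.s2, h.s3, ?_⟩,
      h3, rfl, by simp, rfl, Or.inr ⟨h2, rfl⟩, Or.inl rfl, Or.inr ⟨h1, rfl⟩⟩
    have := h.eq
    simpa using this
  by_cases hz : z = 1
  · obtain ⟨h1, h2⟩ := h.rot.rot.one hz
    subst hz
    have h3 := (hyp7 hp2 hq2 hyp.rot.rot).rot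
    refine ⟨p, q, 7, ⟨h.x0, h.y0, h.z0, h.xy, h.xz, h.yz, h.p2, h.q2, by omega, h.s1, h.s2, h.s3, ?_⟩,
      h3, rfl, rfl, by simp, Or.inr ⟨h1, rfl⟩, Or.inr ⟨h2, rfl⟩, Or.inl rfl⟩
    have := h.eq
    simpa using this
  exact ⟨p, q, r, h, hyp, rfl, rfl, rfl, Or.inr ⟨by omega, rfl⟩, Or.inr ⟨by omega, rfl⟩,
    Or.inr ⟨by omega, rfl⟩⟩

/-- the polynomials whose roots are the solutions with exponents `p`, `q`, `r` -/
noncomputable def Pt (f g h : ℤ[X]) (t : (ℕ × ℕ × ℕ) × (ℤ × ℤ × ℤ)) : ℤ[X] :=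
  C t.2.1 * f ^ t.1.1 + C t.2.2.1 * g ^ t.1.2.1 + C t.2.2.2 * h ^ t.1.2.2

lemma sgn_pow {e a : ℤ} (k : ℕ) (he : Sg e) :
    ∃ e' : ℤ, Sg e' ∧ e * ((a.natAbs : ℕ) : ℤ) ^ k = e' * a ^ k := by
  rcases Int.natAbs_eq a with h1 | h1
  · exact ⟨e, he, by rw [← h1]⟩
  · refine ⟨e * (-1) ^ k, he.mul ?_, ?_⟩
    · rcases neg_one_pow_eq_or ℤ k with h2 | h2 <;> rw [h2] <;> simp [Sg]
    · conv_rhs => rw [h1]
      rw [mul_assoc, ← mul_pow]
      simp

lemma Pt_ne (f g h : ℤ[X]) (hf : f ≠ 0) (hg : g ≠ 0) (hh : h ≠ 0)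
    (hnc : 0 < f.natDegree ∨ 0 < g.natDegree ∨ 0 < h.natDegree)
    (hfg : IsCoprime (toQ f) (toQ g)) {p q r : ℕ} {a₁ a₂ a₃ : ℤ} (ha₁ : Sg a₁) (ha₂ : Sg a₂)
    (ha₃ : Sg a₃) (hp : 2 ≤ p) (hq : 2 ≤ q) (hr : 2 ≤ r) (hyp : Hyp p q r) :
    Pt f g h ((p, q, r), (a₁, a₂, a₃)) ≠ 0 := by
  intro h0
  have h4 : C (a₁ : ℚ) * (toQ f) ^ p + C (a₂ : ℚ) * (toQ g) ^ q + C (a₃ : ℚ) * (toQ h) ^ r = 0 := by
    have := congrArg toQ h0
    simp only [Pt, toQ, Polynomial.map_add, Polynomial.map_mul, Polynomial.map_pow, map_C,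
      Polynomial.map_zero] at this
    exact this
  have hne : ∀ {u : ℤ[X]}, u ≠ 0 → toQ u ≠ 0 := fun {u} hu h0 =>
    hu (toQ_inj (by rw [h0]; simp [toQ]))
  have hcast : ∀ {a : ℤ}, Sg a → (a : ℚ) ≠ 0 := fun {a} ha => by exact_mod_cast ha.ne
  have h5 := Polynomial.flt_catalan (k := ℚ) (p := p) (q := q) (r := r) (by omega) (by omega)
    (by omega) hyp.le (by exact_mod_cast (by omega : p ≠ 0)) (by exact_mod_cast (by omega : q ≠ 0))
    (by exact_mod_cast (by omega : r ≠ 0)) (a := toQ f) (b := toQ g) (c := toQ h)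
    (hne hf) (hne hg) (hne hh) hfg (hcast ha₁) (hcast ha₂) (hcast ha₃) h4
  rw [toQ_natDegree, toQ_natDegree, toQ_natDegree] at h5
  omega

lemma Pt_natDegree (f g h : ℤ[X]) (L : ℕ) (t : (ℕ × ℕ × ℕ) × (ℤ × ℤ × ℤ)) (h1 : t.1.1 ≤ L)
    (h2 : t.1.2.1 ≤ L) (h3 : t.1.2.2 ≤ L) :
    (Pt f g h t).natDegree ≤ L * (f.natDegree + g.natDegree + h.natDegree) := by
  have key : ∀ (a : ℤ) (u : ℤ[X]) (s : ℕ), s ≤ L → u.natDegree ≤ f.natDegree + g.natDegree + h.natDegree →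
      (C a * u ^ s).natDegree ≤ L * (f.natDegree + g.natDegree + h.natDegree) := by
    intro a u s hs hu
    refine (natDegree_C_mul_le _ _).trans (natDegree_pow_le.trans ?_)
    exact Nat.mul_le_mul hs hu
  unfold Pt
  refine (natDegree_add_le _ _).trans (max_le ((natDegree_add_le _ _).trans (max_le ?_ ?_)) ?_)
  · exact key _ _ _ h1 (by omega)
  · exact key _ _ _ h2 (by omega)
  · exact key _ _ _ h3 (by omega)

/-- size of polynomial values below `N < 2 ^ s` -/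
lemma val_le (u : ℤ[X]) : ∃ D : ℕ, ∀ (s : ℕ) (n : ℤ), 1 ≤ s → n.natAbs < 2 ^ s →
    (u.eval n).natAbs ≤ 2 ^ (D * s) := by
  obtain ⟨K, hK0, hK⟩ := coeff_bd u
  refine ⟨(K * (u.natDegree + 1)).natAbs + u.natDegree, fun s n hs hn => ?_⟩
  have h1 : |u.eval n| ≤ K * (u.natDegree + 1) * (2 ^ s) ^ u.natDegree := by
    rw [eval_eq_sum_range]
    calc |∑ i ∈ Finset.range (u.natDegree + 1), u.coeff i * n ^ i|
        ≤ ∑ i ∈ Finset.range (u.natDegree + 1), |u.coeff i * n ^ i| := Finset.abs_sum_le_sum_abs _ _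
      _ ≤ ∑ _i ∈ Finset.range (u.natDegree + 1), K * (2 ^ s) ^ u.natDegree := by
          apply Finset.sum_le_sum
          intro i hi
          rw [abs_mul, abs_pow]
          apply mul_le_mul (hK i) _ (by positivity) hK0
          have h2 : |n| ≤ 2 ^ s := by
            rw [Int.abs_eq_natAbs]
            exact_mod_cast hn.le
          calc |n| ^ i ≤ (2 ^ s) ^ i := pow_le_pow_left₀ (abs_nonneg _) h2 _
            _ ≤ (2 ^ s) ^ u.natDegree := pow_le_pow_right₀ (one_le_pow₀ (by norm_num))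
                (by have := Finset.mem_range.1 hi; omega)
      _ = _ := by
          rw [Finset.sum_const, Finset.card_range, nsmul_eq_mul]
          push_cast
          ring
  set A := (K * (u.natDegree + 1)).natAbs with hA
  have hA' : K * ((u.natDegree : ℤ) + 1) = A := by
    have : 0 ≤ K * ((u.natDegree : ℤ) + 1) := by positivity
    omega
  rw [hA'] at h1
  have h2 : (u.eval n).natAbs ≤ A * (2 ^ s) ^ u.natDegree := by
    zify
    exact h1
  calc (u.eval n).natAbs ≤ A * (2 ^ s) ^ u.natDegree := h2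
    _ ≤ 2 ^ (A * s) * (2 ^ s) ^ u.natDegree := by
        apply Nat.mul_le_mul_right
        calc A ≤ 2 ^ A := Nat.lt_two_pow_self.le
          _ ≤ 2 ^ (A * s) := Nat.pow_le_pow_right (by norm_num) (Nat.le_mul_of_pos_right _ hs)
    _ = 2 ^ ((A + u.natDegree) * s) := by
        rw [← pow_mul, ← pow_add]
        congr 1
        ring

/-- For arbitrary polynomials, not all constant, at most `C (log N) ^ κ` pairs `(n, v)` with `|n| ≤ N` are
such that `v` is a value triple with bases `|f(n)|`, `|g(n)|`, `|h(n)|`. -/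
theorem count_main : ∃ κ : ℕ, ∀ f g h : ℤ[X],
    (0 < f.natDegree ∨ 0 < g.natDegree ∨ 0 < h.natDegree) → ∃ C : ℝ, ∀ N : ℕ, 2 ≤ N →
      {w : ℤ × (ℕ × ℕ × ℕ) | |w.1| ≤ N ∧ ∃ p q r : ℕ,
        Terms (f.eval w.1).natAbs (g.eval w.1).natAbs (h.eval w.1).natAbs p q r ∧
        w.2 = ((f.eval w.1).natAbs ^ p, (g.eval w.1).natAbs ^ q, (h.eval w.1).natAbs ^ r)}.Finite ∧
      (({w : ℤ × (ℕ × ℕ × ℕ) | |w.1| ≤ N ∧ ∃ p q r : ℕ,
        Terms (f.eval w.1).natAbs (g.eval w.1).natAbs (h.eval w.1).natAbs p q r ∧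
        w.2 = ((f.eval w.1).natAbs ^ p, (g.eval w.1).natAbs ^ q,
          (h.eval w.1).natAbs ^ r)}.ncard : ℕ) : ℝ) ≤ C * (Real.log N) ^ κ := by
  classical
  obtain ⟨C₀, κ, hC₀⟩ := exps
  refine ⟨4 * κ, fun f g h hnc => ?_⟩
  -- trivial cases
  by_cases hz : f = 0 ∨ g = 0 ∨ h = 0
  · refine ⟨0, fun N hN => ?_⟩
    have hempty : {w : ℤ × (ℕ × ℕ × ℕ) | |w.1| ≤ N ∧ ∃ p q r : ℕ,
        Terms (f.eval w.1).natAbs (g.eval w.1).natAbs (h.eval w.1).natAbs p q r ∧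
        w.2 = ((f.eval w.1).natAbs ^ p, (g.eval w.1).natAbs ^ q, (h.eval w.1).natAbs ^ r)} = ∅ := by
      ext w
      simp only [Set.mem_ofPred_eq, Set.mem_empty_iff_false, iff_false]
      rintro ⟨-, p, q, r, ⟨h1, h2, h3, -⟩, -⟩
      rcases hz with rfl | rfl | rfl
      · simp at h1
      · simp at h2
      · simp at h3
    rw [hempty]
    simp
  push Not at hz
  obtain ⟨hf0, hg0, hh0⟩ := hz
  have hcop : ∀ {u v : ℤ}, Nat.Coprime u.natAbs v.natAbs → IsCoprime u v := fun {u v} h => by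
    rw [Int.isCoprime_iff_gcd_eq_one]
    exact h
  -- the common part: a bound for the number of pairs through a finite set of exponents
  have hfin : ∀ N : ℕ, {w : ℤ × (ℕ × ℕ × ℕ) | |w.1| ≤ N ∧ ∃ p q r : ℕ,
        Terms (f.eval w.1).natAbs (g.eval w.1).natAbs (h.eval w.1).natAbs p q r ∧
        w.2 = ((f.eval w.1).natAbs ^ p, (g.eval w.1).natAbs ^ q,
          (h.eval w.1).natAbs ^ r)}.Finite := by
    intro N
    obtain ⟨D₁, hD₁⟩ := val_le f
    obtain ⟨D₂, hD₂⟩ := val_le g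
    obtain ⟨D₃, hD₃⟩ := val_le h
    set s := N + 1 with hs
    obtain ⟨V, hV⟩ := vals_fin (2 ^ (D₁ * s) + 2 ^ (D₂ * s) + 2 ^ (D₃ * s))
    refine ((Set.finite_Icc (-(N : ℤ)) N).prod
      ((Set.finite_Iic V).prod ((Set.finite_Iic V).prod (Set.finite_Iic V)))).subset ?_
    rintro ⟨n, A, B, E⟩ ⟨hn, p, q, r, ht, hv⟩
    simp only [Prod.mk.injEq] at hn ht hv
    obtain ⟨-, e₁, e₂, e₃, hsol, -⟩ := ht.ssol
    have hns : n.natAbs < 2 ^ s := by
      have h1 : n.natAbs ≤ N := by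
        rw [Int.abs_eq_natAbs] at hn
        exact_mod_cast hn
      have h2 : s < 2 ^ s := Nat.lt_two_pow_self
      omega
    have w1 : 0 < 2 ^ (D₁ * s) := by positivity
    have w2 : 0 < 2 ^ (D₂ * s) := by positivity
    have w3 : 0 < 2 ^ (D₃ * s) := by positivity
    obtain ⟨v1, v2, v3⟩ := hV _ _ _ p q r e₁ e₂ e₃ hsol
      ((hD₁ s n (by omega) hns).trans (by omega)) ((hD₂ s n (by omega) hns).trans (by omega))
      ((hD₃ s n (by omega) hns).trans (by omega))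
    simp only [Set.mem_prod, Set.mem_Icc, Set.mem_Iic]
    obtain ⟨rfl, rfl, rfl⟩ := hv
    exact ⟨abs_le.1 hn, v1, v2, v3⟩
  by_cases hfg : IsCoprime (toQ f) (toQ g)
  swap
  · -- only finitely many pairs
    obtain ⟨N₀, hN₀⟩ := cop_of_vals f g hf0 hfg
    set T := {w : ℤ × (ℕ × ℕ × ℕ) | |w.1| ≤ N₀.natAbs ∧ ∃ p q r : ℕ,
        Terms (f.eval w.1).natAbs (g.eval w.1).natAbs (h.eval w.1).natAbs p q r ∧
        w.2 = ((f.eval w.1).natAbs ^ p, (g.eval w.1).natAbs ^ q,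
          (h.eval w.1).natAbs ^ r)} with hT
    have hTf : T.Finite := hfin N₀.natAbs
    refine ⟨(T.ncard : ℝ) / (Real.log 2) ^ (4 * κ), fun N hN => ⟨hfin N, ?_⟩⟩
    have hsub : {w : ℤ × (ℕ × ℕ × ℕ) | |w.1| ≤ N ∧ ∃ p q r : ℕ,
        Terms (f.eval w.1).natAbs (g.eval w.1).natAbs (h.eval w.1).natAbs p q r ∧
        w.2 = ((f.eval w.1).natAbs ^ p, (g.eval w.1).natAbs ^ q,
          (h.eval w.1).natAbs ^ r)} ⊆ T := by
      rintro w ⟨-, p, q, r, ht, hv⟩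
      refine ⟨?_, p, q, r, ht, hv⟩
      by_contra hcon
      refine hN₀ w.1 ?_ (hcop ht.2.2.2.1)
      rw [Int.abs_eq_natAbs] at hcon ⊢
      omega
    have h1 : (({w : ℤ × (ℕ × ℕ × ℕ) | |w.1| ≤ N ∧ ∃ p q r : ℕ,
        Terms (f.eval w.1).natAbs (g.eval w.1).natAbs (h.eval w.1).natAbs p q r ∧
        w.2 = ((f.eval w.1).natAbs ^ p, (g.eval w.1).natAbs ^ q,
          (h.eval w.1).natAbs ^ r)}.ncard : ℕ) : ℝ) ≤ T.ncard := by
      exact_mod_cast Set.ncard_le_ncard hsub hTf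
    refine h1.trans ?_
    have hl2 : 0 < Real.log 2 := Real.log_pos (by norm_num)
    have hlN : Real.log 2 ≤ Real.log N := Real.log_le_log (by norm_num) (by exact_mod_cast hN)
    rw [div_mul_eq_mul_div, le_div_iff₀ (by positivity)]
    exact mul_le_mul_of_nonneg_left (pow_le_pow_left₀ hl2.le hlN _) (Nat.cast_nonneg _)
  -- the main case
  obtain ⟨D₁, hD₁⟩ := val_le f
  obtain ⟨D₂, hD₂⟩ := val_le g
  obtain ⟨D₃, hD₃⟩ := val_le h
  set D := D₁ + D₂ + D₃ + 1 with hD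
  set E := f.natDegree + g.natDegree + h.natDegree with hE
  have hE0 : 0 < E := by omega
  set C₁ := C₀ * D ^ κ + 8 with hC₁
  refine ⟨27 * E * C₁ ^ 4 * 3 ^ (4 * κ), fun N hN => ⟨hfin N, ?_⟩⟩
  set s := Nat.log 2 N + 1 with hs
  have hNs : N < 2 ^ s := Nat.lt_pow_succ_log_self (by norm_num) N
  have hs2 : 2 ≤ s := by
    have : 1 ≤ Nat.log 2 N := Nat.log_pos (by norm_num) hN
    omega
  set L := C₀ * (D * s) ^ κ + 7 with hL
  -- the finite index set
  set I : Finset ((ℕ × ℕ × ℕ) × (ℤ × ℤ × ℤ)) :=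
    ((Finset.range (L + 1)) ×ˢ (Finset.range (L + 1)) ×ˢ (Finset.range (L + 1))) ×ˢ
      ((Finset.Icc (-1) 1) ×ˢ (Finset.Icc (-1) 1) ×ˢ (Finset.Icc (-1) 1)) with hI
  set φ : ((ℕ × ℕ × ℕ) × (ℤ × ℤ × ℤ)) → ℤ → ℤ × (ℕ × ℕ × ℕ) := fun t n =>
    (n, ((f.eval n).natAbs ^ t.1.1, (g.eval n).natAbs ^ t.1.2.1, (h.eval n).natAbs ^ t.1.2.2)) with hφ
  have hsub : {w : ℤ × (ℕ × ℕ × ℕ) | |w.1| ≤ N ∧ ∃ p q r : ℕ,
        Terms (f.eval w.1).natAbs (g.eval w.1).natAbs (h.eval w.1).natAbs p q r ∧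
        w.2 = ((f.eval w.1).natAbs ^ p, (g.eval w.1).natAbs ^ q, (h.eval w.1).natAbs ^ r)} ⊆
      ((I.biUnion fun t => (Pt f g h t).roots.toFinset.image (φ t) : Finset _) : Set _) := by
    rintro ⟨n, v⟩ ⟨hn, p, q, r, ht, hv⟩
    simp only at hn ht hv
    obtain ⟨hyp, e₁, e₂, e₃, hsol, -⟩ := ht.ssol
    obtain ⟨p', q', r', hsol', hyp', hx, hy, hz, cp, cq, cr⟩ := normalise hsol hyp
    have hns : n.natAbs < 2 ^ s := by
      have h1 : n.natAbs ≤ N := by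
        rw [Int.abs_eq_natAbs] at hn
        exact_mod_cast hn
      omega
    have hDs : 2 ≤ D * s := by
      calc 2 ≤ 1 * s := by omega
        _ ≤ D * s := Nat.mul_le_mul_right _ (by omega)
    have hup : ∀ {D' : ℕ}, D' ≤ D → 2 ^ (D' * s) ≤ 2 ^ (D * s) := fun {D'} h =>
      Nat.pow_le_pow_right (by norm_num) (Nat.mul_le_mul_right _ h)
    obtain ⟨d1, d2, d3⟩ := hC₀ (D * s) hDs _ _ _ p q r e₁ e₂ e₃ hsol
      ((hD₁ s n (by omega) hns).trans (hup (by omega)))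
      ((hD₂ s n (by omega) hns).trans (hup (by omega)))
      ((hD₃ s n (by omega) hns).trans (hup (by omega)))
    have hp' : p' ≤ L := by
      rcases cp with h1 | ⟨h1, h2⟩
      · omega
      · have := d1 h1
        omega
    have hq' : q' ≤ L := by
      rcases cq with h1 | ⟨h1, h2⟩
      · omega
      · have := d2 h1
        omega
    have hr' : r' ≤ L := by
      rcases cr with h1 | ⟨h1, h2⟩
      · omega
      · have := d3 h1
        omega
    obtain ⟨a₁, ha₁, b1⟩ := sgn_pow (a := f.eval n) p' hsol'.s1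
    obtain ⟨a₂, ha₂, b2⟩ := sgn_pow (a := g.eval n) q' hsol'.s2
    obtain ⟨a₃, ha₃, b3⟩ := sgn_pow (a := h.eval n) r' hsol'.s3
    have heq := hsol'.eq
    rw [b1, b2, b3] at heq
    have hsg : ∀ {a : ℤ}, Sg a → a ∈ Finset.Icc (-1 : ℤ) 1 := by
      rintro a (rfl | rfl) <;> simp
    rw [Finset.mem_coe, Finset.mem_biUnion]
    refine ⟨((p', q', r'), (a₁, a₂, a₃)), ?_, ?_⟩
    · simp only [hI, Finset.mem_product, Finset.mem_range]
      exact ⟨⟨by omega, by omega, by omega⟩, hsg ha₁, hsg ha₂, hsg ha₃⟩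
    · rw [Finset.mem_image]
      refine ⟨n, ?_, ?_⟩
      · rw [Multiset.mem_toFinset, mem_roots (Pt_ne f g h hf0 hg0 hh0 hnc hfg ha₁ ha₂ ha₃ hsol'.p2
          hsol'.q2 hsol'.r2 hyp')]
        change (Pt f g h ((p', q', r'), (a₁, a₂, a₃))).eval n = 0
        simp only [Pt, eval_add, eval_mul, eval_C, eval_pow]
        exact heq
      · simp only [hφ, hx, hy, hz]
        rw [hv]
  have hcard : (I.biUnion fun t => (Pt f g h t).roots.toFinset.image (φ t)).card ≤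
      27 * (L + 1) ^ 3 * (L * E) := by
    have hIc : I.card = 27 * (L + 1) ^ 3 := by
      rw [hI]
      have h3 : (Finset.Icc (-1 : ℤ) 1).card = 3 := by rfl
      rw [Finset.card_product, Finset.card_product, Finset.card_product, Finset.card_product,
        Finset.card_product, Finset.card_range, h3]
      ring
    refine (Finset.card_biUnion_le_card_mul _ _ (L * E) ?_).trans (by rw [hIc])
    intro t ht
    refine Finset.card_image_le.trans ((Multiset.toFinset_card_le _).trans ((card_roots' _).trans ?_))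
    simp only [hI, Finset.mem_product, Finset.mem_range] at ht
    exact Pt_natDegree f g h L t (by omega) (by omega) (by omega)
  have hle : {w : ℤ × (ℕ × ℕ × ℕ) | |w.1| ≤ N ∧ ∃ p q r : ℕ,
        Terms (f.eval w.1).natAbs (g.eval w.1).natAbs (h.eval w.1).natAbs p q r ∧
        w.2 = ((f.eval w.1).natAbs ^ p, (g.eval w.1).natAbs ^ q,
          (h.eval w.1).natAbs ^ r)}.ncard ≤ 27 * (L + 1) ^ 3 * (L * E) := by
    refine (Set.ncard_le_ncard hsub (Finset.finite_toSet _)).trans ?_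
    rw [Set.ncard_coe_finset]
    exact hcard
  have hL1 : L + 1 ≤ C₁ * s ^ κ := by
    have h1 : C₀ * (D * s) ^ κ = C₀ * D ^ κ * s ^ κ := by rw [mul_pow]; ring
    have h2 : 1 ≤ s ^ κ := Nat.one_le_pow _ _ (by omega)
    rw [hL, h1, hC₁, add_mul]
    omega
  have h4 : 27 * (L + 1) ^ 3 * (L * E) ≤ 27 * E * C₁ ^ 4 * s ^ (4 * κ) := by
    calc 27 * (L + 1) ^ 3 * (L * E) ≤ 27 * (L + 1) ^ 3 * ((L + 1) * E) := by
          apply Nat.mul_le_mul_left
          apply Nat.mul_le_mul_right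
          omega
      _ = 27 * E * (L + 1) ^ 4 := by ring
      _ ≤ 27 * E * (C₁ * s ^ κ) ^ 4 := Nat.mul_le_mul_left _ (Nat.pow_le_pow_left hL1 4)
      _ = 27 * E * C₁ ^ 4 * s ^ (4 * κ) := by
          rw [mul_pow, ← pow_mul, mul_comm κ 4]
          ring
  have hs3 : (s : ℝ) ≤ 3 * Real.log N := by
    have hl2 : 0 < Real.log 2 := Real.log_pos (by norm_num)
    have hlN : Real.log 2 ≤ Real.log N := Real.log_le_log (by norm_num) (by exact_mod_cast hN)
    have h5 : (Nat.log 2 N : ℝ) * Real.log 2 ≤ Real.log N := by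
      rw [← Real.log_pow]
      apply Real.log_le_log (by positivity)
      exact_mod_cast Nat.pow_log_le_self 2 (by omega : N ≠ 0)
    have h6 : (0.6931471803 : ℝ) < Real.log 2 := Real.log_two_gt_d9
    have h7 : (s : ℝ) = (Nat.log 2 N : ℝ) + 1 := by rw [hs]; push_cast; ring
    rw [h7]
    nlinarith [Nat.cast_nonneg (α := ℝ) (Nat.log 2 N)]
  calc (({w : ℤ × (ℕ × ℕ × ℕ) | |w.1| ≤ N ∧ ∃ p q r : ℕ,
        Terms (f.eval w.1).natAbs (g.eval w.1).natAbs (h.eval w.1).natAbs p q r ∧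
        w.2 = ((f.eval w.1).natAbs ^ p, (g.eval w.1).natAbs ^ q,
          (h.eval w.1).natAbs ^ r)}.ncard : ℕ) : ℝ)
      ≤ ((27 * E * C₁ ^ 4 * s ^ (4 * κ) : ℕ) : ℝ) := by exact_mod_cast hle.trans h4
    _ = 27 * E * C₁ ^ 4 * (s : ℝ) ^ (4 * κ) := by push_cast; ring
    _ ≤ 27 * E * C₁ ^ 4 * (3 * Real.log N) ^ (4 * κ) := by gcongr
    _ = 27 * E * C₁ ^ 4 * 3 ^ (4 * κ) * Real.log N ^ (4 * κ) := by rw [mul_pow]; ring

end Pool.Agent.R477.FC
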