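import Mathlib
import Pool.Agent.R477.FC.FamMain

/-!
# Bases near powers of one number
-/

set_option autoImplicit false

namespace Pool.Agent.R477.FC

lemma binom_est {n : ℕ} {u : ℝ} (h : |(n : ℝ) * u| ≤ 1 / 64) (hu : -2 ≤ u) :
    1 + n * u ≤ (1 + u) ^ n ∧ (1 + u) ^ n ≤ 1 + n * u + |(n : ℝ) * u| / 64 := by
  refine ⟨one_add_mul_le_pow hu n, ?_⟩
  rcases Nat.eq_zero_or_pos n with h0 | h0
  · subst h0
    simp
  have hn : (1 : ℝ) ≤ n := by exact_mod_cast h0
  have hu1 : |u| ≤ 1 / 64 := by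
    rw [abs_mul, Nat.abs_cast] at h
    have : |u| ≤ n * |u| := le_mul_of_one_le_left (abs_nonneg _) hn
    linarith
  have hu2 := abs_le.1 hu1
  have h1 : (1 + u) ^ n ≤ Real.exp (n * u) := by
    rw [mul_comm, Real.exp_mul]
    rw [Real.rpow_natCast]
    apply pow_le_pow_left₀ (by linarith)
    have := Real.add_one_le_exp u
    linarith
  have h2 := Real.abs_exp_sub_one_sub_id_le (x := n * u) (by linarith)
  have h3 : (n * u) ^ 2 ≤ |(n : ℝ) * u| / 64 := by
    rw [← sq_abs, sq]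
    have := abs_nonneg ((n : ℝ) * u)
    nlinarith
  have h4 := (abs_le.1 h2).2
  linarith

/-- the relative error `u` of a number near `W ^ a`, and its power -/
lemma rel_near {X W A L : ℝ} {a : ℕ} (hW : 64 ≤ W) (ha : 1 ≤ a) (hX : |X - W ^ a| ≤ A)
    (hLA : 64 * (L * A) ≤ W) (hL : 1 ≤ L) :
    ∃ u : ℝ, X = W ^ a * (1 + u) ∧ u = (X - W ^ a) / W ^ a ∧ |u| ≤ 1 / 64 ∧
      ∀ p : ℕ, (p : ℝ) ≤ L → |(p : ℝ) * u| ≤ 1 / 64 ∧ |(p : ℝ) * u| * W ^ a ≤ L * A ∧
        1 + p * u ≤ (1 + u) ^ p ∧ (1 + u) ^ p ≤ 1 + p * u + |(p : ℝ) * u| / 64 := by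
  have hWa : 0 < W ^ a := by positivity
  have hWa1 : W ≤ W ^ a := le_self_pow₀ (by linarith) (by omega)
  have hA : 0 ≤ A := (abs_nonneg _).trans hX
  refine ⟨(X - W ^ a) / W ^ a, by field_simp; ring, rfl, ?_, ?_⟩
  · rw [abs_div, abs_of_pos hWa, div_le_iff₀ hWa]
    nlinarith
  · intro p hp
    set u := (X - W ^ a) / W ^ a with hu
    have hp0 : (0 : ℝ) ≤ p := Nat.cast_nonneg p
    have hu1 : |u| ≤ 1 / 64 := by
      rw [hu, abs_div, abs_of_pos hWa, div_le_iff₀ hWa]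
      nlinarith
    have h0 : |(p : ℝ) * u| * W ^ a ≤ L * A := by
      rw [abs_mul, Nat.abs_cast, hu, abs_div, abs_of_pos hWa]
      have h2 : (p : ℝ) * |X - W ^ a| ≤ L * A := mul_le_mul hp hX (abs_nonneg _) (hp0.trans hp)
      calc (p : ℝ) * (|X - W ^ a| / W ^ a) * W ^ a = p * |X - W ^ a| := by field_simp
        _ ≤ L * A := h2
    have h1 : |(p : ℝ) * u| ≤ 1 / 64 := by
      have := abs_nonneg ((p : ℝ) * u)
      nlinarith
    have h2 := binom_est h1 (by have := (abs_le.1 hu1).1; linarith)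
    exact ⟨h1, h0, h2⟩

lemma pow_near {X W A L : ℝ} {a p : ℕ} (hW : 64 ≤ W) (ha : 1 ≤ a) (hX : |X - W ^ a| ≤ A)
    (hLA : 64 * (L * A) ≤ W) (hL : 1 ≤ L) (hp : (p : ℝ) ≤ L) :
    63 / 64 * W ^ (a * p) ≤ X ^ p ∧ X ^ p ≤ 33 / 32 * W ^ (a * p) := by
  obtain ⟨u, h1, -, -, h2⟩ := rel_near hW ha hX hLA hL
  obtain ⟨h3, h3', h4, h5⟩ := h2 p hp
  have h6 := abs_le.1 h3
  have h7 : X ^ p = W ^ (a * p) * (1 + u) ^ p := by rw [h1, mul_pow, ← pow_mul]
  rw [h7]
  have h5 : 0 < W ^ (a * p) := by positivity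
  constructor
  · nlinarith
  · nlinarith

lemma fin_contra {W M Y : ℝ} {K N : ℕ} (hW : 64 ≤ W) (hM : 2 ≤ M) (hMW : M ≤ W / 32)
    (h1 : 31 / 32 * (M * W ^ K) ≤ Y) (h2 : Y ≤ 33 / 32 * (M * W ^ K))
    (h3 : 63 / 64 * W ^ N ≤ Y) (h4 : Y ≤ 33 / 32 * W ^ N) : False := by
  have hK : 0 < W ^ K := by positivity
  rcases Nat.lt_or_ge K N with h | h
  · have h5 : W ^ K * W ≤ W ^ N := by
      rw [← pow_succ]
      exact pow_le_pow_right₀ (by linarith) h
    have h6 : M * W ^ K ≤ W / 32 * W ^ K := mul_le_mul_of_nonneg_right hMW hK.le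
    nlinarith [mul_pos hK (by linarith : (0 : ℝ) < W)]
  · have h5 : W ^ N ≤ W ^ K := pow_le_pow_right₀ (by linarith) h
    nlinarith

/-- the difference of two near powers, when one of the bases is much closer to its power of `W` -/
lemma diff_near {X Z Y W A L : ℝ} {a c p r N : ℕ} (hW : 64 ≤ W) (ha : 1 ≤ a) (hac : a < c)
    (hX : |X - W ^ a| ≤ A) (hZ : |Z - W ^ c| ≤ A) (hLA : 64 * (L * A) ≤ W) (hL : 1 ≤ L)
    (hp : (p : ℝ) ≤ L) (hr : (r : ℝ) ≤ L) (hp2 : 2 ≤ p) (hr2 : 2 ≤ r) (hE : a * p = c * r)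
    (hXi : X = W ^ a ∨ 1 ≤ |X - W ^ a|) (hZi : Z = W ^ c ∨ 1 ≤ |Z - W ^ c|) (hY : 0 < Y)
    (hYe : Y = Z ^ r - X ^ p ∨ Y = X ^ p - Z ^ r)
    (h3 : 63 / 64 * W ^ N ≤ Y) (h4 : Y ≤ 33 / 32 * W ^ N) : False := by
  have hA : 0 ≤ A := (abs_nonneg _).trans hX
  have hWa : 0 < W ^ a := by positivity
  have hWc : 0 < W ^ c := by positivity
  obtain ⟨u, hu1, hu2, -, hu3⟩ := rel_near hW ha hX hLA hL
  obtain ⟨v, hv1, hv2, -, hv3⟩ := rel_near hW (by omega) hZ hLA hL
  obtain ⟨u4, u5, u6, u7⟩ := hu3 p hp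
  obtain ⟨v4, v5, v6, v7⟩ := hv3 r hr
  have hXp : X ^ p = W ^ (a * p) * (1 + u) ^ p := by rw [hu1, mul_pow, ← pow_mul]
  have hZr : Z ^ r = W ^ (a * p) * (1 + v) ^ r := by rw [hv1, mul_pow, ← pow_mul, hE]
  have hWE : 0 < W ^ (a * p) := by positivity
  have hp2' : (2 : ℝ) ≤ p := by exact_mod_cast hp2
  have hr2' : (2 : ℝ) ≤ r := by exact_mod_cast hr2
  rcases hXi with hX0 | hX1
  · -- `X = W ^ a`
    have hu0 : u = 0 := by rw [hu2, hX0]; simp
    rw [hu0] at hXp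
    rcases hZi with hZ0 | hZ1
    · have hv0 : v = 0 := by rw [hv2, hZ0]; simp
      rw [hv0] at hZr
      rcases hYe with h | h <;> rw [h, hXp, hZr] at hY <;> simp at hY
    · -- `M = r |Z - W ^ c|`, `K = a p - c`
      have hcE : c ≤ a * p := by rw [hE]; exact Nat.le_mul_of_pos_right _ (by omega)
      have hKE : W ^ (a * p) = W ^ (a * p - c) * W ^ c := by rw [← pow_add]; congr 1; omega
      have hM : |(r : ℝ) * v| * W ^ (a * p) = (r * |Z - W ^ c|) * W ^ (a * p - c) := by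
        rw [hKE, abs_mul, Nat.abs_cast, hv2, abs_div, abs_of_pos hWc]
        field_simp
      have hYab : |Y - |(r : ℝ) * v| * W ^ (a * p)| ≤ 1 / 32 * (|(r : ℝ) * v| * W ^ (a * p)) := by
        have hd : |(1 + v) ^ r - 1 - r * v| ≤ |(r : ℝ) * v| / 32 := by
          rw [abs_le]
          have := abs_nonneg ((r : ℝ) * v)
          constructor <;> linarith
        have hYv : Y = W ^ (a * p) * |(1 + v) ^ r - 1| := by
          have h5 : |Y| = |Z ^ r - X ^ p| := by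
            rcases hYe with h | h
            · rw [h]
            · rw [h, abs_sub_comm]
          rw [abs_of_pos hY] at h5
          rw [h5, hXp, hZr]
          have : W ^ (a * p) * (1 + v) ^ r - W ^ (a * p) * (1 + 0) ^ p =
              W ^ (a * p) * ((1 + v) ^ r - 1) := by simp; ring
          rw [this, abs_mul, abs_of_pos hWE]
        have h6 : |(|(1 + v) ^ r - 1| - |(r : ℝ) * v|)| ≤ |(r : ℝ) * v| / 32 := by
          refine (abs_abs_sub_abs_le_abs_sub _ _).trans ?_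
          exact hd
        rw [hYv]
        have : W ^ (a * p) * |(1 + v) ^ r - 1| - |(r : ℝ) * v| * W ^ (a * p) =
            W ^ (a * p) * (|(1 + v) ^ r - 1| - |(r : ℝ) * v|) := by ring
        rw [this, abs_mul, abs_of_pos hWE]
        calc W ^ (a * p) * |(|(1 + v) ^ r - 1| - |(r : ℝ) * v|)| ≤
              W ^ (a * p) * (|(r : ℝ) * v| / 32) := mul_le_mul_of_nonneg_left h6 hWE.le
          _ = _ := by ring
      rw [hM] at hYab
      have h7 := abs_le.1 hYab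
      have hM2 : 2 ≤ (r : ℝ) * |Z - W ^ c| := by nlinarith
      have hM3 : (r : ℝ) * |Z - W ^ c| ≤ L * A := mul_le_mul hr hZ (abs_nonneg _) (by linarith)
      exact fin_contra (K := a * p - c) hW hM2 (by linarith) (by linarith) (by linarith) h3 h4
  · -- `M = p |X - W ^ a|`, `K = a p - a`
    have haE : a ≤ a * p := Nat.le_mul_of_pos_right _ (by omega)
    have hKE : W ^ (a * p) = W ^ (a * p - a) * W ^ a := by rw [← pow_add]; congr 1; omega
    have hM : |(p : ℝ) * u| * W ^ (a * p) = (p * |X - W ^ a|) * W ^ (a * p - a) := by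
      rw [hKE, abs_mul, Nat.abs_cast, hu2, abs_div, abs_of_pos hWa]
      field_simp
    have hub : 2 ≤ |(p : ℝ) * u| * W ^ a := by
      rw [abs_mul, Nat.abs_cast, hu2, abs_div, abs_of_pos hWa]
      have : (p : ℝ) * (|X - W ^ a| / W ^ a) * W ^ a = p * |X - W ^ a| := by field_simp
      rw [this]
      nlinarith
    have hvb : |(r : ℝ) * v| * W ^ a ≤ 1 / 64 := by
      have h5 : W ^ a * W ≤ W ^ c := by
        rw [← pow_succ]
        exact pow_le_pow_right₀ (by linarith) hac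
      have h6 : |(r : ℝ) * v| * (W ^ a * W) ≤ L * A :=
        (mul_le_mul_of_nonneg_left h5 (abs_nonneg _)).trans v5
      have h7 : (|(r : ℝ) * v| * W ^ a) * W ≤ 1 / 64 * W := by linarith
      exact le_of_mul_le_mul_right h7 (by linarith)
    have huv : |(r : ℝ) * v| ≤ |(p : ℝ) * u| / 128 := by
      have h8 : |(r : ℝ) * v| * W ^ a ≤ (|(p : ℝ) * u| / 128) * W ^ a := by linarith
      exact le_of_mul_le_mul_right h8 hWa
    have hd : |(1 + v) ^ r - (1 + u) ^ p + p * u| ≤ |(p : ℝ) * u| / 32 := by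
      have := neg_abs_le ((r : ℝ) * v)
      have := le_abs_self ((r : ℝ) * v)
      rw [abs_le]
      constructor <;> linarith [abs_nonneg ((p : ℝ) * u)]
    have hYv : Y = W ^ (a * p) * |(1 + v) ^ r - (1 + u) ^ p| := by
      have h5 : |Y| = |Z ^ r - X ^ p| := by
        rcases hYe with h | h
        · rw [h]
        · rw [h, abs_sub_comm]
      rw [abs_of_pos hY] at h5
      rw [h5, hXp, hZr]
      have : W ^ (a * p) * (1 + v) ^ r - W ^ (a * p) * (1 + u) ^ p =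
          W ^ (a * p) * ((1 + v) ^ r - (1 + u) ^ p) := by ring
      rw [this, abs_mul, abs_of_pos hWE]
    have hYab : |Y - |(p : ℝ) * u| * W ^ (a * p)| ≤ 1 / 32 * (|(p : ℝ) * u| * W ^ (a * p)) := by
      have h6 : |(|(1 + v) ^ r - (1 + u) ^ p| - |(p : ℝ) * u|)| ≤ |(p : ℝ) * u| / 32 := by
        have h7 := abs_abs_sub_abs_le_abs_sub ((1 + v) ^ r - (1 + u) ^ p) (-(p * u))
        rw [abs_neg, sub_neg_eq_add] at h7
        exact h7.trans hd
      rw [hYv]
      have : W ^ (a * p) * |(1 + v) ^ r - (1 + u) ^ p| - |(p : ℝ) * u| * W ^ (a * p) =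
          W ^ (a * p) * (|(1 + v) ^ r - (1 + u) ^ p| - |(p : ℝ) * u|) := by ring
      rw [this, abs_mul, abs_of_pos hWE]
      calc W ^ (a * p) * |(|(1 + v) ^ r - (1 + u) ^ p| - |(p : ℝ) * u|)| ≤
            W ^ (a * p) * (|(p : ℝ) * u| / 32) := mul_le_mul_of_nonneg_left h6 hWE.le
        _ = _ := by ring
    rw [hM] at hYab
    have h7 := abs_le.1 hYab
    have hM2 : 2 ≤ (p : ℝ) * |X - W ^ a| := by nlinarith
    have hM3 : (p : ℝ) * |X - W ^ a| ≤ L * A := mul_le_mul hp hX (abs_nonneg _) (by linarith)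
    exact fin_contra (K := a * p - a) hW hM2 (by linarith) (by linarith) (by linarith) h3 h4

end Pool.Agent.R477.FC
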