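import Mathlib
import Pool.Agent.R477.FC.Near

/-!
# Bases near powers of one number: the theorem
-/

set_option autoImplicit false

namespace Pool.Agent.R477.FC

lemma pow_diff {X Z : ℝ} {p : ℕ} (hX : 0 < X) (hXZ : X ≤ Z) (hp : 1 ≤ p) :
    p * (Z - X) * X ^ (p - 1) ≤ Z ^ p - X ^ p ∧ Z ^ p - X ^ p ≤ p * (Z - X) * Z ^ (p - 1) := by
  obtain ⟨j, rfl⟩ : ∃ j, p = j + 1 := ⟨p - 1, by omega⟩
  rw [Nat.add_sub_cancel]
  have hZ : 0 < Z := hX.trans_le hXZ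
  constructor
  · have h1 := one_add_mul_le_pow (a := (Z - X) / X) (by
      have : 0 ≤ (Z - X) / X := div_nonneg (by linarith) hX.le
      linarith) (j + 1)
    have h2 : (1 + (Z - X) / X) ^ (j + 1) * X ^ (j + 1) = Z ^ (j + 1) := by
      rw [← mul_pow]
      congr 1
      field_simp
      ring
    have h3 : (1 + ((j + 1 : ℕ) : ℝ) * ((Z - X) / X)) * X ^ (j + 1) =
        X ^ (j + 1) + ((j + 1 : ℕ) : ℝ) * (Z - X) * X ^ j := by
      rw [pow_succ]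
      field_simp
    have h4 := mul_le_mul_of_nonneg_right h1 (pow_pos hX (j + 1)).le
    rw [h2, h3] at h4
    linarith
  · have h1 := one_add_mul_le_pow (a := (X - Z) / Z) (by
      have : -1 ≤ (X - Z) / Z := by
        rw [le_div_iff₀ hZ]
        linarith
      linarith) (j + 1)
    have h2 : (1 + (X - Z) / Z) ^ (j + 1) * Z ^ (j + 1) = X ^ (j + 1) := by
      rw [← mul_pow]
      congr 1
      field_simp
      ring
    have h3 : (1 + ((j + 1 : ℕ) : ℝ) * ((X - Z) / Z)) * Z ^ (j + 1) =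
        Z ^ (j + 1) - ((j + 1 : ℕ) : ℝ) * (Z - X) * Z ^ j := by
      rw [pow_succ]
      field_simp
      ring
    have h4 := mul_le_mul_of_nonneg_right h1 (pow_pos hZ (j + 1)).le
    rw [h2, h3] at h4
    linarith

lemma int_near {x w a : ℕ} : (x : ℝ) = (w : ℝ) ^ a ∨ 1 ≤ |(x : ℝ) - (w : ℝ) ^ a| := by
  rcases eq_or_ne ((x : ℤ) - (w : ℤ) ^ a) 0 with h | h
  · left
    have : (x : ℤ) = (w : ℤ) ^ a := by omega
    exact_mod_cast this
  · right
    have := Int.one_le_abs h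
    exact_mod_cast this

/-- If the three bases are near powers of `w` and the exponents are small, there is no solution. -/
theorem near_core {w x y z p q r a b c : ℕ} {A L : ℝ} (hw : 64 ≤ (w : ℝ)) (ha : 1 ≤ a)
    (hb : 1 ≤ b) (hc : 1 ≤ c) (hx : |(x : ℝ) - (w : ℝ) ^ a| ≤ A)
    (hy : |(y : ℝ) - (w : ℝ) ^ b| ≤ A) (hz : |(z : ℝ) - (w : ℝ) ^ c| ≤ A)
    (hLA : 64 * (L * A) ≤ (w : ℝ)) (hL : 1 ≤ L) (hp : (p : ℝ) ≤ L) (hq : (q : ℝ) ≤ L)
    (hr : (r : ℝ) ≤ L) (hp2 : 2 ≤ p) (hr2 : 2 ≤ r) (hx0 : 0 < x) (hy0 : 0 < y)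
    (heq : x ^ p + y ^ q = z ^ r) (hxy : y ^ q ≤ x ^ p) : False := by
  obtain ⟨W, hW⟩ : ∃ W : ℝ, W = (w : ℝ) := ⟨_, rfl⟩
  have hxi := int_near (x := x) (w := w) (a := a)
  have hzi := int_near (x := z) (w := w) (a := c)
  rw [← hW] at hw hx hy hz hLA hxi hzi
  obtain ⟨x1, x2⟩ := pow_near hw ha hx hLA hL hp
  obtain ⟨y1, y2⟩ := pow_near hw hb hy hLA hL hq
  obtain ⟨z1, z2⟩ := pow_near hw hc hz hLA hL hr
  have heq' : (x : ℝ) ^ p + (y : ℝ) ^ q = (z : ℝ) ^ r := by exact_mod_cast heq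
  have hxy' : (y : ℝ) ^ q ≤ (x : ℝ) ^ p := by exact_mod_cast hxy
  have hy0' : (0 : ℝ) < (y : ℝ) ^ q := by positivity
  have hE : a * p = c * r := by
    rcases lt_trichotomy (a * p) (c * r) with h | h | h
    · exfalso
      have h5 : W ^ (a * p) * W ≤ W ^ (c * r) := by
        rw [← pow_succ]
        exact pow_le_pow_right₀ (by linarith) h
      have h6 : 0 < W ^ (a * p) := by positivity
      nlinarith
    · exact h
    · exfalso
      have h5 : W ^ (c * r) * W ≤ W ^ (a * p) := by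
        rw [← pow_succ]
        exact pow_le_pow_right₀ (by linarith) h
      have h6 : 0 < W ^ (c * r) := by positivity
      nlinarith
  rcases lt_trichotomy a c with h | h | h
  · exact diff_near (Y := (y : ℝ) ^ q) hw ha h hx hz hLA hL hp hr hp2 hr2 hE hxi hzi hy0'
      (Or.inl (by linarith)) y1 y2
  · subst h
    have hpr : p = r := Nat.eq_of_mul_eq_mul_left (by omega) hE
    subst hpr
    have hxz : x < z := by
      by_contra hcon
      have h1 : z ^ p ≤ x ^ p := Nat.pow_le_pow_left (by omega) p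
      have h2 : 0 < y ^ q := by positivity
      omega
    have hXZ : (x : ℝ) + 1 ≤ z := by exact_mod_cast hxz
    have hX0 : (0 : ℝ) < x := by exact_mod_cast hx0
    obtain ⟨d1, d2⟩ := pow_diff (X := (x : ℝ)) (Z := (z : ℝ)) (p := p) hX0 (by linarith) (by omega)
    have hp1 : ((p - 1 : ℕ) : ℝ) ≤ L := by
      have : ((p - 1 : ℕ) : ℝ) ≤ p := by exact_mod_cast Nat.sub_le p 1
      linarith
    obtain ⟨a1, a2⟩ := pow_near hw ha hx hLA hL hp1
    obtain ⟨b1, b2⟩ := pow_near hw ha hz hLA hL hp1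
    have hA : 0 ≤ A := (abs_nonneg _).trans hx
    have hd : (z : ℝ) - x ≤ 2 * A := by
      have e1 := abs_le.1 hx
      have e2 := abs_le.1 hz
      linarith
    have hp2' : (2 : ℝ) ≤ p := by exact_mod_cast hp2
    have hM2 : 2 ≤ (p : ℝ) * (z - x) := by nlinarith
    have hM3 : (p : ℝ) * (z - x) ≤ W / 32 := by
      have : (p : ℝ) * (z - x) ≤ L * (2 * A) := mul_le_mul hp hd (by linarith) (by linarith)
      linarith
    have hM0 : 0 ≤ (p : ℝ) * (z - x) := by linarith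
    have hYe : (y : ℝ) ^ q = (z : ℝ) ^ p - (x : ℝ) ^ p := by linarith
    have hWk : 0 < W ^ (a * (p - 1)) := by positivity
    refine fin_contra (K := a * (p - 1)) (M := (p : ℝ) * (z - x)) hw hM2 hM3 ?_ ?_ y1 y2
    · rw [hYe]
      refine le_trans ?_ d1
      calc 31 / 32 * ((p : ℝ) * (z - x) * W ^ (a * (p - 1))) ≤
            (p : ℝ) * (z - x) * (63 / 64 * W ^ (a * (p - 1))) := by nlinarith [mul_nonneg hM0 hWk.le]
        _ ≤ _ := mul_le_mul_of_nonneg_left a1 hM0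
    · rw [hYe]
      refine d2.trans ?_
      calc (p : ℝ) * (z - x) * (z : ℝ) ^ (p - 1) ≤
            (p : ℝ) * (z - x) * (33 / 32 * W ^ (a * (p - 1))) := mul_le_mul_of_nonneg_left b2 hM0
        _ = _ := by ring
  · exact diff_near (Y := (y : ℝ) ^ q) hw hc h hz hx hLA hL hr hp hr2 hp2 hE.symm hzi hxi hy0'
      (Or.inr (by linarith)) y1 y2

/-- the value triples of the solutions with exponents `≥ 2` whose bases are, up to
`w / (log w) ^ κ`, powers `w ^ a`, `w ^ b`, `w ^ c` with `1 ≤ a, b, c ≤ D` -/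
def NearSet (κ D : ℕ) : Set (ℕ × ℕ × ℕ) :=
  {v | ∃ x y z p q r w a b c : ℕ, 0 < x ∧ 0 < y ∧ 0 < z ∧ Nat.Coprime x y ∧ Nat.Coprime x z ∧
    Nat.Coprime y z ∧ 2 ≤ p ∧ 2 ≤ q ∧ 2 ≤ r ∧ x ^ p + y ^ q = z ^ r ∧ v = (x ^ p, y ^ q, z ^ r) ∧
    2 ≤ w ∧ 1 ≤ a ∧ a ≤ D ∧ 1 ≤ b ∧ b ≤ D ∧ 1 ≤ c ∧ c ≤ D ∧
    |(x : ℝ) - (w : ℝ) ^ a| * Real.log w ^ κ ≤ w ∧ |(y : ℝ) - (w : ℝ) ^ b| * Real.log w ^ κ ≤ w ∧
    |(z : ℝ) - (w : ℝ) ^ c| * Real.log w ^ κ ≤ w}

theorem near_main : ∃ κ : ℕ, ∀ D : ℕ, (NearSet κ D).Finite := by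
  obtain ⟨C₀, κ, hC₀⟩ := exps
  refine ⟨κ + 1, fun D => ?_⟩
  -- the bound for `w`
  set C₁ : ℕ := C₀ * (D + 1) ^ κ + 1 with hC₁
  obtain ⟨w₀, hw₀⟩ : ∃ w₀ : ℕ, ∀ w : ℕ, w₀ ≤ w →
      64 ≤ w ∧ 3 ≤ Real.log w ∧ 64 * (C₁ : ℝ) * 3 ^ κ ≤ Real.log w := by
    have h1 : Filter.Tendsto (fun n : ℕ => Real.log (n : ℝ)) Filter.atTop Filter.atTop :=
      Real.tendsto_log_atTop.comp tendsto_natCast_atTop_atTop
    have h2 := h1.eventually_ge_atTop (max 3 (64 * (C₁ : ℝ) * 3 ^ κ))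
    obtain ⟨w₁, hw₁⟩ := Filter.eventually_atTop.1 h2
    refine ⟨w₁ + 64, fun w hw => ⟨by omega, ?_, ?_⟩⟩
    · exact (le_max_left _ _).trans (hw₁ w (by omega))
    · exact (le_max_right _ _).trans (hw₁ w (by omega))
  -- small `w`: finitely many triples
  have hsmall : ∃ B : ℕ, ∀ w a x : ℕ, w < w₀ → 2 ≤ w → a ≤ D →
      |(x : ℝ) - (w : ℝ) ^ a| * Real.log w ^ (κ + 1) ≤ w → x ≤ B := by
    have hl2 : 0 < Real.log 2 := Real.log_pos (by norm_num)
    obtain ⟨B, hB⟩ := exists_nat_ge ((w₀ : ℝ) / Real.log 2 ^ (κ + 1) + (w₀ : ℝ) ^ D)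
    refine ⟨B, fun w a x hw hw2 ha h => ?_⟩
    have hlw : Real.log 2 ≤ Real.log w := Real.log_le_log (by norm_num) (by exact_mod_cast hw2)
    have h1 : |(x : ℝ) - (w : ℝ) ^ a| * Real.log 2 ^ (κ + 1) ≤ w₀ := by
      calc |(x : ℝ) - (w : ℝ) ^ a| * Real.log 2 ^ (κ + 1)
          ≤ |(x : ℝ) - (w : ℝ) ^ a| * Real.log w ^ (κ + 1) :=
            mul_le_mul_of_nonneg_left (pow_le_pow_left₀ hl2.le hlw _) (abs_nonneg _)
        _ ≤ w := h
        _ ≤ w₀ := by exact_mod_cast hw.le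
    have h2 : |(x : ℝ) - (w : ℝ) ^ a| ≤ (w₀ : ℝ) / Real.log 2 ^ (κ + 1) := by
      rw [le_div_iff₀ (by positivity)]
      exact h1
    have h3 : (w : ℝ) ^ a ≤ (w₀ : ℝ) ^ D := by
      have h4 : w ^ a ≤ w₀ ^ D := (Nat.pow_le_pow_left hw.le a).trans
        (Nat.pow_le_pow_right (by omega) ha)
      exact_mod_cast h4
    have h4 := (abs_le.1 h2).2
    have h5 : (x : ℝ) ≤ B := by linarith
    exact_mod_cast h5
  obtain ⟨B, hB⟩ := hsmall
  obtain ⟨V, hV⟩ := vals_fin B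
  refine ((Set.finite_Iic V).prod ((Set.finite_Iic V).prod (Set.finite_Iic V))).subset ?_
  rintro v ⟨x, y, z, p, q, r, w, a, b, c, hx0, hy0, hz0, hxy, hxz, hyz, hp2, hq2, hr2, heq, rfl, hw2,
    ha, haD, hb, hbD, hc, hcD, hx, hy, hz⟩
  have hs : SSol x y z p q r 1 1 (-1) := ⟨hx0, hy0, hz0, hxy, hxz, hyz, hp2, hq2, hr2, Or.inl rfl,
    Or.inl rfl, Or.inr rfl, by
      have : (x : ℤ) ^ p + (y : ℤ) ^ q = (z : ℤ) ^ r := by exact_mod_cast heq
      linarith⟩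
  rcases Nat.lt_or_ge w w₀ with hw | hw
  · obtain ⟨v1, v2, v3⟩ := hV x y z p q r 1 1 (-1) hs (hB w a x hw hw2 haD hx)
      (hB w b y hw hw2 hbD hy) (hB w c z hw hw2 hcD hz)
    simp only [Set.mem_prod, Set.mem_Iic]
    exact ⟨v1, v2, v3⟩
  exfalso
  obtain ⟨hw64, hlog3, hlogC⟩ := hw₀ w hw
  have hlog0 : 0 < Real.log w := by linarith
  have hw64' : (64 : ℝ) ≤ w := by exact_mod_cast hw64
  -- the error
  set A : ℝ := (w : ℝ) / Real.log w ^ (κ + 1) with hA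
  have hlk : 0 < Real.log w ^ (κ + 1) := by positivity
  have hxA : |(x : ℝ) - (w : ℝ) ^ a| ≤ A := by rw [hA, le_div_iff₀ hlk]; exact hx
  have hyA : |(y : ℝ) - (w : ℝ) ^ b| ≤ A := by rw [hA, le_div_iff₀ hlk]; exact hy
  have hzA : |(z : ℝ) - (w : ℝ) ^ c| ≤ A := by rw [hA, le_div_iff₀ hlk]; exact hz
  have hAw : A ≤ w := by
    rw [hA]
    apply div_le_self (by positivity)
    exact one_le_pow₀ (by linarith)
  -- the exponents
  set s := Nat.log 2 w + 1 with hs'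
  have hws : w < 2 ^ s := Nat.lt_pow_succ_log_self (by norm_num) w
  have hs3 : (s : ℝ) ≤ 3 * Real.log w := by
    have h5 : (Nat.log 2 w : ℝ) * Real.log 2 ≤ Real.log w := by
      rw [← Real.log_pow]
      apply Real.log_le_log (by positivity)
      exact_mod_cast Nat.pow_log_le_self 2 (by omega : w ≠ 0)
    have h6 : (0.6931471803 : ℝ) < Real.log 2 := Real.log_two_gt_d9
    have h7 : (s : ℝ) = (Nat.log 2 w : ℝ) + 1 := by rw [hs']; push_cast; ring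
    rw [h7]
    nlinarith [Nat.cast_nonneg (α := ℝ) (Nat.log 2 w)]
  have hbase : ∀ {u e : ℕ}, e ≤ D → 1 ≤ e → |(u : ℝ) - (w : ℝ) ^ e| ≤ A → u ≤ 2 ^ ((D + 1) * s) := by
    intro u e he he1 hu
    have h1 : (u : ℝ) ≤ (w : ℝ) ^ e + w := by
      have := (abs_le.1 hu).2
      linarith
    have h2 : u ≤ w ^ e + w := by exact_mod_cast h1
    calc u ≤ w ^ e + w := h2
      _ ≤ w ^ D + w ^ D := Nat.add_le_add (Nat.pow_le_pow_right (by omega) he)
          (Nat.le_self_pow (by omega) w)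
      _ = 2 * w ^ D := by ring
      _ ≤ w * w ^ D := Nat.mul_le_mul_right _ (by omega)
      _ = w ^ (D + 1) := by ring
      _ ≤ (2 ^ s) ^ (D + 1) := Nat.pow_le_pow_left hws.le _
      _ = 2 ^ ((D + 1) * s) := by rw [← pow_mul, mul_comm]
  have hs2 : 2 ≤ s := by
    have : 1 ≤ Nat.log 2 w := Nat.log_pos (by norm_num) hw2
    omega
  have hSs : 2 ≤ (D + 1) * s := by
    calc 2 ≤ 1 * s := by omega
      _ ≤ (D + 1) * s := Nat.mul_le_mul_right _ (by omega)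
  obtain ⟨d1, d2, d3⟩ := hC₀ ((D + 1) * s) hSs x y z p q r 1 1 (-1) hs (hbase haD ha hxA)
    (hbase hbD hb hyA) (hbase hcD hc hzA)
  have hlow : ∀ {u e : ℕ}, 1 ≤ e → |(u : ℝ) - (w : ℝ) ^ e| ≤ A → 2 ≤ u := by
    intro u e he hu
    have h1 : (w : ℝ) ≤ (w : ℝ) ^ e := le_self_pow₀ (by linarith) (by omega)
    have h2 : A ≤ w / 2 := by
      rw [hA]
      apply div_le_div_of_nonneg_left (by positivity) (by norm_num)
      calc (2 : ℝ) ≤ Real.log w := by linarith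
        _ ≤ Real.log w ^ (κ + 1) := le_self_pow₀ (by linarith) (by omega)
    have h3 := (abs_le.1 hu).1
    have h4 : (2 : ℝ) ≤ u := by linarith
    exact_mod_cast h4
  have h1 := d1 (hlow ha hxA)
  have h2 := d2 (hlow hb hyA)
  have h3 := d3 (hlow hc hzA)
  set L : ℕ := C₀ * ((D + 1) * s) ^ κ + 1 with hL
  have hLs : (L : ℝ) ≤ C₁ * (s : ℝ) ^ κ := by
    have h4 : L ≤ C₁ * s ^ κ := by
      have h5 : C₀ * ((D + 1) * s) ^ κ = C₀ * (D + 1) ^ κ * s ^ κ := by rw [mul_pow]; ring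
      have h6 : 1 ≤ s ^ κ := Nat.one_le_pow _ _ (by omega)
      rw [hL, h5, hC₁, add_mul, one_mul]
      omega
    exact_mod_cast h4
  have hLA : 64 * ((L : ℝ) * A) ≤ w := by
    have h4 : (L : ℝ) ≤ C₁ * 3 ^ κ * Real.log w ^ κ := by
      calc (L : ℝ) ≤ C₁ * (s : ℝ) ^ κ := hLs
        _ ≤ C₁ * (3 * Real.log w) ^ κ := by gcongr
        _ = _ := by rw [mul_pow]; ring
    have h5 : 64 * (L : ℝ) ≤ Real.log w ^ (κ + 1) := by
      calc 64 * (L : ℝ) ≤ 64 * (C₁ * 3 ^ κ * Real.log w ^ κ) := by linarith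
        _ = (64 * C₁ * 3 ^ κ) * Real.log w ^ κ := by ring
        _ ≤ Real.log w * Real.log w ^ κ := mul_le_mul_of_nonneg_right hlogC (by positivity)
        _ = _ := by ring
    rw [hA]
    calc 64 * ((L : ℝ) * (w / Real.log w ^ (κ + 1))) = (64 * L) * w / Real.log w ^ (κ + 1) := by ring
      _ ≤ Real.log w ^ (κ + 1) * w / Real.log w ^ (κ + 1) := by gcongr
      _ = w := by field_simp
  have hL1 : (1 : ℝ) ≤ L := by
    have : 1 ≤ L := by omega
    exact_mod_cast this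
  have hpL : (p : ℝ) ≤ L := by exact_mod_cast (by omega : p ≤ L)
  have hqL : (q : ℝ) ≤ L := by exact_mod_cast (by omega : q ≤ L)
  have hrL : (r : ℝ) ≤ L := by exact_mod_cast (by omega : r ≤ L)
  rcases le_total (y ^ q) (x ^ p) with h | h
  · exact near_core hw64' ha hb hc hxA hyA hzA hLA hL1 hpL hqL hrL hp2 hr2 hx0 hy0 heq h
  · exact near_core hw64' hb ha hc hyA hxA hzA hLA hL1 hqL hpL hrL hq2 hr2 hy0 hx0
      (by rw [add_comm]; exact heq) h

end Pool.Agent.R477.FC
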