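import Mathlib
import Pool.Agent.R477.FC.Cong2
import Pool.Agent.R477.FC.Near2

/-!
# Monic polynomials with small coefficients: domination, differences of powers
-/

set_option autoImplicit false

namespace Pool.Agent.R477.FC

open Polynomial

/-- `|coeff (n - j)| ≤ K M ^ j` and degree at most `n` -/
structure Dom (F : ℤ[X]) (n : ℕ) (K M : ℤ) : Prop where
  deg : F.natDegree ≤ n
  le : ∀ i j : ℕ, i + j = n → |F.coeff i| ≤ K * M ^ j

lemma sum_pow_le (a b : ℤ) (ha : 0 ≤ a) (hb : 0 ≤ b) (j : ℕ) :
    ∑ x ∈ Finset.HasAntidiagonal.antidiagonal j, a ^ x.1 * b ^ x.2 ≤ (a + b) ^ j := by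
  rw [(Commute.all a b).add_pow']
  apply Finset.sum_le_sum
  intro x hx
  have h1 : 1 ≤ j.choose x.1 := by
    have := Finset.HasAntidiagonal.mem_antidiagonal.1 hx
    exact Nat.choose_pos (by omega)
  have h2 : 0 ≤ a ^ x.1 * b ^ x.2 := by positivity
  rw [nsmul_eq_mul]
  calc a ^ x.1 * b ^ x.2 = 1 * (a ^ x.1 * b ^ x.2) := (one_mul _).symm
    _ ≤ (j.choose x.1 : ℤ) * (a ^ x.1 * b ^ x.2) :=
        mul_le_mul_of_nonneg_right (by exact_mod_cast h1) h2

lemma Dom.mul {A B : ℤ[X]} {n m : ℕ} {K K' M N : ℤ} (hK : 0 ≤ K) (hK' : 0 ≤ K') (hM : 0 ≤ M)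
    (hN : 0 ≤ N) (hA : Dom A n K M) (hB : Dom B m K' N) : Dom (A * B) (n + m) (K * K') (M + N) := by
  refine ⟨natDegree_mul_le.trans (Nat.add_le_add hA.deg hB.deg), fun i j hij => ?_⟩
  rw [coeff_mul]
  refine (Finset.abs_sum_le_sum_abs _ _).trans ?_
  refine le_trans ?_ (mul_le_mul_of_nonneg_left (sum_pow_le M N hM hN j) (mul_nonneg hK hK'))
  rw [Finset.mul_sum]
  -- only the pairs `(i₁, i₂)` with `i₁ ≤ n`, `i₂ ≤ m` matter; map them to `(n - i₁, m - i₂)`
  rw [← Finset.sum_filter_add_sum_filter_not (Finset.HasAntidiagonal.antidiagonal i) (fun x => x.1 ≤ n ∧ x.2 ≤ m)]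
  have h0 : ∑ x ∈ (Finset.HasAntidiagonal.antidiagonal i).filter (fun x => ¬ (x.1 ≤ n ∧ x.2 ≤ m)),
      |A.coeff x.1 * B.coeff x.2| = 0 := by
    apply Finset.sum_eq_zero
    intro x hx
    rw [Finset.mem_filter] at hx
    rcases not_and_or.1 hx.2 with h1 | h1
    · rw [coeff_eq_zero_of_natDegree_lt (lt_of_le_of_lt hA.deg (by omega))]
      simp
    · rw [coeff_eq_zero_of_natDegree_lt (p := B) (lt_of_le_of_lt hB.deg (by omega))]
      simp
  rw [h0, add_zero]
  have h1 : ∀ x ∈ (Finset.HasAntidiagonal.antidiagonal i).filter (fun x => x.1 ≤ n ∧ x.2 ≤ m),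
      |A.coeff x.1 * B.coeff x.2| ≤ K * K' * (M ^ (n - x.1) * N ^ (m - x.2)) := by
    intro x hx
    rw [Finset.mem_filter] at hx
    rw [abs_mul]
    calc |A.coeff x.1| * |B.coeff x.2| ≤ (K * M ^ (n - x.1)) * (K' * N ^ (m - x.2)) :=
          mul_le_mul (hA.le _ _ (by omega)) (hB.le _ _ (by omega)) (abs_nonneg _) (by positivity)
      _ = _ := by ring
  refine (Finset.sum_le_sum h1).trans ?_
  have h2 : ∑ x ∈ (Finset.HasAntidiagonal.antidiagonal i).filter (fun x => x.1 ≤ n ∧ x.2 ≤ m),
      K * K' * (M ^ (n - x.1) * N ^ (m - x.2)) =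
      ∑ y ∈ ((Finset.HasAntidiagonal.antidiagonal i).filter (fun x => x.1 ≤ n ∧ x.2 ≤ m)).image
        (fun x => (n - x.1, m - x.2)), K * K' * (M ^ y.1 * N ^ y.2) := by
    rw [Finset.sum_image]
    intro x hx y hy hxy
    simp only [Finset.coe_filter, Set.mem_ofPred_eq, Finset.HasAntidiagonal.mem_antidiagonal] at hx hy
    simp only [Prod.mk.injEq] at hxy
    ext <;> omega
  rw [h2]
  apply Finset.sum_le_sum_of_subset_of_nonneg
  · intro y hy
    rw [Finset.mem_image] at hy
    obtain ⟨x, hx, rfl⟩ := hy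
    rw [Finset.mem_filter, Finset.HasAntidiagonal.mem_antidiagonal] at hx
    rw [Finset.HasAntidiagonal.mem_antidiagonal]
    simp only
    omega
  · intro y _ _
    positivity

lemma Dom.pow {A : ℤ[X]} {n : ℕ} {M : ℤ} (hM : 0 ≤ M) (hA : Dom A n 1 M) (p : ℕ) :
    Dom (A ^ p) (n * p) 1 (p * M) := by
  induction p with
  | zero =>
    refine ⟨by simp, fun i j hij => ?_⟩
    have hi : i = 0 := by omega
    have hj : j = 0 := by omega
    subst hi
    subst hj
    simp
  | succ p ih =>
    have h1 := ih.mul zero_le_one zero_le_one (by positivity) hM hA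
    rw [mul_one] at h1
    rw [pow_succ]
    have e1 : n * (p + 1) = n * p + n := by ring
    have e2 : ((p + 1 : ℕ) : ℤ) * M = p * M + M := by push_cast; ring
    rw [e1, e2]
    exact h1

/-- the main identity: `F ^ (p - 1) (r H' F - p F' H) = P' H - r P H'` for `P = H ^ r - F ^ p` -/
lemma wr_identity (F H : ℤ[X]) {p r : ℕ} (hp : 0 < p) (hr : 0 < r) :
    F ^ (p - 1) * ((r : ℤ[X]) * derivative H * F - (p : ℤ[X]) * derivative F * H) =
      derivative (H ^ r - F ^ p) * H - (r : ℤ[X]) * (H ^ r - F ^ p) * derivative H := by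
  obtain ⟨p, rfl⟩ : ∃ k, p = k + 1 := ⟨p - 1, by omega⟩
  obtain ⟨r, rfl⟩ : ∃ k, r = k + 1 := ⟨r - 1, by omega⟩
  rw [derivative_sub, derivative_pow, derivative_pow]
  simp only [Nat.add_sub_cancel, map_natCast, map_add, map_one, Nat.cast_add, Nat.cast_one]
  ring

/-- degree and leading coefficient of the difference of two powers of monic polynomials -/
lemma diff_lead {F H : ℤ[X]} {a c p r : ℕ} (hF : F.Monic) (hH : H.Monic) (ha : F.natDegree = a)
    (hc : H.natDegree = c) (hp : 0 < p) (hr : 0 < r) (hE : a * p = c * r)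
    (hP : H ^ r - F ^ p ≠ 0) (ha0 : 0 < a) :
    ∃ s : ℕ, 0 < s ∧ s < a + c ∧ (H ^ r - F ^ p).natDegree + s = a * p ∧
      ((r : ℤ[X]) * derivative H * F - (p : ℤ[X]) * derivative F * H).leadingCoeff =
        -(s : ℤ) * (H ^ r - F ^ p).leadingCoeff := by
  set P := H ^ r - F ^ p with hPdef
  set W := (r : ℤ[X]) * derivative H * F - (p : ℤ[X]) * derivative F * H with hW
  have hFp : (F ^ p).Monic := hF.pow p
  have hHr : (H ^ r).Monic := hH.pow r
  have hdF : (F ^ p).natDegree = a * p := by rw [hF.natDegree_pow, ha, mul_comm]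
  have hdH : (H ^ r).natDegree = a * p := by rw [hH.natDegree_pow, hc, hE, mul_comm]
  have hap : 0 < a * p := by positivity
  have hkE : P.natDegree < a * p := by
    have h1 : P.degree < (H ^ r).degree := by
      apply degree_sub_lt_left
      · rw [degree_eq_natDegree hHr.ne_zero, degree_eq_natDegree hFp.ne_zero, hdF, hdH]
      · exact hHr.ne_zero
      · rw [hHr.leadingCoeff, hFp.leadingCoeff]
    have h2 := natDegree_lt_natDegree hP h1
    rwa [hdH] at h2
  set k := P.natDegree with hk
  set lam := P.leadingCoeff with hlam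
  have hlam0 : lam ≠ 0 := leadingCoeff_ne_zero.2 hP
  have hc0 : 0 < c := by
    rcases Nat.eq_zero_or_pos c with h | h
    · rw [h, zero_mul] at hE
      omega
    · exact h
  -- the right-hand side
  have hid := wr_identity F H hp hr
  rw [← hPdef, ← hW] at hid
  set RHS := derivative P * H - (r : ℤ[X]) * P * derivative H with hRHS
  have hcoef : RHS.coeff (k + c - 1) = -((a * p : ℕ) - (k : ℤ)) * lam := by
    obtain ⟨c', rfl⟩ : ∃ c', c = c' + 1 := ⟨c - 1, by omega⟩
    have e1 : k + (c' + 1) - 1 = k + c' := by omega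
    rw [e1, hRHS, coeff_sub]
    -- second term
    have h2 : ((r : ℤ[X]) * P * derivative H).coeff (k + c') = r * lam * (c' + 1) := by
      rw [mul_assoc, ← C_eq_natCast, coeff_C_mul]
      have h3 : (derivative H).natDegree ≤ c' := by
        have := natDegree_derivative_le H
        omega
      rw [coeff_mul_add_eq_of_natDegree_le le_rfl h3]
      have h4 : (derivative H).coeff c' = (c' + 1 : ℤ) := by
        rw [coeff_derivative, ← hc, hH.coeff_natDegree]
        ring
      rw [h4]
      have : P.coeff k = lam := rfl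
      rw [this]
      push_cast
      ring
    have h1 : (derivative P * H).coeff (k + c') = k * lam := by
      rcases Nat.eq_zero_or_pos k with hk0 | hk0
      · have h3 : derivative P = 0 := by
          rw [eq_C_of_natDegree_eq_zero (hk ▸ hk0 : P.natDegree = 0), derivative_C]
        rw [h3, zero_mul, coeff_zero, hk0]
        simp
      · obtain ⟨k', hk'⟩ : ∃ k', k = k' + 1 := ⟨k - 1, by omega⟩
        have e2 : k + c' = k' + (c' + 1) := by omega
        have h3 : (derivative P).natDegree ≤ k' := by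
          have := natDegree_derivative_le P
          omega
        rw [e2, coeff_mul_add_eq_of_natDegree_le h3 hc.le]
        have h4 : (derivative P).coeff k' = lam * k := by
          rw [coeff_derivative, ← hk']
          have : P.coeff k = lam := rfl
          rw [this, hk']
          push_cast
          ring
        have h5 : H.coeff (c' + 1) = 1 := by
          rw [← hc]
          exact hH
        rw [h4, h5]
        ring
    rw [h1, h2, hE]
    push_cast
    ring
  have hRdeg : RHS.natDegree ≤ k + c - 1 := by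
    refine (natDegree_sub_le _ _).trans (max_le ?_ ?_)
    · rcases Nat.eq_zero_or_pos k with hk0 | hk0
      · have h3 : derivative P = 0 := by
          rw [eq_C_of_natDegree_eq_zero (hk ▸ hk0 : P.natDegree = 0), derivative_C]
        rw [h3, zero_mul, natDegree_zero]
        omega
      · refine natDegree_mul_le.trans ?_
        have := natDegree_derivative_le P
        omega
    · refine natDegree_mul_le.trans ?_
      have h3 : ((r : ℤ[X]) * P).natDegree ≤ k := by
        rw [← C_eq_natCast]
        exact natDegree_C_mul_le _ _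
      have := natDegree_derivative_le H
      omega
  have hne : -((a * p : ℕ) - (k : ℤ)) * lam ≠ 0 := by
    apply mul_ne_zero _ hlam0
    have : (k : ℤ) < (a * p : ℕ) := by exact_mod_cast hkE
    omega
  have hRn : RHS.natDegree = k + c - 1 := by
    apply le_antisymm hRdeg
    apply le_natDegree_of_ne_zero
    rw [hcoef]
    exact hne
  have hRlc : RHS.leadingCoeff = -((a * p : ℕ) - (k : ℤ)) * lam := by
    rw [leadingCoeff, hRn, hcoef]
  have hFp1 : (F ^ (p - 1)).Monic := hF.pow _
  have hWlc : W.leadingCoeff = RHS.leadingCoeff := by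
    rw [← hid, leadingCoeff_mul, hFp1.leadingCoeff, one_mul]
  have hW0 : W ≠ 0 := by
    intro h
    rw [h, leadingCoeff_zero, hRlc] at hWlc
    exact hne hWlc.symm
  have hWdeg : a * (p - 1) + W.natDegree = k + c - 1 := by
    rw [← hRn, ← hid, hFp1.natDegree_mul' hW0, hF.natDegree_pow, ha, mul_comm]
  refine ⟨a * p - k, by omega, ?_, by omega, ?_⟩
  · have e1 : a * (p - 1) + a = a * p := by
      obtain ⟨p', rfl⟩ : ∃ p', p = p' + 1 := ⟨p - 1, by omega⟩
      rw [Nat.add_sub_cancel]
      ring
    omega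
  · rw [hWlc, hRlc]
    congr 2
    rw [Nat.cast_sub hkE.le]

end Pool.Agent.R477.FC
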