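import Mathlib
import Pool.Agent.R477.FC.Monic

/-!
# Bases which are values of monic polynomials with small coefficients
-/

set_option autoImplicit false

namespace Pool.Agent.R477.FC

open Polynomial

/-- monic, of degree between `1` and `D`, with coefficients at most `T` -/
structure Dig (F : ℤ[X]) (D : ℕ) (T : ℤ) : Prop where
  mon : F.Monic
  pos : 0 < F.natDegree
  le : F.natDegree ≤ D
  coe : ∀ i, i < F.natDegree → |F.coeff i| ≤ T

lemma Dig.dom {F : ℤ[X]} {D : ℕ} {T : ℤ} (hT : 1 ≤ T) (h : Dig F D T) : Dom F F.natDegree 1 T := by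
  refine ⟨le_rfl, fun i j hij => ?_⟩
  rw [one_mul]
  rcases Nat.eq_zero_or_pos j with hj | hj
  · subst hj
    have hi : i = F.natDegree := by omega
    rw [hi, pow_zero, h.mon.coeff_natDegree]
    simp
  · exact (h.coe i (by omega)).trans (le_self_pow₀ hT (by omega))

lemma Dom.deriv {H : ℤ[X]} {c : ℕ} {T : ℤ} (hT : 0 ≤ T) (hc : 0 < c) (h : Dom H c 1 T) :
    Dom (derivative H) (c - 1) c T := by
  refine ⟨(natDegree_derivative_le H).trans (by have := h.deg; omega), fun i j hij => ?_⟩
  rw [coeff_derivative, abs_mul]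
  have h1 := h.le (i + 1) j (by omega)
  rw [one_mul] at h1
  have h2 : |(i : ℤ) + 1| ≤ c := by
    rw [abs_of_nonneg (by positivity)]
    omega
  calc |H.coeff (i + 1)| * |(i : ℤ) + 1| ≤ T ^ j * c := mul_le_mul h1 h2 (abs_nonneg _) (by positivity)
    _ = c * T ^ j := mul_comm _ _

lemma wr_bound {F H : ℤ[X]} {p r : ℕ} {T : ℤ} (hT : 1 ≤ T) (hF : Dom F F.natDegree 1 T)
    (hH : Dom H H.natDegree 1 T) (hF0 : 0 < F.natDegree) (hH0 : 0 < H.natDegree) :
    |((r : ℤ[X]) * derivative H * F - (p : ℤ[X]) * derivative F * H).leadingCoeff| ≤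
      ((r : ℤ) * H.natDegree + p * F.natDegree) * (2 * T) ^ (F.natDegree + H.natDegree) := by
  set W := (r : ℤ[X]) * derivative H * F - (p : ℤ[X]) * derivative F * H with hW
  have h1 := (hH.deriv (by linarith) hH0).mul (by positivity) zero_le_one (by linarith) (by linarith) hF
  have h2 := (hF.deriv (by linarith) hF0).mul (by positivity) zero_le_one (by linarith) (by linarith) hH
  have hdeg : W.natDegree ≤ F.natDegree + H.natDegree - 1 := by
    refine (natDegree_sub_le _ _).trans (max_le ?_ ?_)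
    · rw [mul_assoc, ← C_eq_natCast]
      refine (natDegree_C_mul_le _ _).trans (h1.deg.trans (by omega))
    · rw [mul_assoc, ← C_eq_natCast]
      refine (natDegree_C_mul_le _ _).trans (h2.deg.trans (by omega))
  have h3 := h1.le W.natDegree (F.natDegree + H.natDegree - 1 - W.natDegree) (by omega)
  have h4 := h2.le W.natDegree (F.natDegree + H.natDegree - 1 - W.natDegree) (by omega)
  have h5 : (T + T) ^ (F.natDegree + H.natDegree - 1 - W.natDegree) ≤
      (2 * T) ^ (F.natDegree + H.natDegree) := by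
    rw [← two_mul]
    exact pow_le_pow_right₀ (by linarith) (by omega)
  rw [mul_one] at h3 h4
  have h6 : W.leadingCoeff = r * (derivative H * F).coeff W.natDegree -
      p * (derivative F * H).coeff W.natDegree := by
    have hgen : ∀ i, W.coeff i = r * (derivative H * F).coeff i - p * (derivative F * H).coeff i := by
      intro i
      rw [hW, coeff_sub, mul_assoc, mul_assoc, ← C_eq_natCast, ← C_eq_natCast, coeff_C_mul,
        coeff_C_mul]
    have h7 := hgen W.natDegree
    exact h7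
  rw [h6]
  calc |(r : ℤ) * (derivative H * F).coeff W.natDegree - p * (derivative F * H).coeff W.natDegree|
      ≤ |(r : ℤ) * (derivative H * F).coeff W.natDegree| +
        |(p : ℤ) * (derivative F * H).coeff W.natDegree| := abs_sub _ _
    _ = r * |(derivative H * F).coeff W.natDegree| + p * |(derivative F * H).coeff W.natDegree| := by
        rw [abs_mul, abs_mul, Nat.abs_cast, Nat.abs_cast]
    _ ≤ r * (H.natDegree * (2 * T) ^ (F.natDegree + H.natDegree)) +
        p * (F.natDegree * (2 * T) ^ (F.natDegree + H.natDegree)) := by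
        apply add_le_add
        · apply mul_le_mul_of_nonneg_left _ (by positivity)
          exact h3.trans (mul_le_mul_of_nonneg_left h5 (by positivity))
        · apply mul_le_mul_of_nonneg_left _ (by positivity)
          exact h4.trans (mul_le_mul_of_nonneg_left h5 (by positivity))
    _ = _ := by ring

lemma geo_le {M w : ℤ} (hM : 0 ≤ M) (hw : 2 * M ≤ w) (E n : ℕ) (hn : n ≤ E) :
    (∑ i ∈ Finset.range n, M ^ (E - i) * w ^ i) * w ≤ 2 * (M ^ (E + 1 - n) * w ^ n) := by
  have hw0 : 0 ≤ w := by linarith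
  induction n with
  | zero =>
    simp
    positivity
  | succ n ih =>
    have h1 := ih (by omega)
    rw [Finset.sum_range_succ, add_mul]
    have e1 : E + 1 - n = (E - n) + 1 := by omega
    have e2 : E + 1 - (n + 1) = E - n := by omega
    rw [e1] at h1
    rw [e2]
    have h2 : 0 ≤ M ^ (E - n) * w ^ n := by positivity
    calc (∑ i ∈ Finset.range n, M ^ (E - i) * w ^ i) * w + M ^ (E - n) * w ^ n * w
        ≤ 2 * (M ^ (E - n + 1) * w ^ n) + M ^ (E - n) * w ^ n * w := by linarith
      _ = (M ^ (E - n) * w ^ n) * (2 * M + w) := by ring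
      _ ≤ (M ^ (E - n) * w ^ n) * (2 * w) := mul_le_mul_of_nonneg_left (by linarith) h2
      _ = 2 * (M ^ (E - n) * w ^ (n + 1)) := by ring

lemma low_terms {P : ℤ[X]} {k s : ℕ} {M w : ℤ} (hk : P.natDegree = k) (hM : 1 ≤ M)
    (hc : ∀ i j, i + j = k + s → |P.coeff i| ≤ 2 * M ^ j) (hw : 128 * M ^ (s + 1) ≤ w) :
    32 * |P.eval w - P.leadingCoeff * w ^ k| ≤ w ^ k := by
  have hM1 : M ≤ M ^ (s + 1) := le_self_pow₀ hM (by omega)
  have hw2 : 2 * M ≤ w := by linarith
  have hw0 : 0 < w := by linarith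
  have h1 : P.eval w - P.leadingCoeff * w ^ k = ∑ i ∈ Finset.range k, P.coeff i * w ^ i := by
    rw [eval_eq_sum_range, hk, Finset.sum_range_succ, leadingCoeff, hk]
    ring
  have h2 : |∑ i ∈ Finset.range k, P.coeff i * w ^ i| ≤
      2 * ∑ i ∈ Finset.range k, M ^ (k + s - i) * w ^ i := by
    refine (Finset.abs_sum_le_sum_abs _ _).trans ?_
    rw [Finset.mul_sum]
    apply Finset.sum_le_sum
    intro i hi
    have := Finset.mem_range.1 hi
    rw [abs_mul, abs_pow, abs_of_pos hw0, ← mul_assoc]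
    exact mul_le_mul_of_nonneg_right (hc i (k + s - i) (by omega)) (by positivity)
  have h3 := geo_le (by linarith : 0 ≤ M) hw2 (k + s) k (by omega)
  have e1 : k + s + 1 - k = s + 1 := by omega
  rw [e1] at h3
  rw [h1]
  have hwk : 0 < w ^ k := by positivity
  have h4 : (32 * |∑ i ∈ Finset.range k, P.coeff i * w ^ i|) * w ≤ w ^ k * w := by
    calc (32 * |∑ i ∈ Finset.range k, P.coeff i * w ^ i|) * w
        ≤ (32 * (2 * ∑ i ∈ Finset.range k, M ^ (k + s - i) * w ^ i)) * w := by gcongr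
      _ = 64 * ((∑ i ∈ Finset.range k, M ^ (k + s - i) * w ^ i) * w) := by ring
      _ ≤ 64 * (2 * (M ^ (s + 1) * w ^ k)) := by linarith
      _ = (128 * M ^ (s + 1)) * w ^ k := by ring
      _ ≤ w * w ^ k := mul_le_mul_of_nonneg_right hw hwk.le
      _ = w ^ k * w := mul_comm _ _
  exact le_of_mul_le_mul_right h4 hw0

/-- `|F(w) - w ^ a| w ≤ D T w ^ a` -/
lemma Dig.near {F : ℤ[X]} {D : ℕ} {T w : ℤ} (hT : 0 ≤ T) (h : Dig F D T) (hw : 1 ≤ w) :
    |F.eval w - w ^ F.natDegree| * w ≤ D * T * w ^ F.natDegree := by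
  set a := F.natDegree with ha
  have h1 : F.eval w - w ^ a = ∑ i ∈ Finset.range a, F.coeff i * w ^ i := by
    rw [eval_eq_sum_range, ← ha, Finset.sum_range_succ, ha, h.mon.coeff_natDegree]
    ring
  have h2 : |∑ i ∈ Finset.range a, F.coeff i * w ^ i| ≤ a * (T * w ^ (a - 1)) := by
    refine (Finset.abs_sum_le_sum_abs _ _).trans ?_
    have h3 : ∀ i ∈ Finset.range a, |F.coeff i * w ^ i| ≤ T * w ^ (a - 1) := by
      intro i hi
      have := Finset.mem_range.1 hi
      rw [abs_mul, abs_pow, abs_of_pos (by linarith : 0 < w)]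
      exact mul_le_mul (h.coe i this) (pow_le_pow_right₀ hw (by omega)) (by positivity) hT
    refine (Finset.sum_le_sum h3).trans ?_
    rw [Finset.sum_const, Finset.card_range, nsmul_eq_mul]
  rw [h1]
  have h4 : w ^ (a - 1) * w = w ^ a := by
    rw [← pow_succ]
    congr 1
    have := h.pos
    omega
  have h5 : (a : ℤ) ≤ D := by exact_mod_cast h.le
  calc |∑ i ∈ Finset.range a, F.coeff i * w ^ i| * w ≤ a * (T * w ^ (a - 1)) * w := by gcongr
    _ = a * T * (w ^ (a - 1) * w) := by ring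
    _ = a * T * w ^ a := by rw [h4]
    _ ≤ D * T * w ^ a := by gcongr

/-- powers, relative form -/
lemma pow_near' {X W A L : ℝ} {a p : ℕ} (hW : 64 ≤ W) (hX : |X - W ^ a| * W ≤ A * W ^ a)
    (hA : 0 ≤ A) (hLA : 64 * (L * A) ≤ W) (hL : 1 ≤ L) (hp : (p : ℝ) ≤ L) :
    63 / 64 * W ^ (a * p) ≤ X ^ p ∧ X ^ p ≤ 33 / 32 * W ^ (a * p) := by
  have hW0 : 0 < W := by linarith
  have hWa : 0 < W ^ a := by positivity
  set u := (X - W ^ a) / W ^ a with hu
  have hX1 : X = W ^ a * (1 + u) := by rw [hu]; field_simp; ring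
  have hua : |u| * W ≤ A := by
    rw [hu, abs_div, abs_of_pos hWa, div_mul_eq_mul_div, div_le_iff₀ hWa]
    exact hX
  have hp0 : (0 : ℝ) ≤ p := Nat.cast_nonneg p
  have hu1 : |u| ≤ 1 / 64 := by
    have h1 : |u| * W ≤ 1 / 64 * W := by nlinarith
    exact le_of_mul_le_mul_right h1 hW0
  have h1 : |(p : ℝ) * u| ≤ 1 / 64 := by
    rw [abs_mul, Nat.abs_cast]
    have h2 : (p : ℝ) * |u| * W ≤ 1 / 64 * W := by
      calc (p : ℝ) * |u| * W = p * (|u| * W) := by ring
        _ ≤ L * A := mul_le_mul hp hua (by positivity) (by linarith)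
        _ ≤ 1 / 64 * W := by linarith
    exact le_of_mul_le_mul_right h2 hW0
  have h2 := binom_est h1 (by have := (abs_le.1 hu1).1; linarith)
  have h6 := abs_le.1 h1
  have h7 : X ^ p = W ^ (a * p) * (1 + u) ^ p := by rw [hX1, mul_pow, ← pow_mul]
  rw [h7]
  have h5 : 0 < W ^ (a * p) := by positivity
  constructor
  · nlinarith
  · nlinarith

/-- coprime values at a large integer imply coprime polynomials -/
lemma cop_monic {F G : ℤ[X]} {D : ℕ} {T w : ℤ} (hT : 0 ≤ T) (hF : Dig F D T) (hw : T + 3 ≤ w)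
    (hcop : IsCoprime (F.eval w) (G.eval w)) : IsCoprime (toQ F) (toQ G) := by
  refine (Polynomial.isCoprime_iff_aeval_ne_zero_of_isAlgClosed ℚ ℂ (toQ F) (toQ G)).2 ?_
  by_contra hcon
  push Not at hcon
  obtain ⟨α, h1, h2⟩ := hcon
  have haev : ∀ P : ℤ[X], aeval α (toQ P) = aeval α P := by
    intro P
    have : toQ P = P.map (algebraMap ℤ ℚ) := rfl
    rw [this, aeval_map_algebraMap]
  rw [haev] at h1 h2
  have hint : IsIntegral ℤ α := ⟨F, hF.mon, by rwa [← aeval_def]⟩
  set N := minpoly ℤ α with hN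
  have hNF : N ∣ F := minpoly.isIntegrallyClosed_dvd hint h1
  have hNG : N ∣ G := minpoly.isIntegrallyClosed_dvd hint h2
  have hunit : IsUnit (N.eval w) := hcop.isUnit_of_dvd' (eval_dvd hNF) (eval_dvd hNG)
  have hNm : N.Monic := minpoly.monic hint
  have hNd : 0 < N.natDegree := minpoly.natDegree_pos hint
  -- the roots
  have hsp : (N.map (algebraMap ℤ ℂ)).Splits := IsAlgClosed.splits _
  have hev := hsp.aeval_eq_prod_aroots_of_monic hNm (x := (w : ℂ))
  have hroot : ∀ β ∈ N.aroots ℂ, ‖β‖ ≤ (T : ℝ) + 1 := by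
    intro β hβ
    have hβN : aeval β N = 0 := (mem_aroots.1 hβ).2
    have hβF : aeval β F = 0 := by
      obtain ⟨S, hS⟩ := hNF
      rw [hS, map_mul, hβN, zero_mul]
    have hFm : (F.map (algebraMap ℤ ℂ)).Monic := hF.mon.map _
    have hr : (F.map (algebraMap ℤ ℂ)).IsRoot β := by
      rw [IsRoot.def, eval_map_algebraMap]
      exact hβF
    have hb := IsRoot.norm_lt_cauchyBound hFm.ne_zero hr
    have hT' : (0 : ℝ) ≤ T := by exact_mod_cast hT
    obtain ⟨t, ht⟩ : ∃ t : NNReal, (t : ℝ) = T := ⟨Real.toNNReal T, Real.coe_toNNReal _ hT'⟩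
    have hc : cauchyBound (F.map (algebraMap ℤ ℂ)) ≤ t + 1 := by
      unfold cauchyBound
      rw [hFm.leadingCoeff, nnnorm_one, div_one]
      have hdeg : (F.map (algebraMap ℤ ℂ)).natDegree = F.natDegree :=
        hF.mon.natDegree_map _
      have hsup : (Finset.range (F.map (algebraMap ℤ ℂ)).natDegree).sup
          (fun x => ‖(F.map (algebraMap ℤ ℂ)).coeff x‖₊) ≤ t := by
        apply Finset.sup_le
        intro i hi
        rw [hdeg, Finset.mem_range] at hi
        rw [← NNReal.coe_le_coe, coe_nnnorm, coeff_map, ht]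
        simp only [algebraMap_int_eq, eq_intCast, Complex.norm_intCast]
        exact_mod_cast hF.coe i hi
      exact add_le_add hsup le_rfl
    have h5 : (‖β‖ : ℝ) < (t : ℝ) + 1 := by
      have := lt_of_lt_of_le hb hc
      exact_mod_cast this
    rw [ht] at h5
    have h6 : ‖β‖ < (T : ℝ) + 1 := by exact_mod_cast h5
    exact h6.le
  have hw' : ((T : ℝ) + 3) ≤ w := by exact_mod_cast hw
  have hfac : ∀ β ∈ N.aroots ℂ, (2 : ℝ) ≤ ‖(w : ℂ) - β‖ := by
    intro β hβ
    have h3 := hroot β hβ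
    have h4 := norm_sub_norm_le (w : ℂ) β
    have h5 : ‖(w : ℂ)‖ = |(w : ℝ)| := by simp
    rw [h5] at h4
    have h6 := le_abs_self (w : ℝ)
    linarith
  have hprod : ∀ s : Multiset ℂ, (∀ β ∈ s, (2 : ℝ) ≤ ‖(w : ℂ) - β‖) →
      (2 : ℝ) ^ (Multiset.card s) ≤ ‖(s.map (fun β => (w : ℂ) - β)).prod‖ := by
    intro s
    induction s using Multiset.induction with
    | empty => simp
    | cons b s ih =>
      intro hs
      rw [Multiset.card_cons, Multiset.map_cons, Multiset.prod_cons, norm_mul, pow_succ, mul_comm]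
      apply mul_le_mul (hs b (Multiset.mem_cons_self b s))
        (ih fun β hβ => hs β (Multiset.mem_cons_of_mem hβ)) (by positivity) (norm_nonneg _)
  have hcard : Multiset.card (N.aroots ℂ) = N.natDegree := by
    have h7 := hsp.natDegree_eq_card_roots
    rw [hNm.natDegree_map] at h7
    exact h7.symm
  have h8 := hprod _ hfac
  have h9 : (aeval (w : ℂ) N) = ((N.eval w : ℤ) : ℂ) := by
    have := aeval_algebraMap_apply_eq_algebraMap_eval (A := ℂ) w N
    simpa using this
  rw [hcard] at h8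
  have h10 : (2 : ℝ) ^ N.natDegree ≤ ‖((N.eval w : ℤ) : ℂ)‖ := by
    rw [← h9, hev]
    exact h8
  rw [Complex.norm_intCast] at h10
  have h11 : |N.eval w| = 1 := Int.isUnit_iff_abs_eq.1 hunit
  have h12 : |((N.eval w : ℤ) : ℝ)| = 1 := by exact_mod_cast h11
  rw [h12] at h10
  have h13 : (2 : ℝ) ^ 1 ≤ 2 ^ N.natDegree := pow_le_pow_right₀ (by norm_num) hNd
  linarith

end Pool.Agent.R477.FC
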