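import Mathlib
import Pool.Agent.R477.FC.Monic2

/-!
# No solutions whose bases are values of monic polynomials with small coefficients
-/

set_option autoImplicit false

namespace Pool.Agent.R477.FC

open Polynomial

lemma Dom.coeff_le {F : ℤ[X]} {n E : ℕ} {M : ℤ} (hM : 1 ≤ M) (h : Dom F n 1 M) (hE : n ≤ E) (i : ℕ) :
    |F.coeff i| ≤ M ^ E := by
  rcases Nat.lt_or_ge n i with h1 | h1
  · rw [coeff_eq_zero_of_natDegree_lt (lt_of_le_of_lt h.deg h1)]
    simp
    positivity
  · have h2 := h.le i (n - i) (by omega)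
    rw [one_mul] at h2
    exact h2.trans (pow_le_pow_right₀ hM (by omega))

/-- exponents in the leading-term cancellation are bounded when `gcd (p, r) ≤ g` -/
lemma exps_of_gcd {a c p r D g : ℕ} (hp : 0 < p) (ha0 : 0 < a) (hc0 : 0 < c)
    (ha : a ≤ D) (hc : c ≤ D) (hE : a * p = c * r) (hg : Nat.gcd p r ≤ g) : p ≤ g * D ∧ r ≤ g * D := by
  have hg0 : 0 < Nat.gcd p r := Nat.gcd_pos_of_pos_left _ hp
  obtain ⟨p', r', hcop, hp', hr'⟩ := Nat.exists_coprime p r
  have h1 : a * p' = c * r' := by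
    have h2 : Nat.gcd p r * (a * p') = Nat.gcd p r * (c * r') := by
      calc Nat.gcd p r * (a * p') = a * (p' * Nat.gcd p r) := by ring
        _ = a * p := by rw [← hp']
        _ = c * r := hE
        _ = c * (r' * Nat.gcd p r) := by rw [← hr']
        _ = _ := by ring
    exact Nat.eq_of_mul_eq_mul_left hg0 h2
  have h2 : p' ∣ c := hcop.dvd_of_dvd_mul_right ⟨a, by rw [← h1]; ring⟩
  have h3 : r' ∣ a := hcop.symm.dvd_of_dvd_mul_right ⟨c, by rw [h1]; ring⟩
  have h4 := Nat.le_of_dvd hc0 h2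
  have h5 := Nat.le_of_dvd ha0 h3
  constructor
  · rw [hp', mul_comm]
    exact Nat.mul_le_mul hg (h4.trans hc)
  · rw [hr', mul_comm]
    exact Nat.mul_le_mul hg (h5.trans ha)

theorem monic_core {w x y z p q r D L T : ℕ} {F G H : ℤ[X]} (hw : 64 ≤ w) (hT : 1 ≤ T) (hL : 1 ≤ L)
    (hF : Dig F D T) (hG : Dig G D T) (hH : Dig H D T) (hx : F.eval (w : ℤ) = x)
    (hy : G.eval (w : ℤ) = y) (hz : H.eval (w : ℤ) = z)
    (h1 : 64 * (L * (D * T)) ≤ w) (h2 : 128 * (L * T) ^ (2 * D) ≤ w)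
    (h3 : 32 * (2 * L * D * (2 * T) ^ (2 * D)) ≤ w)
    (h4 : 3 * (2 * D ^ 3 * T) ^ (D * (2 * D ^ 3)) < w) (h5 : T + 3 ≤ w)
    (hp : p ≤ L) (hq : q ≤ L) (hr : r ≤ L) (hp2 : 2 ≤ p) (hq2 : 2 ≤ q) (hr2 : 2 ≤ r)
    (hyp : Hyp p q r) (hy0 : 0 < y) (hxy : Nat.Coprime x y)
    (heq : x ^ p + y ^ q = z ^ r) (hyx : y ^ q ≤ x ^ p) : False := by
  have hT' : (1 : ℤ) ≤ T := by exact_mod_cast hT
  have hT0 : (0 : ℤ) ≤ T := by linarith
  have hwZ : (64 : ℤ) ≤ w := by exact_mod_cast hw
  have hw1 : (1 : ℤ) ≤ w := by linarith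
  set a := F.natDegree with ha
  set b := G.natDegree with hb
  set c := H.natDegree with hc
  have ha0 : 0 < a := hF.pos
  have hb0 : 0 < b := hG.pos
  have hc0 : 0 < c := hH.pos
  have haD : a ≤ D := hF.le
  have hbD : b ≤ D := hG.le
  have hcD : c ≤ D := hH.le
  -- the real estimates
  have nF := hF.near hT0 hw1
  have nG := hG.near hT0 hw1
  have nH := hH.near hT0 hw1
  rw [hx] at nF
  rw [hy] at nG
  rw [hz] at nH
  rw [← ha] at nF
  rw [← hb] at nG
  rw [← hc] at nH
  obtain ⟨W, hW⟩ : ∃ W : ℝ, W = (w : ℝ) := ⟨_, rfl⟩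
  have hWw : (64 : ℝ) ≤ W := by rw [hW]; exact_mod_cast hw
  have nF' : |(x : ℝ) - W ^ a| * W ≤ ((D : ℝ) * T) * W ^ a := by rw [hW]; exact_mod_cast nF
  have nG' : |(y : ℝ) - W ^ b| * W ≤ ((D : ℝ) * T) * W ^ b := by rw [hW]; exact_mod_cast nG
  have nH' : |(z : ℝ) - W ^ c| * W ≤ ((D : ℝ) * T) * W ^ c := by rw [hW]; exact_mod_cast nH
  have hA0 : (0 : ℝ) ≤ (D : ℝ) * T := by positivity
  have hLA : 64 * ((L : ℝ) * ((D : ℝ) * T)) ≤ W := by rw [hW]; exact_mod_cast h1
  have hL1 : (1 : ℝ) ≤ L := by exact_mod_cast hL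
  obtain ⟨x1, x2⟩ := pow_near' hWw nF' hA0 hLA hL1 (p := p) (by exact_mod_cast hp)
  obtain ⟨y1, y2⟩ := pow_near' hWw nG' hA0 hLA hL1 (p := q) (by exact_mod_cast hq)
  obtain ⟨z1, z2⟩ := pow_near' hWw nH' hA0 hLA hL1 (p := r) (by exact_mod_cast hr)
  have heq' : (x : ℝ) ^ p + (y : ℝ) ^ q = (z : ℝ) ^ r := by exact_mod_cast heq
  have hyx' : (y : ℝ) ^ q ≤ (x : ℝ) ^ p := by exact_mod_cast hyx
  have hy0' : (0 : ℝ) < (y : ℝ) ^ q := by positivity
  have hE : a * p = c * r := by
    rcases lt_trichotomy (a * p) (c * r) with h | h | h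
    · exfalso
      have h5 : W ^ (a * p) * W ≤ W ^ (c * r) := by
        rw [← pow_succ]
        exact pow_le_pow_right₀ (by linarith) h
      have h6 : 0 < W ^ (a * p) := by positivity
      have h7 := mul_le_mul_of_nonneg_left hWw h6.le
      linarith
    · exact h
    · exfalso
      have h5 : W ^ (c * r) * W ≤ W ^ (a * p) := by
        rw [← pow_succ]
        exact pow_le_pow_right₀ (by linarith) h
      have h6 : 0 < W ^ (c * r) := by positivity
      have h7 := mul_le_mul_of_nonneg_left hWw h6.le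
      linarith
  -- the difference of the two large powers
  set P := H ^ r - F ^ p with hP
  have hPw : P.eval (w : ℤ) = (y : ℤ) ^ q := by
    rw [hP, eval_sub, eval_pow, eval_pow, hx, hz]
    have : (x : ℤ) ^ p + (y : ℤ) ^ q = (z : ℤ) ^ r := by exact_mod_cast heq
    linarith
  have hPpos : 0 < P.eval (w : ℤ) := by
    rw [hPw]
    positivity
  have hP0 : P ≠ 0 := by
    intro h
    rw [h, eval_zero] at hPpos
    exact lt_irrefl _ hPpos
  obtain ⟨s, hs0, hs, hdeg, hlead⟩ := diff_lead hF.mon hH.mon ha.symm hc.symm (by omega : 0 < p)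
    (by omega : 0 < r) hE hP0 ha0
  rw [← hP] at hdeg hlead
  set k := P.natDegree with hk
  set lam := P.leadingCoeff with hlam
  have hlam0 : lam ≠ 0 := leadingCoeff_ne_zero.2 hP0
  have dF := (hF.dom hT').pow hT0 p
  have dG := (hG.dom hT').pow hT0 q
  have dH := (hH.dom hT').pow hT0 r
  rw [← ha] at dF
  rw [← hb] at dG
  rw [← hc] at dH
  have hcoef : ∀ i j, i + j = k + s → |P.coeff i| ≤ 2 * ((L : ℤ) * T) ^ j := by
    intro i j hij
    have e1 := dF.le i j (by omega)
    have e2 := dH.le i j (by omega)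
    rw [one_mul] at e1 e2
    have e3 : ((p : ℤ) * T) ^ j ≤ ((L : ℤ) * T) ^ j :=
      pow_le_pow_left₀ (by positivity) (mul_le_mul_of_nonneg_right (by exact_mod_cast hp) hT0) j
    have e4 : ((r : ℤ) * T) ^ j ≤ ((L : ℤ) * T) ^ j :=
      pow_le_pow_left₀ (by positivity) (mul_le_mul_of_nonneg_right (by exact_mod_cast hr) hT0) j
    rw [hP, coeff_sub]
    have e5 := abs_sub ((H ^ r).coeff i) ((F ^ p).coeff i)
    linarith
  have hLT1 : (1 : ℤ) ≤ (L : ℤ) * T := by
    have : 1 ≤ L * T := Nat.mul_pos hL hT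
    exact_mod_cast this
  have hlow := low_terms hk.symm hLT1 hcoef (w := (w : ℤ)) (by
    have e1 : ((L : ℤ) * T) ^ (s + 1) ≤ ((L : ℤ) * T) ^ (2 * D) :=
      pow_le_pow_right₀ hLT1 (by omega)
    have e2 : 128 * ((L : ℤ) * T) ^ (2 * D) ≤ w := by exact_mod_cast h2
    linarith)
  rw [← hlam, hPw] at hlow
  have hwk : (0 : ℤ) < (w : ℤ) ^ k := by positivity
  have hlampos : 1 ≤ lam := by
    by_contra hcon
    have e1 : lam ≤ -1 := by omega
    have e2 := le_abs_self ((y : ℤ) ^ q - lam * (w : ℤ) ^ k)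
    have e3 : (0 : ℤ) < (y : ℤ) ^ q := by positivity
    have e4 : lam * (w : ℤ) ^ k ≤ (-1) * (w : ℤ) ^ k := mul_le_mul_of_nonneg_right e1 hwk.le
    linarith
  -- the bound for the leading coefficient
  have hwr := wr_bound (p := p) (r := r) hT' (hF.dom hT') (hH.dom hT') hF.pos hH.pos
  rw [hlead] at hwr
  rw [← ha, ← hc] at hwr
  have hlamw : 32 * lam ≤ w := by
    have e1 : |-(s : ℤ) * lam| = s * lam := by
      rw [abs_mul, abs_neg, Nat.abs_cast, abs_of_pos (by linarith)]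
    rw [e1] at hwr
    have e2 : lam ≤ s * lam := le_mul_of_one_le_left (by linarith) (by exact_mod_cast hs0)
    have e3 : ((r : ℤ) * c + p * a) ≤ 2 * L * D := by
      have e4 : r * c + p * a ≤ 2 * L * D := by
        have := Nat.mul_le_mul hr hcD
        have := Nat.mul_le_mul hp haD
        calc r * c + p * a ≤ L * D + L * D := by omega
          _ = 2 * L * D := by ring
      exact_mod_cast e4
    have e5 : (2 * (T : ℤ)) ^ (a + c) ≤ (2 * (T : ℤ)) ^ (2 * D) :=
      pow_le_pow_right₀ (by linarith) (by omega)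
    have e6 : ((r : ℤ) * c + p * a) * (2 * (T : ℤ)) ^ (a + c) ≤ 2 * L * D * (2 * (T : ℤ)) ^ (2 * D) :=
      mul_le_mul e3 e5 (by positivity) (by positivity)
    have e7 : 32 * (2 * (L : ℤ) * D * (2 * T) ^ (2 * D)) ≤ w := by exact_mod_cast h3
    linarith
  have hlowR : 32 * |(y : ℝ) ^ q - (lam : ℝ) * W ^ k| ≤ W ^ k := by
    rw [hW]
    exact_mod_cast hlow
  have hWk : 0 < W ^ k := by positivity
  have habs := abs_le.1 (show |(y : ℝ) ^ q - (lam : ℝ) * W ^ k| ≤ W ^ k / 32 by linarith)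
  rcases (show lam = 1 ∨ 2 ≤ lam by omega) with hl1 | hl2
  swap
  · -- `λ ≥ 2`
    have hl2' : (2 : ℝ) ≤ lam := by exact_mod_cast hl2
    have hlW : (lam : ℝ) ≤ W / 32 := by
      have : (32 : ℝ) * lam ≤ W := by rw [hW]; exact_mod_cast hlamw
      linarith
    refine fin_contra (W := W) (M := (lam : ℝ)) (Y := (y : ℝ) ^ q) (K := k) (N := b * q) hWw hl2' hlW
      ?_ ?_ y1 y2
    · have e1 := mul_le_mul_of_nonneg_right hl2' hWk.le
      have e2 := habs.1
      linarith
    · have e1 := mul_le_mul_of_nonneg_right hl2' hWk.le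
      have e2 := habs.2
      linarith
  · -- `λ = 1`
    rw [hl1] at hlead
    have hgs : ((Nat.gcd p r : ℕ) : ℤ) ∣ s := by
      have e1 : ((Nat.gcd p r : ℕ) : ℤ) ∣
          ((r : ℤ[X]) * derivative H * F - (p : ℤ[X]) * derivative F * H).leadingCoeff := by
        rw [leadingCoeff]
        set n := ((r : ℤ[X]) * derivative H * F - (p : ℤ[X]) * derivative F * H).natDegree
        rw [coeff_sub, mul_assoc, mul_assoc, ← C_eq_natCast, ← C_eq_natCast, coeff_C_mul,
          coeff_C_mul]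
        apply dvd_sub
        · exact Dvd.dvd.mul_right (by
            simp only [Int.natCast_dvd_natCast]
            exact Nat.gcd_dvd_right p r) _
        · exact Dvd.dvd.mul_right (by
            simp only [Int.natCast_dvd_natCast]
            exact Nat.gcd_dvd_left p r) _
      rw [hlead, mul_one] at e1
      exact (dvd_neg.1 e1)
    have hgs' : Nat.gcd p r ∣ s := by exact_mod_cast hgs
    have hg : Nat.gcd p r ≤ 2 * D := (Nat.le_of_dvd hs0 hgs').trans (by omega)
    obtain ⟨hpM, hrM⟩ := exps_of_gcd (by omega : 0 < p) ha0 hc0 haD hcD hE hg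
    have hbk : b * q ≤ k := by
      by_contra hcon
      push Not at hcon
      have e1 : W ^ k * W ≤ W ^ (b * q) := by
        rw [← pow_succ]
        exact pow_le_pow_right₀ (by linarith) hcon
      have e2 : (y : ℝ) ^ q ≤ 33 / 32 * W ^ k := by
        rw [hl1] at habs
        have := habs.2
        push_cast at this
        linarith
      have e3 := mul_le_mul_of_nonneg_left hWw hWk.le
      linarith
    have hD0 : 1 ≤ D := by omega
    have hapM : a * p ≤ 2 * D ^ 3 := by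
      calc a * p ≤ D * (2 * D * D) := Nat.mul_le_mul haD hpM
        _ = 2 * D ^ 3 := by ring
    have hpM' : p ≤ 2 * D ^ 3 := (Nat.le_mul_of_pos_left p ha0).trans hapM
    have hrM' : r ≤ 2 * D ^ 3 := (Nat.le_mul_of_pos_left r hc0).trans (by rw [← hE]; exact hapM)
    have hqM' : q ≤ 2 * D ^ 3 := (Nat.le_mul_of_pos_left q hb0).trans (by omega)
    -- the polynomial identity
    set R := H ^ r - F ^ p - G ^ q with hR
    set M : ℤ := ((2 * D ^ 3 * T : ℕ) : ℤ) with hM
    have hM1 : 1 ≤ M := by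
      have e0 : 0 < 2 * D ^ 3 * T := Nat.mul_pos (Nat.mul_pos two_pos (Nat.pow_pos hD0)) hT
      rw [hM]
      exact_mod_cast e0
    set E := D * (2 * D ^ 3) with hEd
    have hpow : ∀ {u n : ℕ} {U : ℤ[X]}, n ≤ D → u ≤ 2 * D ^ 3 → Dom (U ^ u) (n * u) 1 (u * T) →
        ∀ i, |(U ^ u).coeff i| ≤ M ^ E := by
      intro u n U hn hu hd i
      have e0 : ((u : ℤ) * T) ≤ M := by
        rw [hM]
        exact_mod_cast Nat.mul_le_mul_right T hu
      have e1 : Dom (U ^ u) (n * u) 1 M := by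
        refine ⟨hd.deg, fun i j hij => (hd.le i j hij).trans ?_⟩
        rw [one_mul, one_mul]
        exact pow_le_pow_left₀ (by positivity) e0 j
      exact e1.coeff_le hM1 (Nat.mul_le_mul hn hu) i
    have hRc : ∀ i, |R.coeff i| ≤ 3 * M ^ E := by
      intro i
      have e1 := hpow haD hpM' dF i
      have e2 := hpow hbD hqM' dG i
      have e3 := hpow hcD hrM' dH i
      rw [hR, coeff_sub, coeff_sub]
      have e4 := abs_sub ((H ^ r).coeff i - (F ^ p).coeff i) ((G ^ q).coeff i)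
      have e5 := abs_sub ((H ^ r).coeff i) ((F ^ p).coeff i)
      linarith
    have hRw : R.eval (w : ℤ) = 0 := by
      have e1 : R.eval (w : ℤ) = P.eval (w : ℤ) - (y : ℤ) ^ q := by
        rw [hR, ← hP, eval_sub, eval_pow, hy]
      rw [e1, hPw, sub_self]
    have hR0 : R = 0 := by
      by_contra hne
      refine root_bound R hne (3 * M ^ E) hRc (w : ℤ) ?_ hRw
      rw [Nat.abs_cast, hM]
      exact_mod_cast h4
    have hcop : IsCoprime (toQ F) (toQ G) := by
      refine cop_monic (w := (w : ℤ)) hT0 hF (by exact_mod_cast h5) ?_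
      rw [hx, hy]
      exact Nat.isCoprime_iff_coprime.2 hxy
    have hne : ∀ {u : ℤ[X]}, u ≠ 0 → toQ u ≠ 0 := fun {u} hu h0 =>
      hu (toQ_inj (by rw [h0]; simp [toQ]))
    have hid : C (1 : ℚ) * (toQ F) ^ p + C (1 : ℚ) * (toQ G) ^ q + C (-1 : ℚ) * (toQ H) ^ r = 0 := by
      have e1 := congrArg toQ hR0
      simp only [hR, toQ, Polynomial.map_sub, Polynomial.map_pow, Polynomial.map_zero] at e1
      simp only [C_1, C_neg, toQ]
      linear_combination -e1
    have h5 := Polynomial.flt_catalan (k := ℚ) (p := p) (q := q) (r := r) (by omega) (by omega)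
      (by omega) hyp.le (by exact_mod_cast (by omega : p ≠ 0)) (by exact_mod_cast (by omega : q ≠ 0))
      (by exact_mod_cast (by omega : r ≠ 0)) (a := toQ F) (b := toQ G) (c := toQ H)
      (hne hF.mon.ne_zero) (hne hG.mon.ne_zero) (hne hH.mon.ne_zero) hcop one_ne_zero one_ne_zero
      (by norm_num) hid
    have h6 := toQ_natDegree F
    omega

end Pool.Agent.R477.FC
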