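import Mathlib
import Pool.Agent.R477.FC.Monic3

/-!
# Bases which are values of monic polynomials with small coefficients: the theorem
-/

set_option autoImplicit false

namespace Pool.Agent.R477.FC

open Polynomial

/-- `F` is monic of degree between `1` and `D` and its other coefficients have absolute value at most
`w ^ δ` -/
def Small (w D : ℕ) (δ : ℝ) (F : ℤ[X]) : Prop :=
  F.Monic ∧ 0 < F.natDegree ∧ F.natDegree ≤ D ∧
    ∀ i, i < F.natDegree → |(F.coeff i : ℝ)| ≤ (w : ℝ) ^ δ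

/-- the value triples of the solutions whose bases are the values at one integer `w` of such polynomials -/
def MonicSet (D : ℕ) (δ : ℝ) : Set (ℕ × ℕ × ℕ) :=
  {v | ∃ (x y z p q r w : ℕ) (F G H : ℤ[X]), 0 < x ∧ 0 < y ∧ 0 < z ∧ Nat.Coprime x y ∧
    Nat.Coprime x z ∧ Nat.Coprime y z ∧ 0 < p ∧ 0 < q ∧ 0 < r ∧ (1 : ℚ) / p + 1 / q + 1 / r < 1 ∧
    x ^ p + y ^ q = z ^ r ∧ v = (x ^ p, y ^ q, z ^ r) ∧ 0 < w ∧
    Small w D δ F ∧ Small w D δ G ∧ Small w D δ H ∧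
    F.eval (w : ℤ) = x ∧ G.eval (w : ℤ) = y ∧ H.eval (w : ℤ) = z}

lemma Small.dig {w D : ℕ} {δ : ℝ} {F : ℤ[X]} (h : Small w D δ F) : Dig F D (⌊(w : ℝ) ^ δ⌋₊ : ℕ) := by
  refine ⟨h.1, h.2.1, h.2.2.1, fun i hi => ?_⟩
  have h1 := h.2.2.2 i hi
  have h2 : (F.coeff i).natAbs ≤ ⌊(w : ℝ) ^ δ⌋₊ := by
    apply Nat.le_floor
    rw [← Int.cast_abs] at h1
    rw [Nat.cast_natAbs]
    exact h1
  rw [Int.abs_eq_natAbs]
  exact_mod_cast h2

theorem monic_main (D : ℕ) : (MonicSet D (1 / (4 * D ^ 4 + 4 * D + 2))).Finite := by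
  obtain ⟨C₀, κ, hC₀⟩ := exps
  set m : ℕ := 2 * D ^ 4 + 2 * D + 1 with hm
  have hm0 : 0 < m := by omega
  have hmR : (0 : ℝ) < m := by exact_mod_cast hm0
  have hm1 : (1 : ℝ) ≤ m := by exact_mod_cast hm0
  have hδe : (1 : ℝ) / (4 * D ^ 4 + 4 * D + 2) = 1 / (2 * m) := by
    rw [hm]
    push_cast
    congr 1
    ring
  rw [hδe]
  set δ : ℝ := 1 / (2 * m) with hδ
  have hδ0 : 0 < δ := by positivity
  have hδ1 : δ ≤ 1 := by
    rw [hδ, div_le_one (by positivity)]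
    linarith
  set K : ℕ := 128 + 64 * D + 2 * D ^ 3 with hK
  set K₁ : ℕ := K * (C₀ * (D + 2) ^ κ + 2) with hK₁
  obtain ⟨w₀, hw₀⟩ := log_growth (((K₁ : ℝ) * 3 ^ κ) ^ m) (κ * m) (δ := 1 / 2) (by norm_num)
  -- the size of the bases
  have hbase : ∀ (w x : ℕ) (F : ℤ[X]), 0 < w → Small w D δ F → F.eval (w : ℤ) = x →
      x ≤ (1 + D * w) * w ^ D := by
    intro w x F hw hF hx
    have hd := hF.dig
    have hT : ⌊(w : ℝ) ^ δ⌋₊ ≤ w := by
      have h1 : (w : ℝ) ^ δ ≤ (w : ℝ) ^ (1 : ℝ) :=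
        Real.rpow_le_rpow_of_exponent_le (by exact_mod_cast hw) hδ1
      rw [Real.rpow_one] at h1
      have h2 := Nat.floor_le_floor h1
      rwa [Nat.floor_natCast] at h2
    have h1 := hd.near (by positivity) (w := (w : ℤ)) (by exact_mod_cast hw)
    rw [hx] at h1
    have hwZ : (1 : ℤ) ≤ w := by exact_mod_cast hw
    have h2 : |(x : ℤ) - (w : ℤ) ^ F.natDegree| ≤ |(x : ℤ) - (w : ℤ) ^ F.natDegree| * w :=
      le_mul_of_one_le_right (abs_nonneg _) hwZ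
    have h3 := le_abs_self ((x : ℤ) - (w : ℤ) ^ F.natDegree)
    have h4 : (x : ℤ) ≤ ((1 + D * ⌊(w : ℝ) ^ δ⌋₊ : ℕ) : ℤ) * (w : ℤ) ^ F.natDegree := by
      push_cast
      linarith
    have h5 : x ≤ (1 + D * ⌊(w : ℝ) ^ δ⌋₊) * w ^ F.natDegree := by exact_mod_cast h4
    refine h5.trans (Nat.mul_le_mul ?_ (Nat.pow_le_pow_right hw hF.2.2.1))
    exact Nat.add_le_add_left (Nat.mul_le_mul_left _ hT) 1
  -- small `w`
  set w₁ := w₀ + 64 + D with hw₁
  obtain ⟨V, hV⟩ := vals_fin ((1 + D * w₁) * w₁ ^ D)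
  refine ((Set.finite_Iic V).prod ((Set.finite_Iic V).prod (Set.finite_Iic V))).subset ?_
  rintro v ⟨x, y, z, p, q, r, w, F, G, H, hx0, hy0, hz0, hxy, hxz, hyz, hp, hq, hr, hlt, heq, rfl,
    hw0, hF, hG, hH, hx, hy, hz⟩
  obtain ⟨hyp, hp2, hq2, hr2⟩ := hyp_of hp hq hr hlt
  have hs : SSol x y z p q r 1 1 (-1) := ⟨hx0, hy0, hz0, hxy, hxz, hyz, hp2, hq2, hr2, Or.inl rfl,
    Or.inl rfl, Or.inr rfl, by
      have : (x : ℤ) ^ p + (y : ℤ) ^ q = (z : ℤ) ^ r := by exact_mod_cast heq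
      linarith⟩
  have bx := hbase w x F hw0 hF hx
  have bY := hbase w y G hw0 hG hy
  have bz := hbase w z H hw0 hH hz
  rcases Nat.lt_or_ge w w₁ with hw | hw
  · have hmono : (1 + D * w) * w ^ D ≤ (1 + D * w₁) * w₁ ^ D :=
      Nat.mul_le_mul (Nat.add_le_add_left (Nat.mul_le_mul_left _ hw.le) 1)
        (Nat.pow_le_pow_left hw.le _)
    obtain ⟨v1, v2, v3⟩ := hV x y z p q r 1 1 (-1) hs (bx.trans hmono) (bY.trans hmono)
      (bz.trans hmono)
    simp only [Set.mem_prod, Set.mem_Iic]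
    exact ⟨v1, v2, v3⟩
  exfalso
  have hD0 : 1 ≤ D := hF.2.1.trans_le hF.2.2.1
  have hw64 : 64 ≤ w := by omega
  have hwR : (1 : ℝ) ≤ w := by exact_mod_cast (by omega : 1 ≤ w)
  have hwR0 : (0 : ℝ) < w := by linarith
  set s := Nat.log 2 w + 1 with hs'
  have hws : w < 2 ^ s := Nat.lt_pow_succ_log_self (by norm_num) w
  have hs3 : (s : ℝ) ≤ 3 * Real.log w := log_size (by omega)
  have hs2 : 1 ≤ s := by omega
  have hsize : (1 + D * w) * w ^ D ≤ 2 ^ ((D + 2) * s) := by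
    calc (1 + D * w) * w ^ D ≤ (w * w) * w ^ D := by
          apply Nat.mul_le_mul_right
          nlinarith
      _ = w ^ (D + 2) := by ring
      _ ≤ (2 ^ s) ^ (D + 2) := Nat.pow_le_pow_left hws.le _
      _ = 2 ^ ((D + 2) * s) := by rw [← pow_mul, mul_comm]
  have hSs : 2 ≤ (D + 2) * s := by
    calc 2 ≤ 2 * 1 := by norm_num
      _ ≤ (D + 2) * s := Nat.mul_le_mul (by omega) hs2
  obtain ⟨d1, d2, d3⟩ := hC₀ ((D + 2) * s) hSs x y z p q r 1 1 (-1) hs (bx.trans hsize)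
    (bY.trans hsize) (bz.trans hsize)
  -- the parameters
  set T := ⌊(w : ℝ) ^ δ⌋₊ with hT
  have hTle : (T : ℝ) ≤ (w : ℝ) ^ δ := Nat.floor_le (by positivity)
  have hT1 : 1 ≤ T := by
    apply Nat.le_floor
    push_cast
    exact Real.one_le_rpow hwR hδ0.le
  set L : ℕ := C₀ * ((D + 2) * s) ^ κ + 2 with hL
  have hLs : L ≤ (C₀ * (D + 2) ^ κ + 2) * s ^ κ := by
    have h5 : C₀ * ((D + 2) * s) ^ κ = C₀ * (D + 2) ^ κ * s ^ κ := by rw [mul_pow]; ring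
    have h6 : 1 ≤ s ^ κ := Nat.one_le_pow _ _ hs2
    rw [hL, h5, add_mul]
    omega
  have hKL : ((K * L : ℕ) : ℝ) ≤ (K₁ : ℝ) * 3 ^ κ * Real.log w ^ κ := by
    have h4 : K * L ≤ K₁ * s ^ κ := by
      rw [hK₁, mul_assoc]
      exact Nat.mul_le_mul_left _ hLs
    calc ((K * L : ℕ) : ℝ) ≤ (K₁ : ℝ) * (s : ℝ) ^ κ := by exact_mod_cast h4
      _ ≤ (K₁ : ℝ) * (3 * Real.log w) ^ κ := by gcongr
      _ = _ := by rw [mul_pow]; ring
  have hlog0 : 0 ≤ Real.log w := Real.log_nonneg hwR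
  have hmain : (K * L * T) ^ m ≤ w := by
    have h1 : (((K * L : ℕ) : ℝ)) ^ m ≤ (w : ℝ) ^ (1 / 2 : ℝ) := by
      calc (((K * L : ℕ) : ℝ)) ^ m ≤ ((K₁ : ℝ) * 3 ^ κ * Real.log w ^ κ) ^ m :=
            pow_le_pow_left₀ (by positivity) hKL m
        _ = ((K₁ : ℝ) * 3 ^ κ) ^ m * Real.log w ^ (κ * m) := by rw [mul_pow, ← pow_mul]
        _ ≤ (w : ℝ) ^ (1 / 2 : ℝ) := (hw₀ w (by omega)).le
    have h2 : (T : ℝ) ^ m ≤ (w : ℝ) ^ (1 / 2 : ℝ) := by
      calc (T : ℝ) ^ m ≤ ((w : ℝ) ^ δ) ^ m := pow_le_pow_left₀ (by positivity) hTle m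
        _ = (w : ℝ) ^ (1 / 2 : ℝ) := by
            rw [← Real.rpow_natCast, ← Real.rpow_mul hwR0.le]
            congr 1
            rw [hδ]
            field_simp
    have h3 : (((K * L * T : ℕ) : ℝ)) ^ m ≤ w := by
      calc (((K * L * T : ℕ) : ℝ)) ^ m = ((K * L : ℕ) : ℝ) ^ m * (T : ℝ) ^ m := by
            push_cast
            rw [← mul_pow]
        _ ≤ (w : ℝ) ^ (1 / 2 : ℝ) * (w : ℝ) ^ (1 / 2 : ℝ) := by gcongr
        _ = (w : ℝ) ^ (1 : ℝ) := by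
            rw [← Real.rpow_add hwR0]
            norm_num
        _ = w := Real.rpow_one _
    exact_mod_cast h3
  have hL1 : 1 ≤ L := by omega
  set B := K * L * T with hB
  have hLT : 1 ≤ L * T := Nat.mul_pos hL1 hT1
  have hKB : K ≤ B := by
    rw [hB, mul_assoc]
    exact Nat.le_mul_of_pos_right _ hLT
  have hB1 : 1 ≤ B := by omega
  have hBw : ∀ j, j ≤ m → B ^ j ≤ w := fun j hj => (Nat.pow_le_pow_right hB1 hj).trans hmain
  have hBw1 : B ≤ w := by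
    have := hBw 1 (by omega)
    rwa [pow_one] at this
  have hTLT : T ≤ L * T := Nat.le_mul_of_pos_left _ hL1
  have hLTB : L * T ≤ B := by
    rw [hB, mul_assoc]
    exact Nat.le_mul_of_pos_left _ (by omega)
  have hcK : ∀ c : ℕ, c ≤ K → c * (L * T) ≤ B := by
    intro c hc
    rw [hB, mul_assoc]
    exact Nat.mul_le_mul_right _ hc
  have hD3 : 0 < D ^ 3 := Nat.pow_pos hD0
  have h1 : 64 * (L * (D * T)) ≤ w := by
    calc 64 * (L * (D * T)) = (64 * D) * (L * T) := by ring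
      _ ≤ B := hcK _ (by omega)
      _ ≤ w := hBw1
  have h2 : 128 * (L * T) ^ (2 * D) ≤ w := by
    calc 128 * (L * T) ^ (2 * D) ≤ B * B ^ (2 * D) :=
          Nat.mul_le_mul (by omega) (Nat.pow_le_pow_left hLTB _)
      _ = B ^ (2 * D + 1) := by ring
      _ ≤ w := hBw _ (by omega)
  have h3 : 32 * (2 * L * D * (2 * T) ^ (2 * D)) ≤ w := by
    have e1 : 64 * D * L ≤ B := by
      calc 64 * D * L ≤ 64 * D * (L * T) := Nat.mul_le_mul_left _ (Nat.le_mul_of_pos_right _ hT1)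
        _ ≤ B := hcK _ (by omega)
    have e2 : 2 * T ≤ B := by
      calc 2 * T ≤ 2 * (L * T) := Nat.mul_le_mul_left _ hTLT
        _ ≤ B := hcK _ (by omega)
    calc 32 * (2 * L * D * (2 * T) ^ (2 * D)) = (64 * D * L) * (2 * T) ^ (2 * D) := by ring
      _ ≤ B * B ^ (2 * D) := Nat.mul_le_mul e1 (Nat.pow_le_pow_left e2 _)
      _ = B ^ (2 * D + 1) := by ring
      _ ≤ w := hBw _ (by omega)
  have h4 : 3 * (2 * D ^ 3 * T) ^ (D * (2 * D ^ 3)) < w := by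
    have e1 : 2 * D ^ 3 * T ≤ B := by
      calc 2 * D ^ 3 * T ≤ 2 * D ^ 3 * (L * T) := Nat.mul_le_mul_left _ hTLT
        _ ≤ B := hcK _ (by omega)
    have e2 : D * (2 * D ^ 3) = 2 * D ^ 4 := by ring
    rw [e2]
    calc 3 * (2 * D ^ 3 * T) ^ (2 * D ^ 4) ≤ 3 * B ^ (2 * D ^ 4) :=
          Nat.mul_le_mul_left _ (Nat.pow_le_pow_left e1 _)
      _ < B * B ^ (2 * D ^ 4) := Nat.mul_lt_mul_of_pos_right (by omega) (Nat.pow_pos hB1)
      _ = B ^ (2 * D ^ 4 + 1) := by ring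
      _ ≤ w := hBw _ (by omega)
  have h5 : T + 3 ≤ w := by
    have e1 : 4 * (L * T) ≤ B := hcK 4 (by omega)
    omega
  -- the exponents
  have hlow : ∀ (u : ℕ) (U : ℤ[X]), Small w D δ U → U.eval (w : ℤ) = u → 2 ≤ u := by
    intro u U hU hu
    have hd := hU.dig
    have e1 := hd.near (by positivity) (w := (w : ℤ)) (by exact_mod_cast hw0)
    rw [hu, ← hT] at e1
    have hwZ : (64 : ℤ) ≤ w := by exact_mod_cast hw64
    have e2 : 64 * ((D : ℤ) * T) ≤ w := by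
      have : 64 * (D * T) ≤ w := by
        calc 64 * (D * T) = 64 * D * T := by ring
          _ ≤ 64 * D * (L * T) := Nat.mul_le_mul_left _ hTLT
          _ ≤ B := hcK _ (by omega)
          _ ≤ w := hBw1
      exact_mod_cast this
    have e3 : (0 : ℤ) < (w : ℤ) ^ U.natDegree := by positivity
    have e4 : 64 * |(u : ℤ) - (w : ℤ) ^ U.natDegree| ≤ (w : ℤ) ^ U.natDegree := by
      have e5 : (64 * |(u : ℤ) - (w : ℤ) ^ U.natDegree|) * w ≤ (w : ℤ) ^ U.natDegree * w := by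
        calc (64 * |(u : ℤ) - (w : ℤ) ^ U.natDegree|) * w
            = 64 * (|(u : ℤ) - (w : ℤ) ^ U.natDegree| * w) := by ring
          _ ≤ 64 * (D * T * (w : ℤ) ^ U.natDegree) := by linarith
          _ = (64 * ((D : ℤ) * T)) * (w : ℤ) ^ U.natDegree := by ring
          _ ≤ w * (w : ℤ) ^ U.natDegree := mul_le_mul_of_nonneg_right e2 e3.le
          _ = _ := mul_comm _ _
      exact le_of_mul_le_mul_right e5 (by linarith)
    have e5 := neg_abs_le ((u : ℤ) - (w : ℤ) ^ U.natDegree)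
    have e6 : (w : ℤ) ≤ (w : ℤ) ^ U.natDegree :=
      le_self_pow₀ (by linarith) (Nat.pos_iff_ne_zero.1 hU.2.1)
    have e7 : (2 : ℤ) ≤ u := by linarith
    exact_mod_cast e7
  have g1 := d1 (hlow x F hF hx)
  have g2 := d2 (hlow y G hG hy)
  have g3 := d3 (hlow z H hH hz)
  rcases le_total (y ^ q) (x ^ p) with h | h
  · exact monic_core hw64 hT1 hL1 hF.dig hG.dig hH.dig hx hy hz h1 h2 h3 h4 h5 (by omega) (by omega)
      (by omega) hp2 hq2 hr2 hyp hy0 hxy heq h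
  · exact monic_core hw64 hT1 hL1 hG.dig hF.dig hH.dig hy hx hz h1 h2 h3 h4 h5 (by omega) (by omega)
      (by omega) hq2 hp2 hr2 (by unfold Hyp at hyp ⊢; nlinarith) hx0 hxy.symm
      (by rw [add_comm]; exact heq) h

end Pool.Agent.R477.FC
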